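import Mathlib

/-!
# Log Calabi-Yau pairs of index one, in the language of projective models

A projective variety over `ℂ` with function field `K` is given, as in Zariski-Samuel, by a finite
dimensional `ℂ`-subspace `V` of `K`: it is the closure `X_V` of the image of the generic point
`(f₀ : … : f_N)` in `ℙ^N`, where `f₀, …, f_N` is a basis of `V`.  The points of the scheme `X_V` are
represented by their local rings, which are subrings of `K`.
-/

universe u

namespace ComplexityOne

variable {K : Type u} [Field K] [Algebra ℂ K]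

/-- The coordinate ring `ℂ[g / f : g ∈ V]` of the affine chart `f ≠ 0` of `X_V`. -/
def chart (V : Submodule ℂ K) (f : K) : Subalgebra ℂ K :=
  Algebra.adjoin ℂ {x | ∃ g ∈ V, x = g / f}

/-- `O` is the local ring of the subring `R` at a prime ideal `q`. -/
def IsLocalRingOf (R O : Subalgebra ℂ K) : Prop :=
  ∃ q : Ideal R, q.IsPrime ∧ ∀ x : K, x ∈ O ↔ ∃ r s : R, s ∉ q ∧ x = (r : K) / (s : K)

/-- `O` is the local ring of a (scheme theoretic) point of the projective variety `X_V`. -/
def IsPoint (V : Submodule ℂ K) (O : Subalgebra ℂ K) : Prop :=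
  ∃ f ∈ V, f ≠ 0 ∧ IsLocalRingOf (chart V f) O

/-- `X_V` is normal: all its local rings are integrally closed in `K`. -/
def IsNormal (V : Submodule ℂ K) : Prop :=
  ∀ O : Subalgebra ℂ K, IsPoint V O → ∀ x : K, IsIntegral O x → x ∈ O

/-- The prime divisors of the normal variety `X_V`: the points whose local rings are discrete
valuation rings. -/
def PrimeDivisor (V : Submodule ℂ K) : Type u :=
  {O : Subalgebra ℂ K // IsPoint V O ∧ IsDiscreteValuationRing O}

/-- `ord_O(f) = m` for a discrete valuation ring `O` of `K`. -/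
def HasOrder (O : Subalgebra ℂ K) (f : K) (m : ℤ) : Prop :=
  ∃ t e : O, Irreducible t ∧ IsUnit e ∧ f = (e : K) * (t : K) ^ m

/-- A Weil divisor is principal if it is the divisor of a rational function. -/
def IsPrincipal {V : Submodule ℂ K} (D : PrimeDivisor V →₀ ℤ) : Prop :=
  ∃ g : K, g ≠ 0 ∧ ∀ P : PrimeDivisor V, HasOrder P.1 g (D P)

/-- A Weil divisor is Cartier if it is principal in a neighbourhood of every point of `X_V`. -/
def IsCartier {V : Submodule ℂ K} (D : PrimeDivisor V →₀ ℤ) : Prop :=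
  ∀ O : Subalgebra ℂ K, IsPoint V O →
    ∃ g : K, g ≠ 0 ∧ ∀ P : PrimeDivisor V, O ≤ P.1 → HasOrder P.1 g (D P)

/-- The Picard group of `X_V` (Cartier divisors modulo principal divisors) is infinite cyclic.
In particular the Picard rank, i.e. the rank of the Néron-Severi group, of `X_V` is one. -/
def PicardGroupInfiniteCyclic (V : Submodule ℂ K) : Prop :=
  ∃ H : PrimeDivisor V →₀ ℤ, IsCartier H ∧
    ∀ D : PrimeDivisor V →₀ ℤ, IsCartier D → ∃! m : ℤ, IsPrincipal (D - m • H)

/-- The form `dz₁ ∧ … ∧ dzₙ`. -/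
noncomputable def formOf {n : ℕ} (z : Fin n → K) : ExteriorAlgebra K (Ω[K⁄ℂ]) :=
  ExteriorAlgebra.ιMulti K n (fun i => KaehlerDifferential.D ℂ K (z i))

/-- `ord_O(ω) = m` for a rational `n`-form `ω`: the `O`-module of top forms `dz₁ ∧ … ∧ dzₙ`,
`zᵢ ∈ O`, is generated by one of them, and `ω = f dz₁ ∧ … ∧ dzₙ` with `ord_O(f) = m` for this
generator. -/
def HasFormOrder (n : ℕ) (O : Subalgebra ℂ K) (ω : ExteriorAlgebra K (Ω[K⁄ℂ])) (m : ℤ) : Prop :=
  ∃ z : Fin n → K, (∀ i, z i ∈ O) ∧
    (∀ z' : Fin n → K, (∀ i, z' i ∈ O) → ∃ c ∈ O, formOf z' = c • formOf z) ∧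
    ∃ f : K, HasOrder O f m ∧ ω = f • formOf z

/-- `ω` has at most a simple pole along the discrete valuation ring `O`: for a uniformiser `t`,
`t ω` is an `O`-linear combination of forms `dz₁ ∧ … ∧ dzₙ` with `zᵢ ∈ O`. -/
def HasAtMostSimplePole (n : ℕ) (O : Subalgebra ℂ K) (ω : ExteriorAlgebra K (Ω[K⁄ℂ])) : Prop :=
  ∃ t : O, Irreducible t ∧
    (t : K) • ω ∈ Submodule.span O {η | ∃ z : Fin n → K, (∀ i, z i ∈ O) ∧ η = formOf z}

/-- `ω` has at most simple poles along all discrete valuation rings of `K` over `ℂ`, in particular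
along all prime divisors over a projective variety with function field `K`. -/
def HasAtMostSimplePoles (n : ℕ) (ω : ExteriorAlgebra K (Ω[K⁄ℂ])) : Prop :=
  ∀ O : Subalgebra ℂ K, IsDiscreteValuationRing O → IsFractionRing O K →
    HasAtMostSimplePole n O ω

/-- `(X_V, B)` is a log Calabi-Yau pair of dimension `n` and index one.  `X_V` is a normal
projective variety of dimension `n` with function field `K`, `B` is a reduced divisor, given by the
set of its components, and there is a rational `n`-form `ω` with `div(ω) = - B`, i.e.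
`K_X + B ∼ 0`, having at most simple poles along all divisors over `X_V`, i.e. `(X_V, B)` is
log canonical. -/
def IsLogCalabiYauOfIndexOne (n : ℕ) (V : Submodule ℂ K) (B : Finset (PrimeDivisor V)) : Prop :=
  FiniteDimensional ℂ V ∧ IsPoint V ⊤ ∧ IsNormal V ∧ Algebra.trdeg ℂ K = n ∧
    ∃ ω : ExteriorAlgebra K (Ω[K⁄ℂ]),
      (∀ P : PrimeDivisor V, P ∈ B → HasFormOrder n P.1 ω (-1)) ∧
      (∀ P : PrimeDivisor V, P ∉ B → HasFormOrder n P.1 ω 0) ∧
      HasAtMostSimplePoles n ω

/-- `K` is a purely transcendental extension of `ℂ` of degree `n`: the varieties with function field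
`K` are birational to `ℙⁿ`. -/
def IsRational (K : Type u) [Field K] [Algebra ℂ K] (n : ℕ) : Prop :=
  Nonempty (FractionRing (MvPolynomial (Fin n) ℂ) ≃ₐ[ℂ] K)

/-! ### The example -/

/-- `K` is the function field of `E × ℙ¹ × ℙ¹`, where `E` is the Fermat cubic `a ^ 3 + b ^ 3 = 1`. -/
structure Quad (a b u v : K) : Prop where
  cubic : a ^ 3 + b ^ 3 = 1
  indep : AlgebraicIndependent ℂ ![a, u, v]
  top : IntermediateField.adjoin ℂ {a, b, u, v} = ⊤

/-- The linear system of the projective cone over `E × ℙ¹`, embedded in `ℙ⁵` by `𝒪(1, 1)`. -/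
def V (a b u v : K) : Submodule ℂ K :=
  Submodule.span ℂ {1, u, a * u, b * u, v, a * v, b * v}

/-- The invariant form `(da / b ^ 2) ∧ du / u ∧ dv / v`. -/
noncomputable def omega (a b u v : K) : ExteriorAlgebra K (Ω[K⁄ℂ]) :=
  (b ^ 2 * u * v)⁻¹ • formOf ![a, u, v]

/-- The chart `u ≠ 0`: the ring `ℂ[a, b, v / u, 1 / u]`. -/
def R (a b u v : K) : Subalgebra ℂ K := Algebra.adjoin ℂ {a, b, v / u, u⁻¹}

/-- The chart `1 ≠ 0`: the affine cone. -/
def S (a b u v : K) : Subalgebra ℂ K :=
  Algebra.adjoin ℂ {u, a * u, b * u, v, a * v, b * v}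

/-- The maximal ideal of the vertex. -/
def m₀ (a b u v : K) : Ideal (S a b u v) :=
  Ideal.span {x | (x : K) = u ∨ (x : K) = a * u ∨ (x : K) = b * u ∨
    (x : K) = v ∨ (x : K) = a * v ∨ (x : K) = b * v}

/-- `O` is the local ring of the vertex. -/
def IsVertex (a b u v : K) (O : Subalgebra ℂ K) : Prop :=
  ∀ x : K, x ∈ O ↔ ∃ r s : S a b u v, s ∉ m₀ a b u v ∧ x = (r : K) / (s : K)

/-- `P` is the local ring of `R` at the prime ideal generated by `t`. -/
def IsLocAt (R : Subalgebra ℂ K) (t : K) (P : Subalgebra ℂ K) : Prop :=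
  ∀ x : K, x ∈ P ↔ ∃ r s : R, (¬ ∃ c : R, (s : K) = t * c) ∧ x = (r : K) / (s : K)

end ComplexityOne
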