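import Mathlib
import Pool.Agent.Helper271.CY.Defs

universe u

namespace ComplexityOne

variable {K : Type u} [Field K] [Algebra ℂ K]

section ANormal

open Polynomial

/-- the cubic polynomial -/
noncomputable def fc : (ℂ[X])[X] := X ^ 3 - C (1 - X ^ 3)

theorem fc_monic : fc.Monic := monic_X_pow_sub_C _ (by norm_num)

theorem fc_irr : Irreducible fc := by
  have hnd : fc.natDegree = 3 := natDegree_X_pow_sub_C
  have hp : Prime (X - C (1 : ℂ)) := prime_X_sub_C 1
  have hP : (Ideal.span {(X - C (1 : ℂ))}).IsPrime := by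
    rw [Ideal.span_singleton_prime hp.ne_zero]
    exact hp
  have hc0 : fc.coeff 0 = -(1 - X ^ 3) := by
    unfold fc
    rw [coeff_sub, coeff_X_pow, if_neg (by norm_num), coeff_C_zero, zero_sub]
  refine IsEisensteinAt.irreducible (𝓟 := Ideal.span {(X - C (1 : ℂ))}) ⟨?_, ?_, ?_⟩ hP
    fc_monic.isPrimitive (by rw [hnd]; norm_num)
  · rw [fc_monic.leadingCoeff]
    intro h
    exact hP.ne_top ((Ideal.eq_top_iff_one _).2 h)
  · intro n hn
    rw [hnd] at hn
    rcases Nat.eq_zero_or_pos n with h0 | h0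
    · subst h0
      rw [hc0, Ideal.mem_span_singleton]
      refine ⟨X ^ 2 + X + 1, ?_⟩
      rw [C_1]
      ring
    · have : fc.coeff n = 0 := by
        unfold fc
        rw [coeff_sub, coeff_X_pow, coeff_C]
        rw [if_neg (by omega), if_neg (by omega)]
        ring
      rw [this]
      exact Ideal.zero_mem _
  · rw [hc0, Ideal.span_singleton_pow, Ideal.mem_span_singleton]
    rintro ⟨q, hq⟩
    have h1 := congrArg (fun r => eval 1 (derivative r)) hq
    simp [derivative_mul, derivative_pow] at h1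

theorem A_aux {K : Type*} [Field K] [Algebra ℂ K] {a b : K} (hc : a ^ 3 + b ^ 3 = 1)
    (ht : Transcendental ℂ a) (α β : ℂ) (hαβ : α ^ 3 + β ^ 3 = 1)
    (y : K) (hy : IsIntegral (Algebra.adjoin ℂ {a, b} : Subalgebra ℂ K) y)
    (m0 m1 m2 n0 n1 n2 : ℂ[X])
    (hmn : aeval a m0 + aeval a m1 * b + aeval a m2 * b ^ 2 =
      (aeval a n0 + aeval a n1 * b + aeval a n2 * b ^ 2) * y)
    (hn : eval α n0 + eval α n1 * β + eval α n2 * β ^ 2 = 0) :
    eval α m0 + eval α m1 * β + eval α m2 * β ^ 2 = 0 := by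
  have hdom : IsDomain (AdjoinRoot fc) := AdjoinRoot.isDomain_of_prime fc_irr.prime
  have hfin : Module.Finite ℂ[X] (AdjoinRoot fc) := (AdjoinRoot.powerBasis' fc_monic).finite
  have hint : Algebra.IsIntegral ℂ[X] (AdjoinRoot fc) := Algebra.IsIntegral.of_finite _ _
  have hψ0 : fc.eval₂ ((aeval a : ℂ[X] →ₐ[ℂ] K) : ℂ[X] →+* K) b = 0 := by
    rw [fc, eval₂_sub, eval₂_X_pow, eval₂_C]
    simp only [RingHom.coe_coe, map_sub, map_one, map_pow, aeval_X]
    linear_combination hc
  have hφ0 : fc.eval₂ (evalRingHom α) β = 0 := by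
    rw [fc, eval₂_sub, eval₂_X_pow, eval₂_C]
    simp only [coe_evalRingHom, eval_sub, eval_one, eval_pow, eval_X]
    linear_combination hαβ
  obtain ⟨ψ, hψdef⟩ : ∃ ψ : AdjoinRoot fc →+* K, ψ = AdjoinRoot.lift _ b hψ0 := ⟨_, rfl⟩
  obtain ⟨φ, hφdef⟩ : ∃ φ : AdjoinRoot fc →+* ℂ, φ = AdjoinRoot.lift _ β hφ0 := ⟨_, rfl⟩
  have hψof : ∀ p : ℂ[X], ψ (AdjoinRoot.of fc p) = aeval a p := by
    intro p
    rw [hψdef, AdjoinRoot.lift_of]
    rfl
  have hψr : ψ (AdjoinRoot.root fc) = b := by rw [hψdef, AdjoinRoot.lift_root]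
  have hφof : ∀ p : ℂ[X], φ (AdjoinRoot.of fc p) = eval α p := by
    intro p
    rw [hφdef, AdjoinRoot.lift_of]
    rfl
  have hφr : φ (AdjoinRoot.root fc) = β := by rw [hφdef, AdjoinRoot.lift_root]
  have hψinj : RingHom.ker ψ = ⊥ := by
    apply Ideal.eq_bot_of_comap_eq_bot (R := ℂ[X])
    rw [eq_bot_iff]
    intro p hp
    have h1 : aeval a p = 0 := by
      rw [← hψof]
      exact hp
    rw [Ideal.mem_bot]
    by_contra hne
    exact ht ⟨p, hne, h1⟩
  letI : Algebra (AdjoinRoot fc) K := ψ.toAlgebra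
  have hy' : IsIntegral (AdjoinRoot fc) y := by
    have hsub : ∀ z : (Algebra.adjoin ℂ {a, b} : Subalgebra ℂ K), ∃ w : AdjoinRoot fc, ψ w = z := by
      rintro ⟨z, hz⟩
      induction hz using Algebra.adjoin_induction with
      | mem x hx =>
        rcases hx with rfl | hx
        · exact ⟨AdjoinRoot.of fc X, by rw [hψof]; simp⟩
        · rw [Set.mem_singleton_iff] at hx
          subst hx
          exact ⟨AdjoinRoot.root fc, hψr⟩
      | algebraMap r => exact ⟨AdjoinRoot.of fc (C r), by rw [hψof]; simp⟩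
      | add x y hx hy h1 h2 =>
        obtain ⟨w1, h1⟩ := h1
        obtain ⟨w2, h2⟩ := h2
        exact ⟨w1 + w2, by rw [map_add, h1, h2]⟩
      | mul x y hx hy h1 h2 =>
        obtain ⟨w1, h1⟩ := h1
        obtain ⟨w2, h2⟩ := h2
        exact ⟨w1 * w2, by rw [map_mul, h1, h2]⟩
    obtain ⟨p, hpm, hp⟩ := hy
    have hlift : p.map (algebraMap (Algebra.adjoin ℂ {a, b} : Subalgebra ℂ K) K) ∈ lifts ψ := by
      rw [lifts_iff_coeff_lifts]
      intro n
      rw [coeff_map]
      exact hsub (p.coeff n)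
    obtain ⟨q, hq, -, hqm⟩ := lifts_and_degree_eq_and_monic hlift (hpm.map _)
    refine ⟨q, hqm, ?_⟩
    have h2 : q.eval₂ ψ y = (q.map ψ).eval y := by rw [eval_map]
    change q.eval₂ ψ y = 0
    rw [h2, hq, eval_map]
    exact hp
  have hmax : (RingHom.ker φ).IsMaximal := by
    apply RingHom.ker_isMaximal_of_surjective
    intro z
    exact ⟨AdjoinRoot.of fc (C z), by rw [hφof]; simp⟩
  have hkerle : RingHom.ker (algebraMap (AdjoinRoot fc) (integralClosure (AdjoinRoot fc) K)) ≤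
      RingHom.ker φ := by
    intro w hw
    have h1 : ψ w = 0 := by
      have h2 : ((algebraMap (AdjoinRoot fc) (integralClosure (AdjoinRoot fc) K) w :
        integralClosure (AdjoinRoot fc) K) : K) = ψ w := rfl
      rw [← h2]
      rw [RingHom.mem_ker] at hw
      rw [hw]
      rfl
    have h3 : w ∈ RingHom.ker ψ := h1
    rw [hψinj, Ideal.mem_bot] at h3
    rw [h3]
    exact Ideal.zero_mem _
  obtain ⟨Q, hQ, hQc⟩ := Ideal.exists_ideal_over_maximal_of_isIntegral (RingHom.ker φ) hkerle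
  have hker : ∀ w : AdjoinRoot fc,
      algebraMap (AdjoinRoot fc) (integralClosure (AdjoinRoot fc) K) w ∈ Q ↔ φ w = 0 := by
    intro w
    rw [← Ideal.mem_comap, hQc, RingHom.mem_ker]
  have hn' : algebraMap (AdjoinRoot fc) (integralClosure (AdjoinRoot fc) K)
      (AdjoinRoot.of fc n0 + AdjoinRoot.of fc n1 * AdjoinRoot.root fc +
        AdjoinRoot.of fc n2 * AdjoinRoot.root fc ^ 2) ∈ Q := by
    rw [hker]
    simp only [map_add, map_mul, map_pow, hφof, hφr]
    exact hn
  have hm' : algebraMap (AdjoinRoot fc) (integralClosure (AdjoinRoot fc) K)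
      (AdjoinRoot.of fc m0 + AdjoinRoot.of fc m1 * AdjoinRoot.root fc +
        AdjoinRoot.of fc m2 * AdjoinRoot.root fc ^ 2) ∈ Q := by
    have h1 : algebraMap (AdjoinRoot fc) (integralClosure (AdjoinRoot fc) K)
      (AdjoinRoot.of fc m0 + AdjoinRoot.of fc m1 * AdjoinRoot.root fc +
        AdjoinRoot.of fc m2 * AdjoinRoot.root fc ^ 2) =
      algebraMap (AdjoinRoot fc) (integralClosure (AdjoinRoot fc) K)
      (AdjoinRoot.of fc n0 + AdjoinRoot.of fc n1 * AdjoinRoot.root fc +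
        AdjoinRoot.of fc n2 * AdjoinRoot.root fc ^ 2) * ⟨y, hy'⟩ := by
      apply Subtype.ext
      change ψ _ = ψ _ * y
      simp only [map_add, map_mul, map_pow, hψof, hψr]
      exact hmn
    rw [h1]
    exact Ideal.mul_mem_right _ _ hn'
  rw [hker] at hm'
  simp only [map_add, map_mul, map_pow, hφof, hφr] at hm'
  exact hm'

/-- normal form of the elements of the coordinate ring -/
theorem A_form {K : Type*} [Field K] [Algebra ℂ K] {a b : K} (hc : a ^ 3 + b ^ 3 = 1) (x : K)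
    (hx : x ∈ Algebra.adjoin ℂ {a, b}) :
    ∃ p0 p1 p2 : ℂ[X], x = aeval a p0 + aeval a p1 * b + aeval a p2 * b ^ 2 := by
  induction hx using Algebra.adjoin_induction with
  | mem x hx =>
    rcases hx with rfl | hx
    · exact ⟨X, 0, 0, by simp⟩
    · rw [Set.mem_singleton_iff] at hx
      subst hx
      exact ⟨0, 1, 0, by simp⟩
  | algebraMap r => exact ⟨C r, 0, 0, by simp⟩
  | add x y hx hy h1 h2 =>
    obtain ⟨p0, p1, p2, h1⟩ := h1
    obtain ⟨q0, q1, q2, h2⟩ := h2
    exact ⟨p0 + q0, p1 + q1, p2 + q2, by rw [h1, h2]; simp only [map_add]; ring⟩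
  | mul x y hx hy h1 h2 =>
    obtain ⟨p0, p1, p2, h1⟩ := h1
    obtain ⟨q0, q1, q2, h2⟩ := h2
    refine ⟨p0 * q0 + (1 - X ^ 3) * (p1 * q2 + p2 * q1), p0 * q1 + p1 * q0 + (1 - X ^ 3) * (p2 * q2),
      p0 * q2 + p1 * q1 + p2 * q0, ?_⟩
    rw [h1, h2]
    simp only [map_add, map_mul, map_sub, map_one, map_pow, aeval_X]
    have hb : b ^ 3 = 1 - a ^ 3 := by linear_combination hc
    have hb4 : b ^ 4 = (1 - a ^ 3) * b := by
      rw [← hb]; ring
    linear_combination (aeval a p1 * aeval a q2 + aeval a p2 * aeval a q1) * hb +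
      (aeval a p2 * aeval a q2) * hb4

theorem A_mem {K : Type*} [Field K] [Algebra ℂ K] (a b : K) (p0 p1 p2 : ℂ[X]) :
    aeval a p0 + aeval a p1 * b + aeval a p2 * b ^ 2 ∈ Algebra.adjoin ℂ {a, b} := by
  have ha : a ∈ Algebra.adjoin ℂ ({a, b} : Set K) := Algebra.subset_adjoin (by simp)
  have hb : b ∈ Algebra.adjoin ℂ ({a, b} : Set K) := Algebra.subset_adjoin (by simp)
  have hp : ∀ p : ℂ[X], aeval a p ∈ Algebra.adjoin ℂ ({a, b} : Set K) := by
    intro p
    have h1 : aeval a p = ((aeval (⟨a, ha⟩ : Algebra.adjoin ℂ ({a, b} : Set K)) p :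
        Algebra.adjoin ℂ ({a, b} : Set K)) : K) := by
      rw [← Subalgebra.coe_val, ← aeval_algHom_apply]
      rfl
    rw [h1]
    exact Subtype.property _
  exact add_mem (add_mem (hp _) (mul_mem (hp _) hb)) (mul_mem (hp _) (pow_mem hb 2))

/-- the key divisibility -/
theorem A_key {K : Type*} [Field K] [Algebra ℂ K] {a b : K} (hc : a ^ 3 + b ^ 3 = 1)
    (ht : Transcendental ℂ a) (α : ℂ)
    (y : K) (hy : IsIntegral (Algebra.adjoin ℂ {a, b} : Subalgebra ℂ K) y)
    (m0 m1 m2 : ℂ[X])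
    (hmn : aeval a m0 + aeval a m1 * b + aeval a m2 * b ^ 2 = (a - algebraMap ℂ K α) * y) :
    eval α m0 = 0 ∧ eval α m1 = 0 ∧ eval α m2 = 0 := by
  have hb3 : b ^ 3 = 1 - a ^ 3 := by linear_combination hc
  have hane : a - algebraMap ℂ K α ≠ 0 := by
    intro h
    apply ht
    refine ⟨X - C α, X_sub_C_ne_zero α, ?_⟩
    simp [h]
  by_cases hα : 1 - α ^ 3 = 0
  · have h0 := A_aux hc ht α 0 (by linear_combination -hα) y hy m0 m1 m2 (X - C α) 0 0
      (by rw [hmn]; simp) (by simp)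
    have h0' : eval α m0 = 0 := by simpa using h0
    obtain ⟨m0', hm0⟩ := dvd_iff_isRoot.2 h0'
    -- (1 - X^3) = (X - α) g
    have hroot : IsRoot (1 - X ^ 3 : ℂ[X]) α := by simp [hα]
    obtain ⟨g, hg⟩ := dvd_iff_isRoot.2 hroot
    have hgα : eval α g ≠ 0 := by
      intro hg0
      have h1 := congrArg (fun r => eval α (derivative r)) hg
      simp [derivative_mul, hg0] at h1
      rcases h1 with h1 | h1
      · norm_num at h1
      · rw [h1] at hα
        norm_num at hα
    have hga : 1 - a ^ 3 = (a - algebraMap ℂ K α) * aeval a g := by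
      have h1 := congrArg (aeval a) hg
      simpa using h1
    have hm0a : aeval a m0 = (a - algebraMap ℂ K α) * aeval a m0' := by
      rw [hm0]; simp
    have e1 : aeval a (m1 * g) + aeval a (m2 * g) * b + aeval a m0' * b ^ 2 =
        (aeval a (0 : ℂ[X]) + aeval a (0 : ℂ[X]) * b + aeval a (1 : ℂ[X]) * b ^ 2) * y := by
      apply mul_left_cancel₀ hane
      simp only [map_mul, map_zero, map_one]
      rw [hm0a] at hmn
      have hb4 : b ^ 4 = (1 - a ^ 3) * b := by
        rw [← hb3]; ring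
      linear_combination b ^ 2 * hmn - (aeval a m1) * (hb3 + hga) - (aeval a m2) * (hb4 + hga * b)
    have h1 := A_aux hc ht α 0 (by linear_combination -hα) y hy _ _ _ 0 0 1 e1 (by simp)
    have h1' : eval α m1 = 0 := by
      simp only [eval_mul] at h1
      have : eval α m1 * eval α g = 0 := by simpa using h1
      exact (mul_eq_zero.1 this).resolve_right hgα
    obtain ⟨m1', hm1⟩ := dvd_iff_isRoot.2 h1'
    have hm1a : aeval a m1 = (a - algebraMap ℂ K α) * aeval a m1' := by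
      rw [hm1]; simp
    have e2 : aeval a (m2 * g) + aeval a m0' * b + aeval a m1' * b ^ 2 =
        (aeval a (0 : ℂ[X]) + aeval a (1 : ℂ[X]) * b + aeval a (0 : ℂ[X]) * b ^ 2) * y := by
      apply mul_left_cancel₀ hane
      simp only [map_mul, map_zero, map_one]
      rw [hm0a, hm1a] at hmn
      linear_combination b * hmn - (aeval a m2) * (hb3 + hga)
    have h2 := A_aux hc ht α 0 (by linear_combination -hα) y hy _ _ _ 0 1 0 e2 (by simp)
    have h2' : eval α m2 = 0 := by
      simp only [eval_mul] at h2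
      have : eval α m2 * eval α g = 0 := by simpa using h2
      exact (mul_eq_zero.1 this).resolve_right hgα
    exact ⟨h0', h1', h2'⟩
  · obtain ⟨β, hβ⟩ := IsAlgClosed.exists_pow_nat_eq (1 - α ^ 3) (n := 3) (by norm_num)
    obtain ⟨ζ, hζ⟩ : ∃ ζ : ℂ, 1 + ζ + ζ ^ 2 = 0 := by
      obtain ⟨ζ, hζ⟩ := IsAlgClosed.exists_root (X ^ 2 + X + 1 : ℂ[X]) (by
        have : (X ^ 2 + X + 1 : ℂ[X]).degree = 2 := by compute_degree!
        rw [this]; norm_num)
      refine ⟨ζ, ?_⟩
      have : eval ζ (X ^ 2 + X + 1 : ℂ[X]) = 0 := hζ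
      simp at this
      linear_combination this
    have hζ3 : ζ ^ 3 = 1 := by linear_combination (ζ - 1) * hζ
    have hβ0 : β ≠ 0 := by
      intro h
      rw [h] at hβ
      apply hα
      rw [← hβ]; norm_num
    have H : ∀ γ : ℂ, γ ^ 3 = 1 - α ^ 3 → eval α m0 + eval α m1 * γ + eval α m2 * γ ^ 2 = 0 := by
      intro γ hγ
      exact A_aux hc ht α γ (by linear_combination hγ) y hy m0 m1 m2 (X - C α) 0 0
        (by rw [hmn]; simp) (by simp)
    have e1 := H β hβ
    have e2 := H (ζ * β) (by rw [mul_pow, hζ3, hβ, one_mul])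
    have e3 := H (ζ ^ 2 * β) (by
      rw [mul_pow, hβ]
      have : (ζ ^ 2) ^ 3 = 1 := by
        rw [← pow_mul, mul_comm, pow_mul, hζ3, one_pow]
      rw [this, one_mul])
    have hu : eval α m0 = 0 := by
      have : 3 * eval α m0 = 0 := by
        linear_combination e1 + e2 + e3 - (eval α m1 * β + eval α m2 * β ^ 2) * hζ -
          eval α m2 * β ^ 2 * ζ * hζ3
      simpa using this
    have hv : eval α m1 = 0 := by
      have : 3 * (eval α m1 * β) = 0 := by
        linear_combination e1 + ζ ^ 2 * e2 + ζ * e3 - (eval α m0) * hζ -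
          (2 * eval α m1 * β + eval α m2 * β ^ 2 * (ζ + ζ ^ 2)) * hζ3 - eval α m2 * β ^ 2 * hζ
      have h2 : eval α m1 * β = 0 := by simpa using this
      exact (mul_eq_zero.1 h2).resolve_right hβ0
    have hw : eval α m2 = 0 := by
      rw [hu, hv] at e1
      have h2 : eval α m2 * β ^ 2 = 0 := by linear_combination e1
      exact (mul_eq_zero.1 h2).resolve_right (pow_ne_zero 2 hβ0)
    exact ⟨hu, hv, hw⟩

theorem A_ind {K : Type*} [Field K] [Algebra ℂ K] {a b : K} (hc : a ^ 3 + b ^ 3 = 1)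
    (ht : Transcendental ℂ a)
    (x : K) (hx : IsIntegral (Algebra.adjoin ℂ {a, b} : Subalgebra ℂ K) x) :
    ∀ (N : ℕ) (d p0 p1 p2 : ℂ[X]), d.natDegree = N → d ≠ 0 →
    aeval a d * x = aeval a p0 + aeval a p1 * b + aeval a p2 * b ^ 2 →
    x ∈ Algebra.adjoin ℂ {a, b} := by
  intro N
  induction N with
  | zero =>
    intro d p0 p1 p2 hd hd0 h
    rw [eq_C_of_natDegree_eq_zero hd] at h hd0
    have h0 : d.coeff 0 ≠ 0 := by
      intro h0
      rw [h0, C_0] at hd0
      exact hd0 rfl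
    have h1 : x = (d.coeff 0)⁻¹ • (aeval a p0 + aeval a p1 * b + aeval a p2 * b ^ 2) := by
      rw [← h, aeval_C, ← Algebra.smul_def, smul_smul, inv_mul_cancel₀ h0, one_smul]
    rw [h1]
    exact Subalgebra.smul_mem _ (A_mem a b p0 p1 p2) _
  | succ N ih =>
    intro d p0 p1 p2 hd hd0 h
    obtain ⟨α, hα⟩ := IsAlgClosed.exists_root d (by
      intro h0
      rw [degree_eq_natDegree hd0, hd] at h0
      norm_cast at h0)
    obtain ⟨d', hd'⟩ := dvd_iff_isRoot.2 hα
    have hd'0 : d' ≠ 0 := by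
      intro h0
      rw [h0, mul_zero] at hd'
      exact hd0 hd'
    have hdeg : d'.natDegree = N := by
      have h1 := congrArg natDegree hd'
      rw [natDegree_mul (X_sub_C_ne_zero α) hd'0, natDegree_X_sub_C, hd] at h1
      omega
    have hda : aeval a d = (a - algebraMap ℂ K α) * aeval a d' := by
      rw [hd']; simp
    have hint : IsIntegral (Algebra.adjoin ℂ {a, b} : Subalgebra ℂ K) (aeval a d' * x) := by
      apply IsIntegral.mul _ hx
      have h1 : aeval a d' ∈ (Algebra.adjoin ℂ {a, b} : Subalgebra ℂ K) := by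
        simpa using A_mem a b d' 0 0
      exact isIntegral_algebraMap (x := (⟨_, h1⟩ : (Algebra.adjoin ℂ {a, b} : Subalgebra ℂ K)))
    have hane : a - algebraMap ℂ K α ≠ 0 := by
      intro h
      apply ht
      refine ⟨X - C α, X_sub_C_ne_zero α, ?_⟩
      simp [h]
    obtain ⟨h0, h1, h2⟩ := A_key hc ht α (aeval a d' * x) hint p0 p1 p2 (by
      rw [← h, hda]; ring)
    obtain ⟨q0, hq0⟩ := dvd_iff_isRoot.2 h0
    obtain ⟨q1, hq1⟩ := dvd_iff_isRoot.2 h1
    obtain ⟨q2, hq2⟩ := dvd_iff_isRoot.2 h2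
    apply ih d' q0 q1 q2 hdeg hd'0
    apply mul_left_cancel₀ hane
    rw [hda, hq0, hq1, hq2] at h
    simp only [map_mul, map_sub, aeval_X, aeval_C] at h
    linear_combination h

theorem A_normal' {K : Type*} [Field K] [Algebra ℂ K] {a b : K} (hc : a ^ 3 + b ^ 3 = 1)
    (ht : Transcendental ℂ a) (x : K)
    (hx : IsIntegral (Algebra.adjoin ℂ {a, b} : Subalgebra ℂ K) x)
    (hF : x ∈ IntermediateField.adjoin ℂ {a, b}) : x ∈ Algebra.adjoin ℂ {a, b} := by
  obtain ⟨r, hr, s, hs, hxrs⟩ := IntermediateField.mem_adjoin_iff_div.1 hF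
  by_cases hs0 : s = 0
  · rw [hs0, div_zero] at hxrs
    rw [hxrs]
    exact zero_mem _
  obtain ⟨s0, s1, s2, hs'⟩ := A_form hc s hs
  -- s is algebraic over ℂ[a]: find a nonzero multiple in ℂ[a]
  have hN : ∃ t ∈ Algebra.adjoin ℂ ({a, b} : Set K), ∃ d : ℂ[X], d ≠ 0 ∧ s * t = aeval a d := by
    have hdom : IsDomain (AdjoinRoot fc) := AdjoinRoot.isDomain_of_prime fc_irr.prime
    have hfin : Module.Finite ℂ[X] (AdjoinRoot fc) := (AdjoinRoot.powerBasis' fc_monic).finite
    have hint : Algebra.IsIntegral ℂ[X] (AdjoinRoot fc) := Algebra.IsIntegral.of_finite _ _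
    have hinj : Function.Injective (algebraMap ℂ[X] (AdjoinRoot fc)) :=
      AdjoinRoot.of.injective_of_degree_ne_zero (by
        rw [show fc.degree = 3 from degree_X_pow_sub_C (by norm_num) _]
        norm_num)
    have hψ0 : fc.eval₂ ((aeval a : ℂ[X] →ₐ[ℂ] K) : ℂ[X] →+* K) b = 0 := by
      rw [fc, eval₂_sub, eval₂_X_pow, eval₂_C]
      simp only [RingHom.coe_coe, map_sub, map_one, map_pow, aeval_X]
      linear_combination hc
    obtain ⟨ψ, hψdef⟩ : ∃ ψ : AdjoinRoot fc →+* K, ψ = AdjoinRoot.lift _ b hψ0 := ⟨_, rfl⟩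
    have hψof : ∀ p : ℂ[X], ψ (AdjoinRoot.of fc p) = aeval a p := by
      intro p
      rw [hψdef, AdjoinRoot.lift_of]
      rfl
    have hψr : ψ (AdjoinRoot.root fc) = b := by rw [hψdef, AdjoinRoot.lift_root]
    have hS : ψ (AdjoinRoot.of fc s0 + AdjoinRoot.of fc s1 * AdjoinRoot.root fc +
        AdjoinRoot.of fc s2 * AdjoinRoot.root fc ^ 2) = s := by
      simp only [map_add, map_mul, map_pow, hψof, hψr]
      exact hs'.symm
    obtain ⟨S, hSdef⟩ : ∃ S, S = (AdjoinRoot.of fc s0 + AdjoinRoot.of fc s1 * AdjoinRoot.root fc +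
        AdjoinRoot.of fc s2 * AdjoinRoot.root fc ^ 2) := ⟨_, rfl⟩
    rw [← hSdef] at hS
    have hS0 : S ≠ 0 := by
      intro h
      rw [h, map_zero] at hS
      exact hs0 hS.symm
    obtain ⟨c, d, hd, hcd⟩ := Algebra.IsAlgebraic.exists_smul_eq_mul ℂ[X] (1 : AdjoinRoot fc) hS0
    refine ⟨ψ c, ?_, d, hd, ?_⟩
    · have : ∀ c : AdjoinRoot fc, ψ c ∈ Algebra.adjoin ℂ ({a, b} : Set K) := by
        intro c
        induction c using AdjoinRoot.induction_on with
        | ih p =>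
          rw [hψdef, AdjoinRoot.lift_mk, eval₂_eq_sum_range]
          refine sum_mem fun i _ => mul_mem ?_ (pow_mem (Algebra.subset_adjoin (by simp)) _)
          simpa using A_mem a b (p.coeff i) 0 0
      exact this c
    · rw [← hS, ← map_mul, ← hcd, ← hψof, Algebra.smul_def, mul_one]
      rfl
  obtain ⟨t, htm, d, hd0, hst⟩ := hN
  obtain ⟨p0, p1, p2, hp⟩ := A_form hc (r * t) (mul_mem hr htm)
  refine A_ind hc ht x hx _ d p0 p1 p2 rfl hd0 ?_
  rw [← hp, ← hst, hxrs]
  field_simp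

end ANormal

/-- the coordinate ring of the smooth curve `a ^ 3 + b ^ 3 = 1` is integrally closed -/
theorem A_normal {a b : K} (hc : a ^ 3 + b ^ 3 = 1) (ht : Transcendental ℂ a) (x : K)
    (hx : IsIntegral (Algebra.adjoin ℂ {a, b} : Subalgebra ℂ K) x)
    (hF : x ∈ IntermediateField.adjoin ℂ {a, b}) : x ∈ Algebra.adjoin ℂ {a, b} := by
  exact A_normal' hc ht x hx hF

end ComplexityOne
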