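import Mathlib
import Pool.Agent.Helper271.CY.Defs

universe u

namespace ComplexityOne

variable {K : Type u} [Field K] [Algebra ℂ K]

theorem Quad.chart_indep {a u v : K} (h : AlgebraicIndependent ℂ ![a, u, v]) :
    AlgebraicIndependent ℂ ![a, v / u, u⁻¹] := by
  classical
  have hu : u ≠ 0 := h.ne_zero 1
  rw [algebraicIndependent_iff]
  intro P hP
  by_contra hP0
  obtain ⟨N, hN⟩ : ∃ N : ℕ, N = P.totalDegree := ⟨_, rfl⟩
  have hdeg : ∀ m ∈ P.support, m 1 + m 2 ≤ N := by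
    intro m hm
    have h1 := MvPolynomial.le_totalDegree hm
    rw [Finsupp.sum_fintype _ _ (fun _ => rfl), Fin.sum_univ_three] at h1
    omega
  obtain ⟨Φ, hΦ⟩ : ∃ Φ : (Fin 3 →₀ ℕ) → (Fin 3 →₀ ℕ), ∀ m, Φ m 0 = m 0 ∧
      Φ m 1 = N - m 1 - m 2 ∧ Φ m 2 = m 1 :=
    ⟨fun m => Finsupp.equivFunOnFinite.symm ![m 0, N - m 1 - m 2, m 1], fun m =>
      ⟨rfl, rfl, rfl⟩⟩
  have hinj : ∀ m ∈ P.support, ∀ m' ∈ P.support, Φ m = Φ m' → m = m' := by
    intro m hm m' hm' he
    have h0 := congrArg (fun f : Fin 3 →₀ ℕ => f 0) he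
    have h1 := congrArg (fun f : Fin 3 →₀ ℕ => f 1) he
    have h2 := congrArg (fun f : Fin 3 →₀ ℕ => f 2) he
    have e := hΦ m
    have e' := hΦ m'
    have d := hdeg m hm
    have d' := hdeg m' hm'
    have h0' : Φ m 0 = Φ m' 0 := h0
    have h1' : Φ m 1 = Φ m' 1 := h1
    have h2' : Φ m 2 = Φ m' 2 := h2
    ext i
    fin_cases i
    · show m 0 = m' 0
      omega
    · show m 1 = m' 1
      omega
    · show m 2 = m' 2
      omega
  have hQ : MvPolynomial.aeval ![a, u, v]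
      (∑ m ∈ P.support, MvPolynomial.monomial (Φ m) (P.coeff m)) = 0 := by
    have h1 : MvPolynomial.aeval ![a, u, v]
        (∑ m ∈ P.support, MvPolynomial.monomial (Φ m) (P.coeff m)) =
        u ^ N * MvPolynomial.aeval ![a, v / u, u⁻¹] P := by
      rw [map_sum, MvPolynomial.aeval_def ![a, v / u, u⁻¹] P, MvPolynomial.eval₂_eq', Finset.mul_sum]
      refine Finset.sum_congr rfl fun m hm => ?_
      rw [MvPolynomial.aeval_monomial, Finsupp.prod_fintype _ _ (fun _ => pow_zero _),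
        Fin.prod_univ_three, Fin.prod_univ_three]
      obtain ⟨e0, e1, e2⟩ := hΦ m
      rw [e0, e1, e2]
      show algebraMap ℂ K (P.coeff m) * (a ^ m 0 * u ^ (N - m 1 - m 2) * v ^ m 1) =
        u ^ N * (algebraMap ℂ K (P.coeff m) * (a ^ m 0 * (v / u) ^ m 1 * u⁻¹ ^ m 2))
      have hd := hdeg m hm
      obtain ⟨r, hr⟩ : ∃ r, N = r + m 1 + m 2 := ⟨N - m 1 - m 2, by omega⟩
      rw [hr, show r + m 1 + m 2 - m 1 - m 2 = r by omega, pow_add, pow_add, div_pow, inv_pow]
      field_simp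
    rw [h1, hP, mul_zero]
  have hQ0 := (algebraicIndependent_iff.1 h) _ hQ
  obtain ⟨m, hm⟩ : P.support.Nonempty := by
    rw [Finset.nonempty_iff_ne_empty]
    intro h0
    exact hP0 (MvPolynomial.support_eq_empty.1 h0)
  have h2 := congrArg (MvPolynomial.coeff (Φ m)) hQ0
  rw [MvPolynomial.coeff_sum, MvPolynomial.coeff_zero, Finset.sum_eq_single m] at h2
  · rw [MvPolynomial.coeff_monomial, if_pos rfl] at h2
    exact (MvPolynomial.mem_support_iff.1 hm) h2
  · intro m' hm' hne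
    rw [MvPolynomial.coeff_monomial, if_neg fun he => hne (hinj m' hm' m hm he)]
  · intro hm'
    exact absurd hm hm'

theorem Quad.chart {a b u v : K} (h : Quad a b u v) : Quad a b (v / u) u⁻¹ := by
  have hu : u ≠ 0 := h.indep.ne_zero 1
  refine ⟨h.cubic, Quad.chart_indep h.indep, ?_⟩
  rw [eq_top_iff, ← h.top, IntermediateField.adjoin_le_iff]
  have ha : a ∈ IntermediateField.adjoin ℂ {a, b, v / u, u⁻¹} :=
    IntermediateField.subset_adjoin _ _ (by simp)
  have hb : b ∈ IntermediateField.adjoin ℂ {a, b, v / u, u⁻¹} :=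
    IntermediateField.subset_adjoin _ _ (by simp)
  have hvu : v / u ∈ IntermediateField.adjoin ℂ {a, b, v / u, u⁻¹} :=
    IntermediateField.subset_adjoin _ _ (by simp)
  have hui : u⁻¹ ∈ IntermediateField.adjoin ℂ {a, b, v / u, u⁻¹} :=
    IntermediateField.subset_adjoin _ _ (by simp)
  have hu' : u ∈ IntermediateField.adjoin ℂ {a, b, v / u, u⁻¹} := by
    have := IntermediateField.inv_mem _ hui
    rwa [inv_inv] at this
  have hv' : v ∈ IntermediateField.adjoin ℂ {a, b, v / u, u⁻¹} := by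
    have := IntermediateField.mul_mem _ hvu hu'
    rwa [div_mul_cancel₀ _ hu] at this
  intro x hx
  rcases hx with rfl | rfl | rfl | hx
  · exact ha
  · exact hb
  · exact hu'
  · rw [Set.mem_singleton_iff.1 hx]
    exact hv'

end ComplexityOne
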