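import Mathlib
import Pool.Agent.Helper271.CY.Defs

universe u

namespace ComplexityOne

variable {K : Type u} [Field K] [Algebra ℂ K]

theorem cd_int (F : IntermediateField ℂ K) (y : K) (hy : y ∈ F) : IsIntegral F y := by
  have e : algebraMap F K ⟨y, hy⟩ = y := rfl
  rw [← e]
  exact isIntegral_algebraMap

theorem cd_ext (F : IntermediateField ℂ K) (b : K) (hb : IsIntegral F b) (x : Fin 2 → K)
    (h : AlgebraicIndependent F x) :
    AlgebraicIndependent (IntermediateField.adjoin F ({b} : Set K)) x := by
  have halg := IntermediateField.isAlgebraic_adjoin_simple hb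
  exact h.extendScalars _

theorem cd_ext2 (F : IntermediateField ℂ K) (S : Set K) (x : Fin 2 → K)
    (h : AlgebraicIndependent (IntermediateField.adjoin F S) x) :
    AlgebraicIndependent ((IntermediateField.adjoin F S).restrictScalars ℂ) x := h

theorem coords_ind {a b u v : K} (h : Quad a b u v) :
    AlgebraicIndependent (IntermediateField.adjoin ℂ {a, b}) ![u, v] := by
  -- over `ℂ[a]`
  have h1 : AlgebraicIndependent ℂ (Sum.elim ![u, v] ![a] : Fin 2 ⊕ Fin 1 → K) := by
    have h2 := h.indep.comp (Sum.elim ![1, 2] ![0] : Fin 2 ⊕ Fin 1 → Fin 3) (by decide)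
    convert h2 using 1
    funext i
    rcases i with i | i
    · fin_cases i <;> rfl
    · fin_cases i; rfl
  have h3 := (AlgebraicIndependent.sumElim_iff.1 h1).2
  have hr : Set.range (![a] : Fin 1 → K) = {a} := by
    ext x
    constructor
    · rintro ⟨i, rfl⟩
      fin_cases i
      rfl
    · intro hx
      exact ⟨0, (Set.mem_singleton_iff.1 hx).symm⟩
  rw [hr] at h3
  have h4 : AlgebraicIndependent (IntermediateField.adjoin ℂ ({a} : Set K)) ![u, v] :=
    IntermediateField.algebraicIndependent_adjoin_iff.2 h3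
  -- `b` is integral
  have hb : IsIntegral (IntermediateField.adjoin ℂ ({a} : Set K)) b := by
    apply IsIntegral.of_pow (n := 3) (by norm_num)
    apply cd_int
    have e : b ^ 3 = 1 - a ^ 3 := by
      rw [← h.cubic]
      ring
    rw [e]
    have hma : a ∈ IntermediateField.adjoin ℂ ({a} : Set K) :=
      IntermediateField.mem_adjoin_simple_self ℂ a
    exact sub_mem (one_mem _) (pow_mem hma 3)
  have h7 := cd_ext2 _ _ _ (cd_ext _ b hb _ h4)
  have h6 := IntermediateField.adjoin_adjoin_left ℂ ({a} : Set K) ({b} : Set K)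
  have h8 : ({a} ∪ {b} : Set K) = {a, b} := rfl
  rw [h8] at h6
  rw [← h6]
  exact h7

omit [Field K] [Algebra ℂ K] in
theorem coords_range (u v : K) : Set.range (![u, v] : Fin 2 → K) = {u, v} := by
  ext x
  constructor
  · rintro ⟨i, rfl⟩
    fin_cases i
    · left; rfl
    · right; rfl
  · rintro (hx | hx)
    · exact ⟨0, hx.symm⟩
    · exact ⟨1, (Set.mem_singleton_iff.1 hx).symm⟩

omit [Field K] [Algebra ℂ K] in
theorem coords_union (a b u v : K) : ({a, b, u, v} : Set K) = {a, b} ∪ Set.range ![u, v] := by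
  rw [coords_range]
  ext x
  simp only [Set.mem_insert_iff, Set.mem_singleton_iff, Set.mem_union]
  tauto

/-- `ℂ[a, b, u, v]` is the polynomial ring in `u, v` over `ℂ[a, b]`. -/
theorem coords {a b u v : K} (h : Quad a b u v) :
    Function.Injective (MvPolynomial.aeval ![u, v] :
      MvPolynomial (Fin 2) (Algebra.adjoin ℂ {a, b} : Subalgebra ℂ K) →ₐ[(Algebra.adjoin ℂ {a, b} : Subalgebra ℂ K)] K) ∧
    ∀ x : K, x ∈ Algebra.adjoin ℂ {a, b, u, v} ↔
      ∃ p : MvPolynomial (Fin 2) (Algebra.adjoin ℂ {a, b} : Subalgebra ℂ K),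
        MvPolynomial.aeval ![u, v] p = x := by
  constructor
  · exact IntermediateField.algebraicIndependent_adjoin_iff.1 (coords_ind h)
  · intro x
    rw [coords_union, Algebra.adjoin_union_eq_adjoin_adjoin, Subalgebra.mem_restrictScalars,
      Algebra.adjoin_range_eq_range_aeval]
    rfl

/-- `u, v` are algebraically independent over the field `ℂ(a, b)`, and `K` is the field of
fractions. -/
theorem coordsF {a b u v : K} (h : Quad a b u v) :
    AlgebraicIndependent (IntermediateField.adjoin ℂ {a, b}) ![u, v] ∧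
    ∀ x : K, ∃ p q : MvPolynomial (Fin 2) (IntermediateField.adjoin ℂ {a, b}),
      q ≠ 0 ∧ x = MvPolynomial.aeval ![u, v] p / MvPolynomial.aeval ![u, v] q := by
  refine ⟨coords_ind h, fun x => ?_⟩
  have hx : x ∈ IntermediateField.adjoin ℂ {a, b, u, v} := by
    rw [h.top]
    exact IntermediateField.mem_top
  rw [coords_union, ← IntermediateField.adjoin_adjoin_left, IntermediateField.mem_restrictScalars,
    IntermediateField.mem_adjoin_range_iff] at hx
  obtain ⟨r, s, hrs⟩ := hx
  by_cases hs : s = 0
  · refine ⟨0, 1, one_ne_zero, ?_⟩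
    rw [hrs, hs, map_zero, div_zero, zero_div]
  · exact ⟨r, s, hs, hrs⟩

end ComplexityOne
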