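import Mathlib
import Pool.Agent.Helper271.CY.Defs
import Pool.Agent.Helper271.CY.J_coords

universe u

namespace ComplexityOne

variable {K : Type u} [Field K] [Algebra ℂ K]

theorem tp_prime {a b u v : K} (h : Quad a b u v) (i : Fin 2) :
    ∀ x ∈ Algebra.adjoin ℂ {a, b, u, v}, ∀ y ∈ Algebra.adjoin ℂ {a, b, u, v}, 
      (∃ c ∈ Algebra.adjoin ℂ {a, b, u, v}, x * y = (![u, v] : Fin 2 → K) i * c) → 
      (∃ c ∈ Algebra.adjoin ℂ {a, b, u, v}, x = (![u, v] : Fin 2 → K) i * c) ∨ 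
      (∃ c ∈ Algebra.adjoin ℂ {a, b, u, v}, y = (![u, v] : Fin 2 → K) i * c) := by
  obtain ⟨hinj, hmem⟩ := coords h
  intro x hx y hy hc
  obtain ⟨c, hc, hxy⟩ := hc
  obtain ⟨p, rfl⟩ := (hmem x).1 hx
  obtain ⟨q, rfl⟩ := (hmem y).1 hy
  obtain ⟨r, rfl⟩ := (hmem c).1 hc
  have hX : (MvPolynomial.aeval ![u, v] (MvPolynomial.X i : MvPolynomial (Fin 2) (Algebra.adjoin ℂ {a, b} : Subalgebra ℂ K))) = 
      (![u, v] : Fin 2 → K) i := MvPolynomial.aeval_X _ _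
  have h1 : p * q = MvPolynomial.X i * r := by
    apply hinj
    rw [map_mul, map_mul, hX, hxy]
  have hp : Prime (MvPolynomial.X i : MvPolynomial (Fin 2) (Algebra.adjoin ℂ {a, b} : Subalgebra ℂ K)) :=
    MvPolynomial.X_prime
  rcases hp.2.2 p q ⟨r, h1⟩ with ⟨s, hs⟩ | ⟨s, hs⟩
  · left
    refine ⟨MvPolynomial.aeval ![u, v] s, (hmem _).2 ⟨s, rfl⟩, ?_⟩
    rw [hs, map_mul, hX]
  · right
    refine ⟨MvPolynomial.aeval ![u, v] s, (hmem _).2 ⟨s, rfl⟩, ?_⟩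
    rw [hs, map_mul, hX]

theorem tp_ij {a b u v : K} (h : Quad a b u v) (i j : Fin 2) (hij : i ≠ j) :
    ¬ ∃ c ∈ Algebra.adjoin ℂ {a, b, u, v}, (![u, v] : Fin 2 → K) j = (![u, v] : Fin 2 → K) i * c := by
  obtain ⟨hinj, hmem⟩ := coords h
  rintro ⟨c, hc, hcc⟩
  obtain ⟨r, rfl⟩ := (hmem c).1 hc
  have hX : ∀ i, (MvPolynomial.aeval ![u, v] (MvPolynomial.X i : MvPolynomial (Fin 2) (Algebra.adjoin ℂ {a, b} : Subalgebra ℂ K))) = 
      (![u, v] : Fin 2 → K) i := fun i => MvPolynomial.aeval_X _ _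
  have h1 : (MvPolynomial.X j : MvPolynomial (Fin 2) (Algebra.adjoin ℂ {a, b} : Subalgebra ℂ K)) = MvPolynomial.X i * r := by
    apply hinj
    rw [map_mul, hX, hX, hcc]
  have h2 : (MvPolynomial.X i : MvPolynomial (Fin 2) (Algebra.adjoin ℂ {a, b} : Subalgebra ℂ K)) ∣ MvPolynomial.X j := ⟨r, h1⟩
  rw [MvPolynomial.X_dvd_X] at h2
  exact hij h2

theorem tp_F {a b u v : K} (h : Quad a b u v) (i : Fin 2) :
    ∀ x ∈ IntermediateField.adjoin ℂ {a, b}, x ≠ 0 → 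
      ¬ ∃ c ∈ Algebra.adjoin ℂ {a, b, u, v}, x = (![u, v] : Fin 2 → K) i * c := by
  obtain ⟨hinj, hmem⟩ := coords h
  obtain ⟨hind, _⟩ := coordsF h
  rintro x hx hx0 ⟨c, hc, hcc⟩
  obtain ⟨r, rfl⟩ := (hmem c).1 hc
  let g : (Algebra.adjoin ℂ {a, b} : Subalgebra ℂ K) →+* IntermediateField.adjoin ℂ {a, b} :=
    (Subalgebra.inclusion (IntermediateField.algebra_adjoin_le_adjoin ℂ {a, b})).toRingHom
  have hg : (algebraMap (IntermediateField.adjoin ℂ {a, b}) K).comp g = 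
      algebraMap (Algebra.adjoin ℂ {a, b} : Subalgebra ℂ K) K := rfl
  have hr : MvPolynomial.aeval ![u, v] (MvPolynomial.map g r) = MvPolynomial.aeval ![u, v] r := by
    rw [MvPolynomial.aeval_def, MvPolynomial.aeval_def, MvPolynomial.eval₂_map, hg]
  have h0 : MvPolynomial.aeval ![u, v] (MvPolynomial.C (⟨x, hx⟩ : IntermediateField.adjoin ℂ {a, b}) : 
      MvPolynomial (Fin 2) (IntermediateField.adjoin ℂ {a, b})) = 
      MvPolynomial.aeval ![u, v] (MvPolynomial.X i * MvPolynomial.map g r) := by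
    rw [map_mul, MvPolynomial.aeval_X, hr, MvPolynomial.aeval_C]
    exact hcc
  have h1 := hind h0
  have h2 := congrArg MvPolynomial.constantCoeff h1
  rw [MvPolynomial.constantCoeff_C, map_mul, MvPolynomial.constantCoeff_X, zero_mul] at h2
  exact hx0 (congrArg Subtype.val h2)

/-- `u` and `v` are prime elements of the polynomial ring `T = ℂ[a, b][u, v]`. -/
theorem T_prime {a b u v : K} (h : Quad a b u v) (T : Subalgebra ℂ K)
    (hT : T = Algebra.adjoin ℂ {a, b, u, v}) :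
    (∀ x ∈ T, ∀ y ∈ T, (∃ c ∈ T, x * y = u * c) → (∃ c ∈ T, x = u * c) ∨ (∃ c ∈ T, y = u * c)) ∧
    (∀ x ∈ T, ∀ y ∈ T, (∃ c ∈ T, x * y = v * c) → (∃ c ∈ T, x = v * c) ∨ (∃ c ∈ T, y = v * c)) ∧
    (¬ ∃ c ∈ T, v = u * c) ∧ (¬ ∃ c ∈ T, u = v * c) ∧ (¬ ∃ c ∈ T, 1 = u * c) ∧
    (¬ ∃ c ∈ T, 1 = v * c) ∧
    (∀ x ∈ IntermediateField.adjoin ℂ {a, b}, x ≠ 0 → ¬ ∃ c ∈ T, x = u * c) ∧
    (∀ x ∈ IntermediateField.adjoin ℂ {a, b}, x ≠ 0 → ¬ ∃ c ∈ T, x = v * c) := by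
  subst hT
  refine ⟨tp_prime h 0, tp_prime h 1, tp_ij h 0 1 (by decide), tp_ij h 1 0 (by decide), 
    tp_F h 0 1 (one_mem _) one_ne_zero, tp_F h 1 1 (one_mem _) one_ne_zero, tp_F h 0, tp_F h 1⟩

end ComplexityOne
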