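import Mathlib
import Pool.Agent.Helper271.CY.Defs

universe u

namespace ComplexityOne

variable {K : Type u} [Field K] [Algebra ℂ K]

theorem Quad.flip_ne {a b u v : K} (h : Quad a b u v) : a ≠ 0 := by
  have := h.indep.ne_zero 0
  simpa using this

theorem Quad.flip_indep {a b u v : K} (h : Quad a b u v) :
    AlgebraicIndependent ℂ ![a⁻¹, a * u, a * v] := by
  have ha := h.flip_ne
  set x : Fin 3 → K := ![a⁻¹, a * u, a * v] with hx
  have hmem : ∀ i, IsAlgebraic (Algebra.adjoin ℂ (Set.range x)) (x i) := fun i =>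
    isAlgebraic_algebraMap (⟨x i, Algebra.subset_adjoin ⟨i, rfl⟩⟩ : Algebra.adjoin ℂ (Set.range x))
  have h0 : IsAlgebraic (Algebra.adjoin ℂ (Set.range x)) a := by
    have := (hmem 0).inv
    have e : (x 0)⁻¹ = a := by
      show (a⁻¹)⁻¹ = a
      exact inv_inv a
    rwa [e] at this
  have h1 : IsAlgebraic (Algebra.adjoin ℂ (Set.range x)) u := by
    have := (hmem 0).mul (hmem 1)
    have e : x 0 * x 1 = u := by
      show a⁻¹ * (a * u) = u
      rw [← mul_assoc, inv_mul_cancel₀ ha, one_mul]
    rwa [e] at this
  have h2 : IsAlgebraic (Algebra.adjoin ℂ (Set.range x)) v := by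
    have := (hmem 0).mul (hmem 2)
    have e : x 0 * x 2 = v := by
      show a⁻¹ * (a * v) = v
      rw [← mul_assoc, inv_mul_cancel₀ ha, one_mul]
    rwa [e] at this
  have hone : IsAlgebraic (Algebra.adjoin ℂ (Set.range x)) (1 : K) := isAlgebraic_one
  have h3 : IsAlgebraic (Algebra.adjoin ℂ (Set.range x)) b := by
    have h4 : IsAlgebraic (Algebra.adjoin ℂ (Set.range x)) (b ^ 3) := by
      have h5 := hone.sub (h0.pow 3)
      have e : 1 - a ^ 3 = b ^ 3 := by
        rw [← h.cubic]
        ring
      rwa [e] at h5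
    exact h4.of_pow (by norm_num)
  have halg : Algebra.IsAlgebraic (Algebra.adjoin ℂ (Set.range x)) K := by
    refine ⟨fun y => ?_⟩
    have hy : y ∈ IntermediateField.adjoin ℂ ({a, b, u, v} : Set K) := by
      rw [h.top]
      exact IntermediateField.mem_top
    induction hy using IntermediateField.adjoin_induction with
    | mem z hz =>
      rcases hz with rfl | rfl | rfl | rfl
      · exact h0
      · exact h3
      · exact h1
      · exact h2
    | algebraMap c =>
      exact isAlgebraic_algebraMap (algebraMap ℂ (Algebra.adjoin ℂ (Set.range x)) c)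
    | add p q _ _ hp hq => exact hp.add hq
    | inv p _ hp => exact hp.inv
    | mul p q _ _ hp hq => exact hp.mul hq
  exact (Algebra.IsAlgebraic.isTranscendenceBasis_of_lift_le_trdeg_of_finite ℂ x
    h.indep.lift_cardinalMk_le_trdeg).1

theorem Quad.flip {a b u v : K} (h : Quad a b u v) : Quad a⁻¹ (-b / a) (a * u) (a * v) := by
  have ha := h.flip_ne
  refine ⟨?_, h.flip_indep, ?_⟩
  · have h1 := h.cubic
    field_simp
    linear_combination -h1
  · rw [eq_top_iff, ← h.top, IntermediateField.adjoin_le_iff]
    set F := IntermediateField.adjoin ℂ ({a⁻¹, -b / a, a * u, a * v} : Set K) with hF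
    have g0 : a⁻¹ ∈ F := IntermediateField.subset_adjoin ℂ _ (by simp)
    have g1 : -b / a ∈ F := IntermediateField.subset_adjoin ℂ _ (by simp)
    have g2 : a * u ∈ F := IntermediateField.subset_adjoin ℂ _ (by simp)
    have g3 : a * v ∈ F := IntermediateField.subset_adjoin ℂ _ (by simp)
    have ga : a ∈ F := by
      have := F.inv_mem g0
      rwa [inv_inv] at this
    rintro z (rfl | rfl | rfl | rfl)
    · exact ga
    · have := F.neg_mem (F.mul_mem g1 ga)
      have e : -(-z / a * a) = z := by field_simp
      rwa [e] at this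
    · have := F.mul_mem g0 g2
      rwa [← mul_assoc, inv_mul_cancel₀ ha, one_mul] at this
    · have := F.mul_mem g0 g3
      rwa [← mul_assoc, inv_mul_cancel₀ ha, one_mul] at this

theorem V_flip {a b u v : K} (ha : a ≠ 0) :
    V a⁻¹ (-b / a) (a * u) (a * v) = V a b u v := by
  have e1 : a⁻¹ * (a * u) = u := by rw [← mul_assoc, inv_mul_cancel₀ ha, one_mul]
  have e2 : a⁻¹ * (a * v) = v := by rw [← mul_assoc, inv_mul_cancel₀ ha, one_mul]
  have e3 : -b / a * (a * u) = -(b * u) := by field_simp
  have e4 : -b / a * (a * v) = -(b * v) := by field_simp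
  unfold V
  rw [e1, e2, e3, e4]
  apply le_antisymm
  · rw [Submodule.span_le]
    set T := Submodule.span ℂ ({1, u, a * u, b * u, v, a * v, b * v} : Set K) with hT
    have hs : ({1, u, a * u, b * u, v, a * v, b * v} : Set K) ⊆ T := Submodule.subset_span
    rintro z (rfl | rfl | rfl | rfl | rfl | rfl | rfl)
    · exact hs (by simp)
    · exact hs (by simp)
    · exact hs (by simp)
    · exact T.neg_mem (hs (by simp))
    · exact hs (by simp)
    · exact hs (by simp)
    · exact T.neg_mem (hs (by simp))
  · rw [Submodule.span_le]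
    set T := Submodule.span ℂ ({1, a * u, u, -(b * u), a * v, v, -(b * v)} : Set K) with hT
    have hs : ({1, a * u, u, -(b * u), a * v, v, -(b * v)} : Set K) ⊆ T := Submodule.subset_span
    rintro z (rfl | rfl | rfl | rfl | rfl | rfl | rfl)
    · exact hs (by simp)
    · exact hs (by simp)
    · exact hs (by simp)
    · have := T.neg_mem (hs (by simp : -(b * u) ∈ _))
      rwa [neg_neg] at this
    · exact hs (by simp)
    · exact hs (by simp)
    · have := T.neg_mem (hs (by simp : -(b * v) ∈ _))
      rwa [neg_neg] at this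

theorem S_flip {a b u v : K} (ha : a ≠ 0) :
    S a⁻¹ (-b / a) (a * u) (a * v) = S a b u v := by
  have e1 : a⁻¹ * (a * u) = u := by rw [← mul_assoc, inv_mul_cancel₀ ha, one_mul]
  have e2 : a⁻¹ * (a * v) = v := by rw [← mul_assoc, inv_mul_cancel₀ ha, one_mul]
  have e3 : -b / a * (a * u) = -(b * u) := by field_simp
  have e4 : -b / a * (a * v) = -(b * v) := by field_simp
  unfold S
  rw [e1, e2, e3, e4]
  apply le_antisymm
  · rw [Algebra.adjoin_le_iff]
    set T := Algebra.adjoin ℂ ({u, a * u, b * u, v, a * v, b * v} : Set K) with hT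
    have hs : ({u, a * u, b * u, v, a * v, b * v} : Set K) ⊆ T := Algebra.subset_adjoin
    rintro z (rfl | rfl | rfl | rfl | rfl | rfl)
    · exact hs (by simp)
    · exact hs (by simp)
    · exact T.neg_mem (hs (by simp))
    · exact hs (by simp)
    · exact hs (by simp)
    · exact T.neg_mem (hs (by simp))
  · rw [Algebra.adjoin_le_iff]
    set T := Algebra.adjoin ℂ ({a * u, u, -(b * u), a * v, v, -(b * v)} : Set K) with hT
    have hs : ({a * u, u, -(b * u), a * v, v, -(b * v)} : Set K) ⊆ T := Algebra.subset_adjoin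
    rintro z (rfl | rfl | rfl | rfl | rfl | rfl)
    · exact hs (by simp)
    · exact hs (by simp)
    · have := T.neg_mem (hs (by simp : -(b * u) ∈ _))
      rwa [neg_neg] at this
    · exact hs (by simp)
    · exact hs (by simp)
    · have := T.neg_mem (hs (by simp : -(b * v) ∈ _))
      rwa [neg_neg] at this

end ComplexityOne
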