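import Mathlib
import Pool.Agent.Helper271.CY.Defs
import Pool.Agent.Helper271.CY.J_flip
import Pool.Agent.Helper271.CY.J_Rquad
import Pool.Agent.Helper271.CY.J_Tprime

universe u

namespace ComplexityOne

variable {K : Type u} [Field K] [Algebra ℂ K]

theorem Quad.a_ne_Dflip {a b u v : K} (h : Quad a b u v) : a ≠ 0 := h.indep.ne_zero 0

theorem Quad.u_ne_Dflip {a b u v : K} (h : Quad a b u v) : u ≠ 0 := h.indep.ne_zero 1

theorem exists_pow_mul_mem {A' : Subalgebra ℂ K} {S : Set K} {e : K} (he : e ∈ A')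
    (hS : ∀ x ∈ S, ∃ N : ℕ, e ^ N * x ∈ A') (x : K) (hx : x ∈ Algebra.adjoin ℂ S) :
    ∃ N : ℕ, e ^ N * x ∈ A' := by
  induction hx using Algebra.adjoin_induction with
  | mem x hx => exact hS x hx
  | algebraMap r => exact ⟨0, by simpa using A'.algebraMap_mem r⟩
  | add x y _ _ hx hy =>
    obtain ⟨N, hN⟩ := hx
    obtain ⟨M, hM⟩ := hy
    refine ⟨N + M, ?_⟩
    have : e ^ (N + M) * (x + y) = e ^ M * (e ^ N * x) + e ^ N * (e ^ M * y) := by ring
    rw [this]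
    exact A'.add_mem (A'.mul_mem (A'.pow_mem he M) hN) (A'.mul_mem (A'.pow_mem he N) hM)
  | mul x y _ _ hx hy =>
    obtain ⟨N, hN⟩ := hx
    obtain ⟨M, hM⟩ := hy
    refine ⟨N + M, ?_⟩
    have : e ^ (N + M) * (x * y) = (e ^ N * x) * (e ^ M * y) := by ring
    rw [this]
    exact A'.mul_mem hN hM

theorem loc_le {A A' : Subalgebra ℂ K} {e e' p p' : K} (hee : e * e' = 1) (heA : e ∈ A)
    (heA' : e' ∈ A') (k : ℕ) (hpp : p' * e ^ k = p ∨ p' = p * e ^ k)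
    (h1 : ∀ x ∈ A, ∃ N : ℕ, e' ^ N * x ∈ A') (h2 : ∀ x ∈ A', ∃ N : ℕ, e ^ N * x ∈ A)
    (hp : ∀ x ∈ A, ∀ y ∈ A, (∃ c ∈ A, x * y = p * c) → (∃ c ∈ A, x = p * c) ∨ (∃ c ∈ A, y = p * c))
    (hn : ¬ ∃ c ∈ A, e = p * c) (h1' : ¬ ∃ c ∈ A, 1 = p * c)
    (x : K) (hx : ∃ r s : A, (¬ ∃ c : A, (s : K) = p * c) ∧ x = (r : K) / (s : K)) :
    ∃ r s : A', (¬ ∃ c : A', (s : K) = p' * c) ∧ x = (r : K) / (s : K) := by
  obtain ⟨⟨r, hr⟩, ⟨w, hw⟩, hc, rfl⟩ := hx
  obtain ⟨N, hN⟩ := h1 r hr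
  obtain ⟨M, hM⟩ := h1 w hw
  have he'0 : e' ≠ 0 := right_ne_zero_of_mul_eq_one hee
  have hr' : e' ^ (N + M) * r ∈ A' := by
    have : e' ^ (N + M) * r = e' ^ M * (e' ^ N * r) := by ring
    rw [this]
    exact A'.mul_mem (A'.pow_mem heA' M) hN
  have hw' : e' ^ (N + M) * w ∈ A' := by
    have : e' ^ (N + M) * w = e' ^ N * (e' ^ M * w) := by ring
    rw [this]
    exact A'.mul_mem (A'.pow_mem heA' N) hM
  refine ⟨⟨_, hr'⟩, ⟨_, hw'⟩, ?_, ?_⟩
  · rintro ⟨⟨c, hcA⟩, hcc⟩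
    obtain ⟨L, hL⟩ := h2 c hcA
    -- powers of e are not divisible by p
    have hpow : ∀ n : ℕ, ¬ ∃ c ∈ A, e ^ n = p * c := by
      intro n
      induction n with
      | zero => simpa using h1'
      | succ n ih =>
        intro hd
        rw [pow_succ] at hd
        rcases hp _ (A.pow_mem heA n) _ heA hd with h | h
        · exact ih h
        · exact hn h
    have hw_eq : e ^ (N + M) * (e' ^ (N + M) * w) = w := by
      rw [← mul_assoc, ← mul_pow, hee, one_pow, one_mul]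
    simp only at hcc
    have key : ∃ n : ℕ, ∃ c ∈ A, e ^ n * w = p * c := by
      rcases hpp with hpp | hpp
      · refine ⟨L + k, e ^ (N + M) * (e ^ L * c), A.mul_mem (A.pow_mem heA _) hL, ?_⟩
        calc e ^ (L + k) * w = e ^ (L + k) * (e ^ (N + M) * (e' ^ (N + M) * w)) := by rw [hw_eq]
          _ = e ^ (L + k) * (e ^ (N + M) * (p' * c)) := by rw [hcc]
          _ = (p' * e ^ k) * (e ^ (N + M) * (e ^ L * c)) := by ring
          _ = p * (e ^ (N + M) * (e ^ L * c)) := by rw [hpp]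
      · refine ⟨L, e ^ (N + M + k) * (e ^ L * c), A.mul_mem (A.pow_mem heA _) hL, ?_⟩
        calc e ^ L * w = e ^ L * (e ^ (N + M) * (e' ^ (N + M) * w)) := by rw [hw_eq]
          _ = e ^ L * (e ^ (N + M) * (p' * c)) := by rw [hcc]
          _ = p * (e ^ (N + M + k) * (e ^ L * c)) := by rw [hpp]; ring
    obtain ⟨n, d, hd, hnd⟩ := key
    rcases hp _ (A.pow_mem heA n) _ hw ⟨d, hd, hnd⟩ with h | h
    · exact hpow n h
    · obtain ⟨c', hc', h⟩ := h
      exact hc ⟨⟨c', hc'⟩, h⟩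
  · simp only
    rw [mul_div_mul_left _ _ (pow_ne_zero _ he'0)]

theorem isLocAt_congr {A A' : Subalgebra ℂ K} {p p' : K} {P : Subalgebra ℂ K}
    (h : ∀ x : K, (∃ r s : A, (¬ ∃ c : A, (s : K) = p * c) ∧ x = (r : K) / (s : K)) →
      ∃ r s : A', (¬ ∃ c : A', (s : K) = p' * c) ∧ x = (r : K) / (s : K))
    (h' : ∀ x : K, (∃ r s : A', (¬ ∃ c : A', (s : K) = p' * c) ∧ x = (r : K) / (s : K)) →
      ∃ r s : A, (¬ ∃ c : A, (s : K) = p * c) ∧ x = (r : K) / (s : K)) :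
    IsLocAt A' p' P ↔ IsLocAt A p P := by
  constructor
  · intro H x
    exact (H x).trans ⟨h' x, h x⟩
  · intro H x
    exact (H x).trans ⟨h x, h' x⟩

theorem flip_h1 {a b u v : K} (h : Quad a b u v) (x : K) (hx : x ∈ R a b u v) :
    ∃ N : ℕ, a⁻¹ ^ N * x ∈ R a⁻¹ (-b / a) (a * u) (a * v) := by
  have ha := h.a_ne_Dflip
  have hu := h.u_ne_Dflip
  have m1 : a⁻¹ ∈ R a⁻¹ (-b / a) (a * u) (a * v) := Algebra.subset_adjoin (by simp)
  have m2 : -b / a ∈ R a⁻¹ (-b / a) (a * u) (a * v) := Algebra.subset_adjoin (by simp)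
  have m3 : a * v / (a * u) ∈ R a⁻¹ (-b / a) (a * u) (a * v) := Algebra.subset_adjoin (by simp)
  have m4 : (a * u)⁻¹ ∈ R a⁻¹ (-b / a) (a * u) (a * v) := Algebra.subset_adjoin (by simp)
  refine exists_pow_mul_mem m1 ?_ x hx
  intro y hy
  simp only [Set.mem_insert_iff, Set.mem_singleton_iff] at hy
  rcases hy with rfl | rfl | rfl | rfl
  · refine ⟨1, ?_⟩
    rw [pow_one, inv_mul_cancel₀ ha]
    exact Subalgebra.one_mem _
  · refine ⟨1, ?_⟩
    have : a⁻¹ ^ 1 * y = -(-y / a) := by field_simp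
    rw [this]
    exact Subalgebra.neg_mem _ m2
  · refine ⟨0, ?_⟩
    have : a⁻¹ ^ 0 * (v / u) = a * v / (a * u) := by
      rw [mul_div_mul_left _ _ ha]; simp
    rw [this]
    exact m3
  · refine ⟨1, ?_⟩
    have : a⁻¹ ^ 1 * u⁻¹ = (a * u)⁻¹ := by rw [pow_one, mul_inv]
    rw [this]
    exact m4

theorem flip_h2 {a b u v : K} (h : Quad a b u v) (x : K)
    (hx : x ∈ R a⁻¹ (-b / a) (a * u) (a * v)) :
    ∃ N : ℕ, a ^ N * x ∈ R a b u v := by
  have ha := h.a_ne_Dflip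
  have hu := h.u_ne_Dflip
  have m1 : a ∈ R a b u v := Algebra.subset_adjoin (by simp)
  have m2 : b ∈ R a b u v := Algebra.subset_adjoin (by simp)
  have m3 : v / u ∈ R a b u v := Algebra.subset_adjoin (by simp)
  have m4 : u⁻¹ ∈ R a b u v := Algebra.subset_adjoin (by simp)
  refine exists_pow_mul_mem m1 ?_ x hx
  intro y hy
  simp only [Set.mem_insert_iff, Set.mem_singleton_iff] at hy
  rcases hy with rfl | rfl | rfl | rfl
  · refine ⟨1, ?_⟩
    rw [pow_one, mul_inv_cancel₀ ha]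
    exact Subalgebra.one_mem _
  · refine ⟨1, ?_⟩
    have : a ^ 1 * (-b / a) = -b := by field_simp
    rw [this]
    exact Subalgebra.neg_mem _ m2
  · refine ⟨0, ?_⟩
    have : a ^ 0 * (a * v / (a * u)) = v / u := by
      rw [mul_div_mul_left _ _ ha]; simp
    rw [this]
    exact m3
  · refine ⟨1, ?_⟩
    have : a ^ 1 * (a * u)⁻¹ = u⁻¹ := by field_simp
    rw [this]
    exact m4

theorem Dw_flip {a b u v : K} (h : Quad a b u v) (P : Subalgebra ℂ K) :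
    IsLocAt (R a⁻¹ (-b / a) (a * u) (a * v)) (a * u)⁻¹ P ↔ IsLocAt (R a b u v) u⁻¹ P := by
  have ha := h.a_ne_Dflip
  have hu := h.u_ne_Dflip
  obtain ⟨-, q2, -, -, -, q6, -, q8⟩ := T_prime h.chart (R a b u v) rfl
  obtain ⟨-, r2, -, -, -, r6, -, r8⟩ := T_prime h.flip.chart (R a⁻¹ (-b / a) (a * u) (a * v)) rfl
  have m1 : a ∈ R a b u v := Algebra.subset_adjoin (by simp)
  have m1' : a⁻¹ ∈ R a⁻¹ (-b / a) (a * u) (a * v) := Algebra.subset_adjoin (by simp)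
  apply isLocAt_congr
  · refine loc_le (e := a) (e' := a⁻¹) (mul_inv_cancel₀ ha) m1 m1' 1 (Or.inl ?_)
      (flip_h1 h) (flip_h2 h) q2 ?_ q6
    · field_simp
    · exact q8 a (IntermediateField.subset_adjoin _ _ (by simp)) ha
  · refine loc_le (e := a⁻¹) (e' := a) (inv_mul_cancel₀ ha) m1' m1 1 (Or.inl ?_)
      (flip_h2 h) (flip_h1 h) r2 ?_ r6
    · field_simp
    · exact r8 a⁻¹ (IntermediateField.subset_adjoin _ _ (by simp)) (inv_ne_zero ha)

theorem Dv_flip {a b u v : K} (h : Quad a b u v) (P : Subalgebra ℂ K) :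
    IsLocAt (R a⁻¹ (-b / a) (a * u) (a * v)) (a * v / (a * u)) P ↔
      IsLocAt (R a b u v) (v / u) P := by
  have ha := h.a_ne_Dflip
  have hu := h.u_ne_Dflip
  obtain ⟨q1, -, -, -, q5, -, q7, -⟩ := T_prime h.chart (R a b u v) rfl
  obtain ⟨r1, -, -, -, r5, -, r7, -⟩ := T_prime h.flip.chart (R a⁻¹ (-b / a) (a * u) (a * v)) rfl
  have m1 : a ∈ R a b u v := Algebra.subset_adjoin (by simp)
  have m1' : a⁻¹ ∈ R a⁻¹ (-b / a) (a * u) (a * v) := Algebra.subset_adjoin (by simp)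
  apply isLocAt_congr
  · refine loc_le (e := a) (e' := a⁻¹) (mul_inv_cancel₀ ha) m1 m1' 0 (Or.inl ?_)
      (flip_h1 h) (flip_h2 h) q1 ?_ q5
    · field_simp
    · exact q7 a (IntermediateField.subset_adjoin _ _ (by simp)) ha
  · refine loc_le (e := a⁻¹) (e' := a) (inv_mul_cancel₀ ha) m1' m1 0 (Or.inl ?_)
      (flip_h2 h) (flip_h1 h) r1 ?_ r5
    · field_simp
    · exact r7 a⁻¹ (IntermediateField.subset_adjoin _ _ (by simp)) (inv_ne_zero ha)

end ComplexityOne
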