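import Mathlib
import Pool.Agent.Helper271.CY.Defs
import Pool.Agent.Helper271.CY.J_Rquad
import Pool.Agent.Helper271.CY.J_Tprime

universe u

namespace ComplexityOne

variable {K : Type u} [Field K] [Algebra ℂ K]

theorem Dw_const_mem {a b u v : K} (h : Quad a b u v) {P : Subalgebra ℂ K}
    (hP : IsLocAt (R a b u v) u⁻¹ P) {x y : K} (hx : x ∈ Algebra.adjoin ℂ {a, b})
    (hy : y ∈ Algebra.adjoin ℂ {a, b}) (hy0 : y ≠ 0) : x / y ∈ P := by
  have hT := T_prime h.chart (R a b u v) rfl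
  have hlast := hT.2.2.2.2.2.2.2
  have hsub : Algebra.adjoin ℂ ({a, b} : Set K) ≤ R a b u v := by
    apply Algebra.adjoin_mono
    intro z hz
    simp only [Set.mem_insert_iff, Set.mem_singleton_iff] at hz ⊢
    tauto
  have hyI : y ∈ IntermediateField.adjoin ℂ ({a, b} : Set K) :=
    IntermediateField.algebra_adjoin_le_adjoin ℂ _ hy
  refine (hP (x / y)).2 ⟨⟨x, hsub hx⟩, ⟨y, hsub hy⟩, ?_, rfl⟩
  rintro ⟨c, hc⟩
  exact hlast y hyI hy0 ⟨c, c.2, hc⟩

theorem Dw_const {a b u v : K} (h : Quad a b u v) {P : Subalgebra ℂ K}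
    (hP : IsLocAt (R a b u v) u⁻¹ P) (hD : IsDiscreteValuationRing P) {g : K} (hg : g ≠ 0)
    (hc : g ∈ IntermediateField.adjoin ℂ {a, b}) : HasOrder P g 0 := by
  obtain ⟨x, hx, y, hy, hxy⟩ := (IntermediateField.mem_adjoin_iff_div).1 hc
  have hy0 : y ≠ 0 := by
    rintro rfl
    apply hg
    rw [hxy, div_zero]
  have hx0 : x ≠ 0 := by
    rintro rfl
    apply hg
    rw [hxy, zero_div]
  have h1 : g ∈ P := by
    rw [hxy]
    exact Dw_const_mem h hP hx hy hy0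
  have h2 : g⁻¹ ∈ P := by
    rw [hxy, inv_div]
    exact Dw_const_mem h hP hy hx hx0
  obtain ⟨t, ht⟩ := IsDiscreteValuationRing.exists_irreducible P
  refine ⟨t, ⟨g, h1⟩, ht, ?_, ?_⟩
  · have hmul : (⟨g, h1⟩ : P) * ⟨g⁻¹, h2⟩ = 1 := by
      apply Subtype.ext
      exact mul_inv_cancel₀ hg
    exact IsUnit.of_mul_eq_one _ hmul
  · rw [zpow_zero, mul_one]

end ComplexityOne
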