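import Mathlib
import Pool.Agent.Helper271.CY.Defs

universe u

namespace ComplexityOne

variable {K : Type u} [Field K] [Algebra ℂ K]

theorem Quad.swap_vec (a u v : K) : (![a, v, u] : Fin 3 → K) = ![a, u, v] ∘ Equiv.swap (1 : Fin 3) 2 := by
  funext i
  fin_cases i
  · rfl
  · show v = ![a, u, v] (Equiv.swap (1 : Fin 3) 2 1)
    rw [Equiv.swap_apply_left]
    rfl
  · show u = ![a, u, v] (Equiv.swap (1 : Fin 3) 2 2)
    rw [Equiv.swap_apply_right]
    rfl

theorem Quad.swap {a b u v : K} (h : Quad a b u v) : Quad a b v u := by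
  refine ⟨h.cubic, ?_, ?_⟩
  · rw [Quad.swap_vec]
    exact h.indep.comp _ (Equiv.swap (1 : Fin 3) 2).injective
  · have h1 : ({a, b, v, u} : Set K) = {a, b, u, v} := by
      ext x
      simp only [Set.mem_insert_iff, Set.mem_singleton_iff]
      tauto
    rw [h1]
    exact h.top

theorem V_swap (a b u v : K) : V a b v u = V a b u v := by
  unfold V
  congr 1
  ext x
  simp only [Set.mem_insert_iff, Set.mem_singleton_iff]
  tauto

theorem S_swap (a b u v : K) : S a b v u = S a b u v := by
  unfold S
  congr 1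
  ext x
  simp only [Set.mem_insert_iff, Set.mem_singleton_iff]
  tauto

theorem omega_swap (a b u v : K) : omega a b v u = - omega a b u v := by
  unfold omega formOf
  have h1 : (fun i => KaehlerDifferential.D ℂ K ((![a, v, u] : Fin 3 → K) i)) =
      (fun i => KaehlerDifferential.D ℂ K ((![a, u, v] : Fin 3 → K) i)) ∘ Equiv.swap (1 : Fin 3) 2 := by
    rw [Quad.swap_vec]
    rfl
  rw [h1, AlternatingMap.map_swap _ _ (by decide : (1 : Fin 3) ≠ 2), smul_neg]
  congr 3
  ring

end ComplexityOne
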