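import Mathlib
import Pool.Agent.Helper271.CY.Defs
import Pool.Agent.Helper271.CY.J_swap
import Pool.Agent.Helper271.CY.J_Rquad
import Pool.Agent.Helper271.CY.J_Tprime

universe u

namespace ComplexityOne

variable {K : Type u} [Field K] [Algebra ℂ K]

theorem Dw_ne {a b u v : K} (h : Quad a b u v) : u ≠ 0 ∧ v ≠ 0 := by
  have h1 := h.indep.ne_zero 1
  have h2 := h.indep.ne_zero 2
  simp at h1 h2
  exact ⟨h1, h2⟩

/-- clearing denominators -/
theorem Dw_clear {a b u v : K} (hu : u ≠ 0) (hv : v ≠ 0) (r : K) (hr : r ∈ R a b u v) :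
    ∃ n : ℕ, ∀ m : ℕ, n ≤ m → (u / v) ^ m * r ∈ R a b v u := by
  have hσ : u / v ∈ R a b v u := Algebra.subset_adjoin (by simp)
  have ha : a ∈ R a b v u := Algebra.subset_adjoin (by simp)
  have hb : b ∈ R a b v u := Algebra.subset_adjoin (by simp)
  have hv' : v⁻¹ ∈ R a b v u := Algebra.subset_adjoin (by simp)
  unfold R at hr
  induction hr using Algebra.adjoin_induction with
  | mem x hx =>
    refine ⟨1, ?_⟩
    intro m hm
    obtain ⟨k, rfl⟩ := Nat.exists_eq_add_of_le hm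
    simp only [Set.mem_insert_iff, Set.mem_singleton_iff] at hx
    rcases hx with rfl | rfl | rfl | rfl
    · exact mul_mem (pow_mem hσ _) ha
    · exact mul_mem (pow_mem hσ _) hb
    · have : (u / v) ^ (1 + k) * (v / u) = (u / v) ^ k := by
        rw [pow_add, pow_one]
        field_simp
      rw [this]
      exact pow_mem hσ _
    · have : (u / v) ^ (1 + k) * u⁻¹ = (u / v) ^ k * v⁻¹ := by
        rw [pow_add, pow_one]
        field_simp
      rw [this]
      exact mul_mem (pow_mem hσ _) hv'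
  | algebraMap c =>
    exact ⟨0, fun m _ => mul_mem (pow_mem hσ _) (Subalgebra.algebraMap_mem _ c)⟩
  | add x y _ _ hx hy =>
    obtain ⟨n1, h1⟩ := hx
    obtain ⟨n2, h2⟩ := hy
    refine ⟨max n1 n2, fun m hm => ?_⟩
    rw [mul_add]
    exact add_mem (h1 m (le_trans (le_max_left _ _) hm)) (h2 m (le_trans (le_max_right _ _) hm))
  | mul x y _ _ hx hy =>
    obtain ⟨n1, h1⟩ := hx
    obtain ⟨n2, h2⟩ := hy
    refine ⟨n1 + n2, fun m hm => ?_⟩
    obtain ⟨k, rfl⟩ := Nat.exists_eq_add_of_le hm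
    have : (u / v) ^ (n1 + n2 + k) * (x * y)
        = (u / v) ^ k * (((u / v) ^ n1 * x) * ((u / v) ^ n2 * y)) := by
      rw [pow_add, pow_add]; ring
    rw [this]
    exact mul_mem (pow_mem hσ _) (mul_mem (h1 n1 le_rfl) (h2 n2 le_rfl))

theorem Dw_half {a b u v : K} (h : Quad a b u v) (x : K)
    (hx : ∃ r s : R a b u v, (¬ ∃ c : R a b u v, (s : K) = u⁻¹ * c) ∧ x = (r : K) / (s : K)) :
    ∃ r s : R a b v u, (¬ ∃ c : R a b v u, (s : K) = v⁻¹ * c) ∧ x = (r : K) / (s : K) := by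
  obtain ⟨hu, hv⟩ := Dw_ne h
  obtain ⟨⟨r, hr⟩, ⟨s, hs⟩, hns, hxe⟩ := hx
  simp only at hns hxe
  obtain ⟨n1, h1⟩ := Dw_clear hu hv r hr
  obtain ⟨n2, h2⟩ := Dw_clear hu hv s hs
  set N := max n1 n2 with hN
  refine ⟨⟨(u / v) ^ N * r, h1 N (le_max_left _ _)⟩, ⟨(u / v) ^ N * s, h2 N (le_max_right _ _)⟩,
    ?_, ?_⟩
  · rintro ⟨⟨c, hc⟩, hce⟩
    simp only at hce
    obtain ⟨M, hM⟩ := Dw_clear hv hu c hc
    have hM' := hM M le_rfl
    obtain ⟨-, hp, -, hnot, -⟩ := T_prime h.chart (R a b u v) rfl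
    have hτ : v / u ∈ R a b u v := Algebra.subset_adjoin (by simp)
    have key : ∀ k : ℕ, (∃ c ∈ R a b u v, (v / u) ^ k * s = u⁻¹ * c) → ∃ c ∈ R a b u v, s = u⁻¹ * c := by
      intro k
      induction k with
      | zero => intro hk; simpa using hk
      | succ k ih =>
        intro hk
        obtain ⟨c', hc', hk⟩ := hk
        have := hp (v / u) hτ ((v / u) ^ k * s) (mul_mem (pow_mem hτ _) hs)
          ⟨c', hc', by rw [← hk, pow_succ]; ring⟩
        rcases this with h3 | h3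
        · exact absurd h3 hnot
        · exact ih h3
    have h4 : (v / u) ^ (M + 1) * s = u⁻¹ * ((v / u) ^ N * ((v / u) ^ M * c)) := by
      have h5 : s = (v / u) ^ N * (v⁻¹ * c) := by
        rw [← hce, ← mul_assoc, ← mul_pow]
        have : v / u * (u / v) = 1 := by field_simp
        rw [this, one_pow, one_mul]
      rw [h5, pow_succ]
      have : v / u * v⁻¹ = u⁻¹ := by field_simp
      calc (v / u) ^ M * (v / u) * ((v / u) ^ N * (v⁻¹ * c))
          = (v / u * v⁻¹) * ((v / u) ^ N * ((v / u) ^ M * c)) := by ring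
        _ = _ := by rw [this]
    obtain ⟨c', hc', h6⟩ := key (M + 1) ⟨_, mul_mem (pow_mem hτ _) hM', h4⟩
    exact hns ⟨⟨c', hc'⟩, h6⟩
  · simp only
    rw [hxe, mul_div_mul_left]
    exact pow_ne_zero _ (div_ne_zero hu hv)

theorem Dw_swap {a b u v : K} (h : Quad a b u v) (P : Subalgebra ℂ K) :
    IsLocAt (R a b v u) v⁻¹ P ↔ IsLocAt (R a b u v) u⁻¹ P := by
  have e : ∀ x : K, (∃ r s : R a b v u, (¬ ∃ c : R a b v u, (s : K) = v⁻¹ * c) ∧
      x = (r : K) / (s : K)) ↔ (∃ r s : R a b u v, (¬ ∃ c : R a b u v, (s : K) = u⁻¹ * c) ∧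
      x = (r : K) / (s : K)) := fun x => ⟨Dw_half h.swap x, Dw_half h x⟩
  unfold IsLocAt
  constructor
  · intro hP x
    rw [hP x]
    exact e x
  · intro hP x
    rw [hP x]
    exact (e x).symm

end ComplexityOne
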