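import Mathlib
import Pool.Agent.Helper271.CY.Defs

universe u

namespace ComplexityOne

variable {K : Type u} [Field K] [Algebra ℂ K]

open Polynomial in
theorem inter_coeff_A {x y : K} (hxy : x ^ 3 + y ^ 3 = 1) (c : K)
    (hc : c ∈ Algebra.adjoin ℂ {x, y}) :
    ∃ p0 p1 p2 : ℂ[X], c = aeval x p0 + aeval x p1 * y + aeval x p2 * y ^ 2 := by
  have hy : y ^ 3 = 1 - x ^ 3 := by rw [← hxy]; ring
  induction hc using Algebra.adjoin_induction with
  | mem z hz =>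
    rcases hz with rfl | hz
    · exact ⟨X, 0, 0, by simp⟩
    · rw [Set.mem_singleton_iff] at hz
      subst hz
      exact ⟨0, 1, 0, by simp⟩
  | algebraMap r => exact ⟨C r, 0, 0, by simp⟩
  | add u v _ _ hu hv =>
    obtain ⟨p0, p1, p2, rfl⟩ := hu
    obtain ⟨q0, q1, q2, rfl⟩ := hv
    exact ⟨p0 + q0, p1 + q1, p2 + q2, by simp only [map_add]; ring⟩
  | mul u v _ _ hu hv =>
    obtain ⟨p0, p1, p2, rfl⟩ := hu
    obtain ⟨q0, q1, q2, rfl⟩ := hv
    refine ⟨p0 * q0 + (p1 * q2 + p2 * q1) * (1 - X ^ 3),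
      p0 * q1 + p1 * q0 + p2 * q2 * (1 - X ^ 3), p0 * q2 + p1 * q1 + p2 * q0, ?_⟩
    simp only [map_add, map_mul, map_sub, map_one, map_pow, aeval_X]
    rw [← hy]
    ring

open Polynomial in
theorem inter_coeff_B (d : ℕ) : ∀ r0 r1 r2 : ℂ[X], r0.natDegree ≤ d → r1.natDegree ≤ d →
    r2.natDegree ≤ d →
    r0 ^ 3 + r1 ^ 3 * (1 - X ^ 3) + r2 ^ 3 * (1 - X ^ 3) ^ 2 = 3 * r0 * r1 * r2 * (1 - X ^ 3) →
    r0 = 0 ∧ r1 = 0 ∧ r2 = 0 := by
  have hfac : (1 - X ^ 3 : ℂ[X]) = (X - C 1) * (-(X ^ 2 + X + 1)) := by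
    rw [C_1]; ring
  have hp : Prime (X - C 1 : ℂ[X]) := prime_X_sub_C 1
  have ht : ¬ (X - C 1 : ℂ[X]) ∣ -(X ^ 2 + X + 1) := by
    rw [dvd_neg, dvd_iff_isRoot]
    simp [IsRoot]
    norm_num
  have key : ∀ r0 r1 r2 : ℂ[X],
      r0 ^ 3 + r1 ^ 3 * (1 - X ^ 3) + r2 ^ 3 * (1 - X ^ 3) ^ 2 = 3 * r0 * r1 * r2 * (1 - X ^ 3) →
      ∃ s0 s1 s2, r0 = (X - C 1) * s0 ∧ r1 = (X - C 1) * s1 ∧ r2 = (X - C 1) * s2 ∧
      s0 ^ 3 + s1 ^ 3 * (1 - X ^ 3) + s2 ^ 3 * (1 - X ^ 3) ^ 2 = 3 * s0 * s1 * s2 * (1 - X ^ 3) := by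
    intro r0 r1 r2 h
    have hne : (X - C 1 : ℂ[X]) ≠ 0 := hp.ne_zero
    obtain ⟨t, htd⟩ : ∃ t : ℂ[X], t = -(X ^ 2 + X + 1) := ⟨_, rfl⟩
    rw [← htd] at ht hfac
    obtain ⟨P, hP⟩ : ∃ P : ℂ[X], P = X - C 1 := ⟨_, rfl⟩
    rw [← hP] at hp ht hfac hne
    rw [hfac] at h
    have d0 : P ∣ r0 := by
      apply hp.dvd_of_dvd_pow (n := 3)
      refine ⟨3 * r0 * r1 * r2 * t - r1 ^ 3 * t - r2 ^ 3 * P * t ^ 2, ?_⟩
      linear_combination h
    obtain ⟨s0, rfl⟩ := d0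
    have h2 : P * (P ^ 2 * s0 ^ 3 + r1 ^ 3 * t + r2 ^ 3 * P * t ^ 2 - 3 * P * s0 * r1 * r2 * t) = 0 := by
      linear_combination h
    have h3 := (mul_eq_zero.mp h2).resolve_left hne
    have d1 : P ∣ r1 := by
      have : P ∣ r1 ^ 3 * t := by
        refine ⟨3 * s0 * r1 * r2 * t - P * s0 ^ 3 - r2 ^ 3 * t ^ 2, ?_⟩
        linear_combination h3
      rcases hp.dvd_or_dvd this with h' | h'
      · exact hp.dvd_of_dvd_pow h'
      · exact absurd h' ht
    obtain ⟨s1, rfl⟩ := d1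
    have h4 : P * (P * s0 ^ 3 + P ^ 2 * s1 ^ 3 * t + r2 ^ 3 * t ^ 2 - 3 * P * s0 * s1 * r2 * t) = 0 := by
      linear_combination h3
    have h5 := (mul_eq_zero.mp h4).resolve_left hne
    have d2 : P ∣ r2 := by
      have : P ∣ r2 ^ 3 * t ^ 2 := by
        refine ⟨3 * s0 * s1 * r2 * t - s0 ^ 3 - P * s1 ^ 3 * t, ?_⟩
        linear_combination h5
      rcases hp.dvd_or_dvd this with h' | h'
      · exact hp.dvd_of_dvd_pow h'
      · exact absurd (hp.dvd_of_dvd_pow h') ht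
    obtain ⟨s2, rfl⟩ := d2
    refine ⟨s0, s1, s2, by rw [hP], by rw [hP], by rw [hP], ?_⟩
    have h6 : P * (s0 ^ 3 + s1 ^ 3 * (P * t) + s2 ^ 3 * (P * t) ^ 2 - 3 * s0 * s1 * s2 * (P * t)) = 0 := by
      linear_combination h5
    have h7 := (mul_eq_zero.mp h6).resolve_left hne
    rw [hfac]
    linear_combination h7
  have hdeg : ∀ s : ℂ[X], s ≠ 0 → ((X - C 1) * s).natDegree = s.natDegree + 1 := by
    intro s hs
    rw [natDegree_mul hp.ne_zero hs, natDegree_X_sub_C, add_comm]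
  induction d with
  | zero =>
    intro r0 r1 r2 h0 h1 h2 h
    obtain ⟨s0, s1, s2, rfl, rfl, rfl, _⟩ := key r0 r1 r2 h
    refine ⟨?_, ?_, ?_⟩
    · by_cases hs : s0 = 0
      · rw [hs, mul_zero]
      · rw [hdeg s0 hs] at h0; omega
    · by_cases hs : s1 = 0
      · rw [hs, mul_zero]
      · rw [hdeg s1 hs] at h1; omega
    · by_cases hs : s2 = 0
      · rw [hs, mul_zero]
      · rw [hdeg s2 hs] at h2; omega
  | succ d ih =>
    intro r0 r1 r2 h0 h1 h2 h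
    obtain ⟨s0, s1, s2, rfl, rfl, rfl, hs⟩ := key r0 r1 r2 h
    have hd : ∀ s : ℂ[X], ((X - C 1) * s).natDegree ≤ d + 1 → s.natDegree ≤ d := by
      intro s hs
      by_cases h' : s = 0
      · rw [h']; simp
      · rw [hdeg s h'] at hs; omega
    obtain ⟨e0, e1, e2⟩ := ih s0 s1 s2 (hd _ h0) (hd _ h1) (hd _ h2) hs
    exact ⟨by rw [e0, mul_zero], by rw [e1, mul_zero], by rw [e2, mul_zero]⟩

open Polynomial in
theorem inter_coeff_I {a b : K} (hc : a ^ 3 + b ^ 3 = 1) (ht : Transcendental ℂ a)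
    (r0 r1 r2 : ℂ[X]) (h : aeval a r0 + aeval a r1 * b + aeval a r2 * b ^ 2 = 0) :
    r0 = 0 ∧ r1 = 0 ∧ r2 = 0 := by
  have hb : b ^ 3 = 1 - a ^ 3 := by rw [← hc]; ring
  apply inter_coeff_B (max r0.natDegree (max r1.natDegree r2.natDegree)) r0 r1 r2
    (by simp) (by simp) (by simp)
  have hinj := transcendental_iff_injective.mp ht
  apply hinj
  simp only [map_add, map_mul, map_pow, map_sub, map_one, aeval_X]
  have h3 : aeval a (3 : ℂ[X]) = (3 : K) := map_ofNat (aeval a) 3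
  rw [h3, ← hb]
  have e : (aeval a r0) ^ 3 + (aeval a r1) ^ 3 * b ^ 3 + (aeval a r2) ^ 3 * (b ^ 3) ^ 2 -
      3 * aeval a r0 * aeval a r1 * aeval a r2 * b ^ 3 =
      (aeval a r0 + aeval a r1 * b + aeval a r2 * b ^ 2) *
      ((aeval a r0) ^ 2 + (aeval a r1 * b) ^ 2 + (aeval a r2 * b ^ 2) ^ 2 -
        aeval a r0 * (aeval a r1 * b) - (aeval a r1 * b) * (aeval a r2 * b ^ 2) -
        aeval a r0 * (aeval a r2 * b ^ 2)) := by ring
  rw [h, zero_mul] at e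
  exact sub_eq_zero.mp e

open Polynomial in
theorem inter_coeff_C {a : K} (ha : a ≠ 0) (q : ℂ[X]) (N : ℕ) (hN : q.natDegree ≤ N) :
    ∃ q' : ℂ[X], q'.natDegree ≤ N ∧ a ^ N * aeval a⁻¹ q = aeval a q' := by
  refine ⟨∑ i ∈ Finset.range (N + 1), C (q.coeff i) * X ^ (N - i), ?_, ?_⟩
  · apply natDegree_sum_le_of_forall_le
    intro i _
    exact (natDegree_C_mul_X_pow_le _ _).trans (by omega)
  · rw [aeval_eq_sum_range' (Nat.lt_succ_of_le hN), Finset.mul_sum, map_sum]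
    apply Finset.sum_congr rfl
    intro i hi
    have hi' : i ≤ N := by
      have := Finset.mem_range.mp hi; omega
    rw [map_mul, map_pow, aeval_X, aeval_C, Algebra.smul_def]
    have : a ^ N = a ^ (N - i) * a ^ i := by rw [← pow_add]; congr 1; omega
    rw [this, inv_pow]
    field_simp

open Polynomial in
theorem inter_coeff_D {a b : K} (m l : ℕ) (p : ℂ[X]) (hp : p ≠ 0 → p.natDegree + l ≤ m) :
    aeval a p * b ^ l ∈ Submodule.span ℂ {x : K | ∃ k l : ℕ, k + l ≤ m ∧ x = a ^ k * b ^ l} := by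
  by_cases h0 : p = 0
  · rw [h0]; simp
  · have h1 := hp h0
    rw [aeval_eq_sum_range, Finset.sum_mul]
    apply Submodule.sum_mem
    intro i hi
    have hi' : i ≤ p.natDegree := by
      have := Finset.mem_range.mp hi; omega
    rw [smul_mul_assoc]
    apply Submodule.smul_mem
    apply Submodule.subset_span
    exact ⟨i, l, by omega, rfl⟩

theorem inter_coeff {a b : K} (hc : a ^ 3 + b ^ 3 = 1) (ht : Transcendental ℂ a) (m : ℕ) (c : K)
    (h1 : c ∈ Algebra.adjoin ℂ {a, b}) (h2 : c / a ^ m ∈ Algebra.adjoin ℂ {a⁻¹, -b / a}) :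
    c ∈ Submodule.span ℂ {x : K | ∃ k l : ℕ, k + l ≤ m ∧ x = a ^ k * b ^ l} := by
  have ha : a ≠ 0 := by
    rintro rfl
    exact ht (isAlgebraic_zero)
  have hb : b ^ 3 = 1 - a ^ 3 := by rw [← hc]; ring
  obtain ⟨p0, p1, p2, hp⟩ := inter_coeff_A hc c h1
  have hc' : (a⁻¹) ^ 3 + (-b / a) ^ 3 = 1 := by
    have : (-b / a) ^ 3 = - b ^ 3 / a ^ 3 := by ring
    rw [this, hb, inv_pow]
    field_simp
    ring
  obtain ⟨q0, q1, q2, hq⟩ := inter_coeff_A hc' _ h2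
  obtain ⟨D, hD0, hD1, hD2⟩ : ∃ D : ℕ, q0.natDegree ≤ D ∧ q1.natDegree ≤ D ∧ q2.natDegree ≤ D :=
    ⟨max q0.natDegree (max q1.natDegree q2.natDegree), by simp, by simp, by simp⟩
  obtain ⟨s0, hs0, e0⟩ := inter_coeff_C ha q0 D hD0
  obtain ⟨s1, hs1, e1⟩ := inter_coeff_C ha q1 D hD1
  obtain ⟨s2, hs2, e2⟩ := inter_coeff_C ha q2 D hD2
  have hceq : a ^ (D + 2) * c = a ^ (m + 2) * Polynomial.aeval a s0 -
      a ^ (m + 1) * Polynomial.aeval a s1 * b + a ^ m * Polynomial.aeval a s2 * b ^ 2 := by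
    rw [← e0, ← e1, ← e2]
    have : c = a ^ m * (c / a ^ m) := by field_simp
    rw [this, hq]
    field_simp
    ring
  have hrel : Polynomial.aeval a (Polynomial.X ^ (D + 2) * p0 - Polynomial.X ^ (m + 2) * s0) +
      Polynomial.aeval a (Polynomial.X ^ (D + 2) * p1 + Polynomial.X ^ (m + 1) * s1) * b +
      Polynomial.aeval a (Polynomial.X ^ (D + 2) * p2 - Polynomial.X ^ m * s2) * b ^ 2 = 0 := by
    simp only [map_add, map_sub, map_mul, map_pow, Polynomial.aeval_X]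
    rw [hp] at hceq
    linear_combination hceq
  obtain ⟨f0, f1, f2⟩ := inter_coeff_I hc ht _ _ _ hrel
  have g0 : Polynomial.X ^ (D + 2) * p0 = Polynomial.X ^ (m + 2) * s0 := sub_eq_zero.mp f0
  have g1 : Polynomial.X ^ (D + 2) * p1 = Polynomial.X ^ (m + 1) * (-s1) := by
    linear_combination f1
  have g2 : Polynomial.X ^ (D + 2) * p2 = Polynomial.X ^ m * s2 := sub_eq_zero.mp f2
  have deg : ∀ (p s : Polynomial ℂ) (N : ℕ), Polynomial.X ^ (D + 2) * p = Polynomial.X ^ N * s →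
      s.natDegree ≤ D → p ≠ 0 → p.natDegree + 2 ≤ N := by
    intro p s N h hs hp
    have hs0 : s ≠ 0 := by
      rintro rfl
      rw [mul_zero] at h
      exact (mul_ne_zero (pow_ne_zero _ Polynomial.X_ne_zero) hp) h
    have := congrArg Polynomial.natDegree h
    rw [Polynomial.natDegree_mul (pow_ne_zero _ Polynomial.X_ne_zero) hp,
      Polynomial.natDegree_mul (pow_ne_zero _ Polynomial.X_ne_zero) hs0,
      Polynomial.natDegree_X_pow, Polynomial.natDegree_X_pow] at this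
    omega
  rw [hp]
  apply Submodule.add_mem
  · apply Submodule.add_mem
    · have := inter_coeff_D (a := a) (b := b) m 0 p0 (fun h => by
        have := deg p0 s0 (m + 2) g0 hs0 h
        omega)
      simpa using this
    · have := inter_coeff_D (a := a) (b := b) m 1 p1 (fun h => by
        have := deg p1 (-s1) (m + 1) g1 (by rw [Polynomial.natDegree_neg]; exact hs1) h
        omega)
      simpa using this
  · exact inter_coeff_D (a := a) (b := b) m 2 p2 (fun h => deg p2 s2 m g2 hs2 h)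

end ComplexityOne
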