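import Mathlib
import Pool.Agent.Helper271.CY.Defs
import Pool.Agent.Helper271.CY.J_flip
import Pool.Agent.Helper271.CY.J_coords
import Pool.Agent.Helper271.CY.J_intercoeff

universe u

namespace ComplexityOne

variable {K : Type u} [Field K] [Algebra ℂ K]

theorem S_le_adjoin (a b u v : K) : S a b u v ≤ Algebra.adjoin ℂ {a, b, u, v} := by
  unfold S
  rw [Algebra.adjoin_le_iff]
  have ha : a ∈ Algebra.adjoin ℂ ({a, b, u, v} : Set K) := Algebra.subset_adjoin (by simp)
  have hb : b ∈ Algebra.adjoin ℂ ({a, b, u, v} : Set K) := Algebra.subset_adjoin (by simp)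
  have hu : u ∈ Algebra.adjoin ℂ ({a, b, u, v} : Set K) := Algebra.subset_adjoin (by simp)
  have hv : v ∈ Algebra.adjoin ℂ ({a, b, u, v} : Set K) := Algebra.subset_adjoin (by simp)
  rintro x (h | h | h | h | h | h)
  · rw [h]; exact hu
  · rw [h]; exact mul_mem ha hu
  · rw [h]; exact mul_mem hb hu
  · rw [h]; exact hv
  · rw [h]; exact mul_mem ha hv
  · rw [Set.mem_singleton_iff.1 h]; exact mul_mem hb hv

theorem mono_mem (a b u v : K) : ∀ (n k l i j : ℕ), i + j = n → k + l ≤ n →
    a ^ k * b ^ l * (u ^ i * v ^ j) ∈ S a b u v := by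
  have g1 : u ∈ S a b u v := Algebra.subset_adjoin (by simp)
  have g2 : a * u ∈ S a b u v := Algebra.subset_adjoin (by simp)
  have g3 : b * u ∈ S a b u v := Algebra.subset_adjoin (by simp)
  have g4 : v ∈ S a b u v := Algebra.subset_adjoin (by simp)
  have g5 : a * v ∈ S a b u v := Algebra.subset_adjoin (by simp)
  have g6 : b * v ∈ S a b u v := Algebra.subset_adjoin (by simp)
  intro n
  induction n with
  | zero =>
    intro k l i j h1 h2
    have hi : i = 0 := by omega
    have hj : j = 0 := by omega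
    have hk : k = 0 := by omega
    have hl : l = 0 := by omega
    subst hi hj hk hl
    simpa using one_mem (S a b u v)
  | succ n ih =>
    intro k l i j h1 h2
    rcases Nat.eq_zero_or_pos i with hi | hi
    · obtain ⟨j', rfl⟩ : ∃ j', j = j' + 1 := ⟨j - 1, by omega⟩
      rcases Nat.eq_zero_or_pos k with hk | hk
      · rcases Nat.eq_zero_or_pos l with hl | hl
        · have := mul_mem (ih k l i j' (by omega) (by omega)) g4
          convert this using 1
          ring
        · obtain ⟨l', rfl⟩ : ∃ l', l = l' + 1 := ⟨l - 1, by omega⟩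
          have := mul_mem (ih k l' i j' (by omega) (by omega)) g6
          convert this using 1
          ring
      · obtain ⟨k', rfl⟩ : ∃ k', k = k' + 1 := ⟨k - 1, by omega⟩
        have := mul_mem (ih k' l i j' (by omega) (by omega)) g5
        convert this using 1
        ring
    · obtain ⟨i', rfl⟩ : ∃ i', i = i' + 1 := ⟨i - 1, by omega⟩
      rcases Nat.eq_zero_or_pos k with hk | hk
      · rcases Nat.eq_zero_or_pos l with hl | hl
        · have := mul_mem (ih k l i' j (by omega) (by omega)) g1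
          convert this using 1
          ring
        · obtain ⟨l', rfl⟩ : ∃ l', l = l' + 1 := ⟨l - 1, by omega⟩
          have := mul_mem (ih k l' i' j (by omega) (by omega)) g3
          convert this using 1
          ring
      · obtain ⟨k', rfl⟩ : ∃ k', k = k' + 1 := ⟨k - 1, by omega⟩
        have := mul_mem (ih k' l i' j (by omega) (by omega)) g2
        convert this using 1
        ring

theorem span_mem (a b u v : K) (i j : ℕ) (c : K)
    (hc : c ∈ Submodule.span ℂ {x : K | ∃ k l : ℕ, k + l ≤ i + j ∧ x = a ^ k * b ^ l}) :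
    c * (u ^ i * v ^ j) ∈ S a b u v := by
  induction hc using Submodule.span_induction with
  | mem x hx =>
    obtain ⟨k, l, h1, rfl⟩ := hx
    exact mono_mem a b u v (i + j) k l i j rfl h1
  | zero => rw [zero_mul]; exact zero_mem _
  | add x y _ _ hx hy => rw [add_mul]; exact add_mem hx hy
  | smul r x _ hx => rw [smul_mul_assoc]; exact Subalgebra.smul_mem _ hx r

/-- inclusion of a subalgebra in an intermediate field -/
def incl (A : Subalgebra ℂ K) (F : IntermediateField ℂ K) (h : ∀ x ∈ A, x ∈ F) : A →+* F where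
  toFun c := ⟨c.1, h c.1 c.2⟩
  map_one' := rfl
  map_mul' _ _ := rfl
  map_zero' := rfl
  map_add' _ _ := rfl

theorem aeval_sum (A : Subalgebra ℂ K) (p : MvPolynomial (Fin 2) A) (u v : K) :
    MvPolynomial.aeval ![u, v] p =
      ∑ d ∈ p.support, ((p.coeff d : A) : K) * (u ^ d 0 * v ^ d 1) := by
  rw [MvPolynomial.aeval_def, MvPolynomial.eval₂_eq']
  refine Finset.sum_congr rfl fun d _ => ?_
  rw [Fin.prod_univ_two]
  rfl

theorem coeff_eq {a b u v : K} (h : Quad a b u v)
    (p : MvPolynomial (Fin 2) (Algebra.adjoin ℂ {a, b} : Subalgebra ℂ K))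
    (p' : MvPolynomial (Fin 2) (Algebra.adjoin ℂ {a⁻¹, -b / a} : Subalgebra ℂ K))
    (hpp : MvPolynomial.aeval ![u, v] p = MvPolynomial.aeval ![a * u, a * v] p')
    (e : Fin 2 →₀ ℕ) : ((p.coeff e : (Algebra.adjoin ℂ {a, b} : Subalgebra ℂ K)) : K) =
      ((p'.coeff e : (Algebra.adjoin ℂ {a⁻¹, -b / a} : Subalgebra ℂ K)) : K) *
        a ^ (e 0 + e 1) := by
  classical
  set F := IntermediateField.adjoin ℂ ({a, b} : Set K) with hF
  have haF : a ∈ F := IntermediateField.subset_adjoin _ _ (by simp)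
  have hbF : b ∈ F := IntermediateField.subset_adjoin _ _ (by simp)
  have hAF : ∀ x ∈ (Algebra.adjoin ℂ {a, b} : Subalgebra ℂ K), x ∈ F := by
    intro x hx
    have : (Algebra.adjoin ℂ {a, b} : Subalgebra ℂ K) ≤ F.toSubalgebra := by
      rw [Algebra.adjoin_le_iff]
      rintro y (hy | hy)
      · rw [hy]; exact haF
      · rw [Set.mem_singleton_iff.1 hy]; exact hbF
    exact this hx
  have hAF' : ∀ x ∈ (Algebra.adjoin ℂ {a⁻¹, -b / a} : Subalgebra ℂ K), x ∈ F := by
    intro x hx
    have : (Algebra.adjoin ℂ {a⁻¹, -b / a} : Subalgebra ℂ K) ≤ F.toSubalgebra := by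
      rw [Algebra.adjoin_le_iff]
      rintro y (hy | hy)
      · rw [hy]; exact (inv_mem haF : a⁻¹ ∈ F)
      · rw [Set.mem_singleton_iff.1 hy]; exact (div_mem (neg_mem hbF) haF : -b / a ∈ F)
    exact this hx
  have hinj := (coordsF h).1
  set φ := incl _ F hAF with hφ
  set φ' := incl _ F hAF' with hφ'
  set aF : F := ⟨a, haF⟩ with haFd
  set P : MvPolynomial (Fin 2) F := ∑ d ∈ p.support, MvPolynomial.monomial d (φ (p.coeff d))
    with hP
  set Q : MvPolynomial (Fin 2) F := ∑ d ∈ p'.support,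
    MvPolynomial.monomial d (φ' (p'.coeff d) * aF ^ (d 0 + d 1)) with hQ
  have hmon : ∀ (d : Fin 2 →₀ ℕ) (c : F), MvPolynomial.aeval ![u, v] (MvPolynomial.monomial d c) =
      (c : K) * (u ^ d 0 * v ^ d 1) := by
    intro d c
    rw [MvPolynomial.aeval_monomial, Finsupp.prod_fintype _ _ (fun i => pow_zero _),
      Fin.prod_univ_two]
    rfl
  have e1 : MvPolynomial.aeval ![u, v] P = MvPolynomial.aeval ![u, v] p := by
    rw [aeval_sum _ p, hP, map_sum]
    refine Finset.sum_congr rfl fun d _ => ?_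
    rw [hmon]
    rfl
  have e2 : MvPolynomial.aeval ![u, v] Q = MvPolynomial.aeval ![a * u, a * v] p' := by
    rw [aeval_sum _ p', hQ, map_sum]
    refine Finset.sum_congr rfl fun d _ => ?_
    rw [hmon]
    have : ((φ' (p'.coeff d) * aF ^ (d 0 + d 1) : F) : K) =
        ((p'.coeff d : (Algebra.adjoin ℂ {a⁻¹, -b / a} : Subalgebra ℂ K)) : K) *
          a ^ (d 0 + d 1) := rfl
    rw [this, mul_pow, mul_pow, pow_add]
    ring
  have hPQ : P = Q := hinj (by rw [e1, e2, hpp])
  have c1 : MvPolynomial.coeff e P = φ (p.coeff e) := by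
    rw [hP, MvPolynomial.coeff_sum]
    simp only [MvPolynomial.coeff_monomial]
    rw [Finset.sum_ite_eq']
    split_ifs with hs
    · rfl
    · rw [MvPolynomial.notMem_support_iff.1 hs, map_zero]
  have c2 : MvPolynomial.coeff e Q = φ' (p'.coeff e) * aF ^ (e 0 + e 1) := by
    rw [hQ, MvPolynomial.coeff_sum]
    simp only [MvPolynomial.coeff_monomial]
    rw [Finset.sum_ite_eq']
    split_ifs with hs
    · rfl
    · rw [MvPolynomial.notMem_support_iff.1 hs, map_zero, zero_mul]
  have c3 : φ (p.coeff e) = φ' (p'.coeff e) * aF ^ (e 0 + e 1) := by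
    rw [← c1, ← c2, hPQ]
  exact congrArg (fun z : F => (z : K)) c3

/-- `S = ℂ[a, b, u, v] ∩ ℂ[1/a, -b/a, a u, a v]`. -/
theorem S_inter {a b u v : K} (h : Quad a b u v) (x : K) :
    x ∈ S a b u v ↔ x ∈ Algebra.adjoin ℂ {a, b, u, v} ∧
      x ∈ Algebra.adjoin ℂ {a⁻¹, -b / a, a * u, a * v} := by
  have ha0 : a ≠ 0 := h.indep.ne_zero 0
  have hat : Transcendental ℂ a := h.indep.transcendental 0
  constructor
  · intro hx
    refine ⟨S_le_adjoin _ _ _ _ hx, ?_⟩
    rw [← S_flip ha0] at hx
    exact S_le_adjoin _ _ _ _ hx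
  · rintro ⟨h1, h2⟩
    obtain ⟨p, hp⟩ := ((coords h).2 x).1 h1
    obtain ⟨p', hp'⟩ := ((coords h.flip).2 x).1 h2
    have hco := coeff_eq h p p' (hp.trans hp'.symm)
    rw [← hp, aeval_sum]
    refine Subalgebra.sum_mem _ fun d _ => ?_
    apply span_mem
    refine inter_coeff h.cubic hat _ _ (p.coeff d).2 ?_
    rw [hco d, mul_div_assoc, div_self (pow_ne_zero _ ha0), mul_one]
    exact (p'.coeff d).2

end ComplexityOne
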