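import Mathlib
import Pool.Agent.Helper271.CY.Defs

universe u

namespace ComplexityOne

variable {K : Type u} [Field K] [Algebra ℂ K]

/-- a prime ideal whose local ring is a DVR has height one -/
theorem dvr_height {A P : Subalgebra ℂ K} (q : Ideal A) (hq : q.IsPrime)
    (hP : ∀ x : K, x ∈ P ↔ ∃ r s : A, s ∉ q ∧ x = (r : K) / (s : K))
    (hD : IsDiscreteValuationRing P) (q' : Ideal A) (hq' : q'.IsPrime) (hle : q' ≤ q) :
    q' = ⊥ ∨ q' = q := by
  classical
  by_cases h0 : q' = ⊥
  · exact Or.inl h0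
  right
  apply le_antisymm hle
  obtain ⟨y, hy, hy0⟩ := Submodule.exists_mem_ne_zero_of_ne_bot h0
  have h1q : (1 : A) ∉ q := fun h => hq.ne_top ((Ideal.eq_top_iff_one q).2 h)
  have hAP : ∀ a : A, (a : K) ∈ P := fun a => (hP a).2 ⟨a, 1, h1q, by simp⟩
  intro x hx
  by_cases hx0 : x = 0
  · rw [hx0]; exact q'.zero_mem
  -- x and y as elements of P
  let xP : P := ⟨x, hAP x⟩
  let yP : P := ⟨y, hAP y⟩
  have hyP0 : yP ≠ 0 := by
    intro h
    apply hy0
    have : (yP : K) = 0 := by rw [h]; rfl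
    exact Subtype.ext this
  have hxnu : ¬ IsUnit xP := by
    intro hu
    obtain ⟨z, hz⟩ := hu.exists_right_inv
    obtain ⟨r, s, hs, hrs⟩ := (hP z).1 z.2
    have hs0 : (s : K) ≠ 0 := by
      intro h
      apply hs
      have : s = 0 := Subtype.ext h
      rw [this]; exact q.zero_mem
    have h1 : (x : K) * (z : K) = 1 := by
      have := congrArg (fun t : P => (t : K)) hz
      simpa using this
    rw [hrs] at h1
    have h2 : (x : K) * (r : K) = (s : K) := by
      field_simp at h1
      exact h1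
    apply hs
    have h3 : x * r = s := Subtype.ext (by simpa using h2)
    rw [← h3]
    exact q.mul_mem_right r hx
  obtain ⟨ϖ, hϖ⟩ := IsDiscreteValuationRing.exists_irreducible P
  obtain ⟨m, hm⟩ := IsDiscreteValuationRing.associated_pow_irreducible hyP0 hϖ
  have hdx : ϖ ∣ xP := by
    have hmem : xP ∈ IsLocalRing.maximalIdeal P := (IsLocalRing.mem_maximalIdeal _).2 hxnu
    rw [hϖ.maximalIdeal_eq] at hmem
    exact Ideal.mem_span_singleton.1 hmem
  have hdvd : yP ∣ xP ^ m := hm.dvd.trans (pow_dvd_pow_of_dvd hdx m)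
  obtain ⟨z, hz⟩ := hdvd
  obtain ⟨r, s, hs, hrs⟩ := (hP z).1 z.2
  have hs0 : (s : K) ≠ 0 := by
    intro h
    apply hs
    have : s = 0 := Subtype.ext h
    rw [this]; exact q.zero_mem
  have h1 : (x : K) ^ m = (y : K) * (z : K) := by
    have := congrArg (fun t : P => (t : K)) hz
    simpa using this
  rw [hrs] at h1
  have h2 : (x : K) ^ m * (s : K) = (y : K) * (r : K) := by
    rw [h1]; field_simp
  have h3 : x ^ m * s = y * r := Subtype.ext (by simpa using h2)
  have h4 : x ^ m * s ∈ q' := by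
    rw [h3]; exact q'.mul_mem_right r hy
  rcases hq'.mem_or_mem h4 with h5 | h5
  · exact hq'.mem_of_pow_mem m h5
  · exact absurd (hle h5) hs

end ComplexityOne
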