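import Mathlib
import Pool.Agent.Helper271.CY.Defs

universe u

namespace ComplexityOne

variable {K : Type u} [Field K] [Algebra ℂ K]

theorem order_of_generator {A P : Subalgebra ℂ K} (q : Ideal A) (hq : q.IsPrime)
    (hP : ∀ x : K, x ∈ P ↔ ∃ r s : A, s ∉ q ∧ x = (r : K) / (s : K))
    (hD : IsDiscreteValuationRing P) (g : A) (hg : q = Ideal.span {g}) : HasOrder P g 1 := by
  have h1 : (1 : A) ∉ q := fun h => hq.ne_top ((Ideal.eq_top_iff_one q).2 h)
  have hAP : ∀ r : A, (r : K) ∈ P := fun r => (hP r).2 ⟨r, 1, h1, by simp⟩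
  obtain ⟨ϖ, hϖ⟩ := IsDiscreteValuationRing.exists_irreducible P
  have hne : ∀ s : A, s ∉ q → (s : K) ≠ 0 := by
    intro s hs h
    apply hs
    have h2 : s = 0 := Subtype.ext h
    rw [h2]
    exact q.zero_mem
  let G : P := ⟨g, hAP g⟩
  have hnd : ∀ x : P, ¬ IsUnit x → ∃ y : P, x = G * y := by
    intro x hx
    obtain ⟨r, s, hs, hxrs⟩ := (hP x).1 x.2
    have hs0 : (s : K) ≠ 0 := hne s hs
    by_cases hr : r ∈ q
    · rw [hg, Ideal.mem_span_singleton] at hr
      obtain ⟨c, hc⟩ := hr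
      refine ⟨⟨(c : K) / s, (hP _).2 ⟨c, s, hs, rfl⟩⟩, ?_⟩
      apply Subtype.ext
      show (x : K) = (g : K) * ((c : K) / s)
      rw [hxrs, hc]
      push_cast
      ring
    · exfalso
      apply hx
      have hr0 : (r : K) ≠ 0 := hne r hr
      have h3 : (s : K) / r ∈ P := (hP _).2 ⟨s, r, hr, rfl⟩
      refine IsUnit.of_mul_eq_one ⟨(s : K) / r, h3⟩ (Subtype.ext ?_)
      show (x : K) * ((s : K) / r) = 1
      rw [hxrs]
      field_simp
  have hGn : ¬ IsUnit G := by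
    intro hu
    obtain ⟨y, hy⟩ := hu.exists_right_inv
    obtain ⟨r, s, hs, hyrs⟩ := (hP y).1 y.2
    have hs0 : (s : K) ≠ 0 := hne s hs
    apply hs
    have h4 : (g : K) * ((r : K) / s) = 1 := by
      rw [← hyrs]
      exact congrArg Subtype.val hy
    have h5 : (s : K) = (g : K) * r := by
      field_simp at h4
      exact h4.symm
    rw [hg, Ideal.mem_span_singleton]
    exact ⟨r, Subtype.ext h5⟩
  obtain ⟨y, hy⟩ := hnd ϖ hϖ.not_isUnit
  have hyu : IsUnit y := by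
    rcases hϖ.isUnit_or_isUnit hy with h | h
    · exact absurd h hGn
    · exact h
  have hG : Irreducible G := by
    have h6 : Associated G ϖ := ⟨hyu.unit, by rw [hy]; rfl⟩
    exact h6.irreducible_iff.2 hϖ
  exact ⟨G, 1, hG, isUnit_one, by simp [G]⟩

theorem order_of_notMem {A P : Subalgebra ℂ K} (q : Ideal A) (hq : q.IsPrime)
    (hP : ∀ x : K, x ∈ P ↔ ∃ r s : A, s ∉ q ∧ x = (r : K) / (s : K))
    (hD : IsDiscreteValuationRing P) (g : A) (hg : g ∉ q) : HasOrder P g 0 := by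
  have h1 : (1 : A) ∉ q := fun h => hq.ne_top ((Ideal.eq_top_iff_one q).2 h)
  have hAP : ∀ r : A, (r : K) ∈ P := fun r => (hP r).2 ⟨r, 1, h1, by simp⟩
  obtain ⟨ϖ, hϖ⟩ := IsDiscreteValuationRing.exists_irreducible P
  have hg0 : (g : K) ≠ 0 := by
    intro h
    apply hg
    have h2 : g = 0 := Subtype.ext h
    rw [h2]
    exact q.zero_mem
  have h3 : (1 : K) / g ∈ P := (hP _).2 ⟨1, g, hg, by simp⟩
  refine ⟨ϖ, ⟨g, hAP g⟩, hϖ, ?_, by simp⟩
  refine IsUnit.of_mul_eq_one ⟨(1 : K) / g, h3⟩ (Subtype.ext ?_)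
  show (g : K) * ((1 : K) / g) = 1
  field_simp

end ComplexityOne
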