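import Mathlib
import Pool.Agent.Helper271.CY.Defs
import Pool.Agent.Helper271.CY.J_Rquad
import Pool.Agent.Helper271.CY.J_Tprime
import Pool.Agent.Helper271.CY.J_dvrprime
import Pool.Agent.Helper271.CY.J_ordgen

universe u

namespace ComplexityOne

variable {K : Type u} [Field K] [Algebra ℂ K]

theorem trichotomy_gen {A P : Subalgebra ℂ K} (q : Ideal A) (hq : q.IsPrime)
    (hP : ∀ x : K, x ∈ P ↔ ∃ r s : A, s ∉ q ∧ x = (r : K) / (s : K))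
    (hD : IsDiscreteValuationRing P) (g : K) (hgA : g ∈ A) (hg0 : g ≠ 0)
    (hpr : ∀ x ∈ A, ∀ y ∈ A, (∃ c ∈ A, x * y = g * c) → (∃ c ∈ A, x = g * c) ∨ (∃ c ∈ A, y = g * c))
    (h1 : ¬ ∃ c ∈ A, 1 = g * c) (hmem : (⟨g, hgA⟩ : A) ∈ q) :
    q = Ideal.span {(⟨g, hgA⟩ : A)} := by
  have hne : (⟨g, hgA⟩ : A) ≠ 0 := fun h => hg0 (congrArg Subtype.val h)
  have hprime : (Ideal.span {(⟨g, hgA⟩ : A)}).IsPrime := by
    rw [Ideal.span_singleton_prime hne]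
    refine ⟨hne, ?_, ?_⟩
    · intro hu
      obtain ⟨c, hc⟩ := hu.exists_right_inv
      exact h1 ⟨c, c.2, (congrArg Subtype.val hc).symm⟩
    · rintro x y ⟨c, hc⟩
      rcases hpr x x.2 y y.2 ⟨c, c.2, congrArg Subtype.val hc⟩ with ⟨d, hd, he⟩ | ⟨d, hd, he⟩
      · exact Or.inl ⟨⟨d, hd⟩, Subtype.ext he⟩
      · exact Or.inr ⟨⟨d, hd⟩, Subtype.ext he⟩
  have hle : Ideal.span {(⟨g, hgA⟩ : A)} ≤ q := by
    rw [Ideal.span_le, Set.singleton_subset_iff]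
    exact hmem
  rcases dvr_height q hq hP hD _ hprime hle with h | h
  · rw [Ideal.span_singleton_eq_bot] at h
    exact absurd h hne
  · exact h.symm

theorem trichotomy_loc {A P : Subalgebra ℂ K} (q : Ideal A)
    (hP : ∀ x : K, x ∈ P ↔ ∃ r s : A, s ∉ q ∧ x = (r : K) / (s : K))
    (g : K) (hgA : g ∈ A) (hgen : q = Ideal.span {(⟨g, hgA⟩ : A)}) : IsLocAt A g P := by
  have key : ∀ s : A, s ∈ q ↔ ∃ c : A, (s : K) = g * c := by
    intro s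
    rw [hgen, Ideal.mem_span_singleton]
    constructor
    · rintro ⟨c, hc⟩
      exact ⟨c, congrArg Subtype.val hc⟩
    · rintro ⟨c, hc⟩
      exact ⟨c, Subtype.ext hc⟩
  intro x
  rw [hP x]
  constructor
  · rintro ⟨r, s, hs, hx⟩
    exact ⟨r, s, fun h => hs ((key s).2 h), hx⟩
  · rintro ⟨r, s, hs, hx⟩
    exact ⟨r, s, fun h => hs ((key s).1 h), hx⟩

theorem trichotomy_not {A P : Subalgebra ℂ K} (q : Ideal A)
    (hP : ∀ x : K, x ∈ P ↔ ∃ r s : A, s ∉ q ∧ x = (r : K) / (s : K))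
    (g : K) (hgA : g ∈ A) (hg0 : g ≠ 0) (hn : (⟨g, hgA⟩ : A) ∉ q) : ¬ IsLocAt A g P := by
  intro hL
  have h1 : (1 : K) / g ∈ P := (hP _).2 ⟨1, ⟨g, hgA⟩, hn, rfl⟩
  obtain ⟨r, s, hs, hx⟩ := (hL _).1 h1
  have hs0 : (s : K) ≠ 0 := by
    intro h0
    exact hs ⟨0, by rw [h0]; simp⟩
  rw [div_eq_div_iff hg0 hs0, one_mul] at hx
  exact hs ⟨r, by rw [hx, mul_comm]⟩

theorem trichotomy {a b u v : K} (h : Quad a b u v) {P : Subalgebra ℂ K}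
    (hP : IsLocalRingOf (R a b u v) P) (hD : IsDiscreteValuationRing P) :
    (IsLocAt (R a b u v) (v / u) P ∧ HasOrder P (v / u) 1 ∧ HasOrder P u⁻¹ 0) ∨
    (IsLocAt (R a b u v) u⁻¹ P ∧ HasOrder P (v / u) 0 ∧ HasOrder P u⁻¹ 1) ∨
    (¬ IsLocAt (R a b u v) (v / u) P ∧ ¬ IsLocAt (R a b u v) u⁻¹ P ∧
      HasOrder P (v / u) 0 ∧ HasOrder P u⁻¹ 0) := by
  obtain ⟨q, hq, hPq⟩ := hP
  obtain ⟨p1, p2, n1, n2, n3, n4, -, -⟩ := T_prime h.chart (R a b u v) rfl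
  have hsA : v / u ∈ R a b u v := Algebra.subset_adjoin (by simp)
  have htA : u⁻¹ ∈ R a b u v := Algebra.subset_adjoin (by simp)
  have hs0 : v / u ≠ 0 := fun h0 => n2 ⟨0, (R a b u v).zero_mem, by rw [h0, mul_zero]⟩
  have ht0 : u⁻¹ ≠ 0 := fun h0 => n1 ⟨0, (R a b u v).zero_mem, by rw [h0, mul_zero]⟩
  by_cases hs : (⟨v / u, hsA⟩ : R a b u v) ∈ q
  · left
    have hgen := trichotomy_gen q hq hPq hD (v / u) hsA hs0 p1 n3 hs
    refine ⟨trichotomy_loc q hPq (v / u) hsA hgen,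
      order_of_generator q hq hPq hD ⟨v / u, hsA⟩ hgen,
      order_of_notMem q hq hPq hD ⟨u⁻¹, htA⟩ ?_⟩
    intro ht
    rw [hgen, Ideal.mem_span_singleton] at ht
    obtain ⟨c, hc⟩ := ht
    exact n1 ⟨c, c.2, congrArg Subtype.val hc⟩
  · right
    by_cases ht : (⟨u⁻¹, htA⟩ : R a b u v) ∈ q
    · left
      have hgen := trichotomy_gen q hq hPq hD u⁻¹ htA ht0 p2 n4 ht
      exact ⟨trichotomy_loc q hPq u⁻¹ htA hgen,
        order_of_notMem q hq hPq hD ⟨v / u, hsA⟩ hs,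
        order_of_generator q hq hPq hD ⟨u⁻¹, htA⟩ hgen⟩
    · right
      exact ⟨trichotomy_not q hPq (v / u) hsA hs0 hs, trichotomy_not q hPq u⁻¹ htA ht0 ht,
        order_of_notMem q hq hPq hD ⟨v / u, hsA⟩ hs,
        order_of_notMem q hq hPq hD ⟨u⁻¹, htA⟩ ht⟩

end ComplexityOne
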