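import Mathlib
import Pool.Agent.Helper271.CY.Defs
import Pool.Agent.Helper271.CY.J_trichotomy

universe u

namespace ComplexityOne

variable {K : Type u} [Field K] [Algebra ℂ K]

theorem S_le_base {R P : Subalgebra ℂ K} (hP : IsLocalRingOf R P) : R ≤ P := by
  obtain ⟨q, hq, h⟩ := hP
  intro x hx
  rw [h]
  exact ⟨⟨x, hx⟩, 1, (Ideal.ne_top_iff_one q).mp hq.ne_top, by simp⟩

theorem S_le_ord0 {P : Subalgebra ℂ K} {f : K} (h : HasOrder P f 0) : f ≠ 0 ∧ f⁻¹ ∈ P := by
  obtain ⟨t, e, ht, he, hf⟩ := h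
  rw [zpow_zero, mul_one] at hf
  obtain ⟨w, hw⟩ := he
  have h1 : ((w : P) : K) * (((w⁻¹ : Pˣ) : P) : K) = 1 := by
    rw [← Subalgebra.coe_mul, Units.mul_inv, Subalgebra.coe_one]
  rw [hw, ← hf] at h1
  have h2 : f ≠ 0 := left_ne_zero_of_mul_eq_one h1
  refine ⟨h2, ?_⟩
  rw [inv_eq_of_mul_eq_one_right h1]
  exact ((w⁻¹ : Pˣ) : P).2

/-- A prime divisor of the chart `R` other than `D_w` is a local ring of the affine cone. -/
theorem S_le {a b u v : K} (h : Quad a b u v) {P : Subalgebra ℂ K}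
    (hP : IsLocalRingOf (R a b u v) P) (hD : IsDiscreteValuationRing P)
    (hw : ¬ IsLocAt (R a b u v) u⁻¹ P) : S a b u v ≤ P := by
  have hRP := S_le_base hP
  have ha : a ∈ P := hRP (Algebra.subset_adjoin (by simp))
  have hb : b ∈ P := hRP (Algebra.subset_adjoin (by simp))
  have hvu : v / u ∈ P := hRP (Algebra.subset_adjoin (by simp))
  have h0 : HasOrder P u⁻¹ 0 := by
    rcases trichotomy h hP hD with h1 | h1 | h1
    · exact h1.2.2
    · exact absurd h1.1 hw
    · exact h1.2.2.2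
  obtain ⟨hu0, hu⟩ := S_le_ord0 h0
  rw [inv_inv] at hu
  have hune : u ≠ 0 := by
    intro h0'
    apply hu0
    rw [h0', inv_zero]
  have hv : v ∈ P := by
    have : v = u * (v / u) := by field_simp
    rw [this]
    exact P.mul_mem hu hvu
  unfold S
  refine Algebra.adjoin_le ?_
  rintro x (rfl | rfl | rfl | rfl | rfl | rfl)
  · exact hu
  · exact P.mul_mem ha hu
  · exact P.mul_mem hb hu
  · exact hv
  · exact P.mul_mem ha hv
  · exact P.mul_mem hb hv

end ComplexityOne
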