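import Mathlib

universe u

namespace ComplexityOne

theorem mvPolynomial_normal_aux {A : Type u} [CommRing A] [IsDomain A] [IsIntegrallyClosed A] (n : ℕ) :
    IsIntegrallyClosed (MvPolynomial (Fin n) A) := by
  induction n with
  | zero => exact IsIntegrallyClosed.of_equiv (MvPolynomial.isEmptyRingEquiv A (Fin 0)).symm
  | succ n ih =>
    have := ih
    exact IsIntegrallyClosed.of_equiv (MvPolynomial.finSuccEquiv A n).symm.toRingEquiv

theorem mvPolynomial_normal {A : Type u} [CommRing A] [IsDomain A] [IsIntegrallyClosed A]
    [IsNoetherianRing A] : IsIntegrallyClosed (MvPolynomial (Fin 2) A) := by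
  exact mvPolynomial_normal_aux 2

end ComplexityOne
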