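import Mathlib
import Pool.Agent.Helper271.CY.Defs
import Pool.Agent.Helper271.CY.J_Anormal
import Pool.Agent.Helper271.CY.J_coords
import Pool.Agent.Helper271.CY.J_polynormal

universe u

namespace ComplexityOne

variable {K : Type u} [Field K] [Algebra ℂ K]

open scoped IntermediateField.algebraAdjoinAdjoin in
theorem T_normal_A {a b : K} (hc : a ^ 3 + b ^ 3 = 1) (ht : Transcendental ℂ a) :
    IsIntegrallyClosed (Algebra.adjoin ℂ {a, b} : Subalgebra ℂ K) := by
  rw [isIntegrallyClosed_iff (IntermediateField.adjoin ℂ {a, b})]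
  intro x hx
  have hxK : IsIntegral (Algebra.adjoin ℂ {a, b} : Subalgebra ℂ K) (x : K) :=
    hx.algebraMap (B := K)
  exact ⟨⟨(x : K), A_normal hc ht x hxK x.2⟩, Subtype.ext rfl⟩

theorem T_normal_T {a b u v : K} (h : Quad a b u v) :
    IsIntegrallyClosed (Algebra.adjoin ℂ {a, b, u, v} : Subalgebra ℂ K) := by
  have ht : Transcendental ℂ a := h.indep.transcendental 0
  haveI : IsIntegrallyClosed (Algebra.adjoin ℂ {a, b} : Subalgebra ℂ K) := T_normal_A h.cubic ht
  haveI : IsNoetherianRing (Algebra.adjoin ℂ {a, b} : Subalgebra ℂ K) := by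
    apply isNoetherianRing_of_fg
    exact Subalgebra.fg_def.2 ⟨{a, b}, by simp, rfl⟩
  haveI := mvPolynomial_normal (A := (Algebra.adjoin ℂ {a, b} : Subalgebra ℂ K))
  obtain ⟨hinj, hmem⟩ := coords h
  let φ : MvPolynomial (Fin 2) (Algebra.adjoin ℂ {a, b} : Subalgebra ℂ K) →+*
      (Algebra.adjoin ℂ {a, b, u, v} : Subalgebra ℂ K) :=
    RingHom.codRestrict ((MvPolynomial.aeval ![u, v] :
      MvPolynomial (Fin 2) (Algebra.adjoin ℂ {a, b} : Subalgebra ℂ K) →ₐ[(Algebra.adjoin ℂ {a, b} : Subalgebra ℂ K)] K).toRingHom) (Algebra.adjoin ℂ {a, b, u, v} : Subalgebra ℂ K)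
      (fun p => (hmem _).2 ⟨p, rfl⟩)
  have hbij : Function.Bijective φ := by
    constructor
    · intro p q hpq
      apply hinj
      exact congrArg Subtype.val hpq
    · rintro ⟨x, hx⟩
      obtain ⟨p, hp⟩ := (hmem x).1 hx
      exact ⟨p, Subtype.ext hp⟩
  exact IsIntegrallyClosed.of_equiv (RingEquiv.ofBijective φ hbij)

open scoped IntermediateField.algebraAdjoinAdjoin in
theorem T_normal_main {a b u v : K} (h : Quad a b u v) (x : K)
    (hx : IsIntegral (Algebra.adjoin ℂ {a, b, u, v} : Subalgebra ℂ K) x) :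
    x ∈ Algebra.adjoin ℂ {a, b, u, v} := by
  have h1 := T_normal_T h
  rw [isIntegrallyClosed_iff (IntermediateField.adjoin ℂ {a, b, u, v})] at h1
  have hxF : x ∈ IntermediateField.adjoin ℂ {a, b, u, v} := by
    rw [h.top]
    trivial
  have h2 : IsIntegral (Algebra.adjoin ℂ {a, b, u, v} : Subalgebra ℂ K)
      (⟨x, hxF⟩ : IntermediateField.adjoin ℂ {a, b, u, v}) := by
    rw [← isIntegral_algebraMap_iff (B := K) (algebraMap
      (IntermediateField.adjoin ℂ {a, b, u, v}) K).injective]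
    exact hx
  obtain ⟨y, hy⟩ := h1 h2
  have h3 : (y : K) = x := congrArg Subtype.val hy
  rw [← h3]
  exact y.2


/-- `ℂ[a, b, u, v]` is a polynomial ring in `u, v` over the coordinate ring `ℂ[a, b]` of the smooth
affine curve `a ^ 3 + b ^ 3 = 1`, hence integrally closed. -/
theorem T_normal {a b u v : K} (h : Quad a b u v) (x : K)
    (hx : IsIntegral (Algebra.adjoin ℂ {a, b, u, v} : Subalgebra ℂ K) x) :
    x ∈ Algebra.adjoin ℂ {a, b, u, v} := by
  exact T_normal_main h x hx

end ComplexityOne
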