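import Mathlib
import Pool.Agent.Helper271.CY.Defs

universe u

namespace ComplexityOne

variable {K : Type u} [Field K] [Algebra ℂ K]

theorem chart_u {a b u v : K} (h : Quad a b u v) : chart (V a b u v) u = R a b u v := by
  have hu : u ≠ 0 := h.indep.ne_zero 1
  have ha : a ∈ R a b u v := Algebra.subset_adjoin (by simp)
  have hb : b ∈ R a b u v := Algebra.subset_adjoin (by simp)
  have hv : v / u ∈ R a b u v := Algebra.subset_adjoin (by simp)
  have hi : u⁻¹ ∈ R a b u v := Algebra.subset_adjoin (by simp)
  apply le_antisymm
  · apply Algebra.adjoin_le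
    rintro x ⟨g, hg, rfl⟩
    show g / u ∈ R a b u v
    unfold V at hg
    induction hg using Submodule.span_induction with
    | mem x hx =>
      simp only [Set.mem_insert_iff, Set.mem_singleton_iff] at hx
      rcases hx with rfl | rfl | rfl | rfl | rfl | rfl | rfl
      · rw [one_div]; exact hi
      · rw [div_self hu]; exact one_mem _
      · rw [mul_div_assoc, div_self hu, mul_one]; exact ha
      · rw [mul_div_assoc, div_self hu, mul_one]; exact hb
      · exact hv
      · rw [mul_div_assoc]; exact mul_mem ha hv
      · rw [mul_div_assoc]; exact mul_mem hb hv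
    | zero => rw [zero_div]; exact zero_mem _
    | add x y _ _ hx hy => rw [add_div]; exact add_mem hx hy
    | smul c x _ hx => rw [smul_div_assoc]; exact Subalgebra.smul_mem _ hx c
  · apply Algebra.adjoin_le
    intro x hx
    simp only [Set.mem_insert_iff, Set.mem_singleton_iff] at hx
    show x ∈ chart (V a b u v) u
    apply Algebra.subset_adjoin
    rcases hx with rfl | rfl | rfl | rfl
    · exact ⟨x * u, Submodule.subset_span (by simp), by field_simp⟩
    · exact ⟨x * u, Submodule.subset_span (by simp), by field_simp⟩
    · exact ⟨v, Submodule.subset_span (by simp), rfl⟩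
    · exact ⟨1, Submodule.subset_span (by simp), by rw [one_div]⟩

end ComplexityOne
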