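import Mathlib
import Pool.Agent.Helper271.CY.Defs

universe u

namespace ComplexityOne

variable {K : Type u} [Field K] [Algebra ℂ K]

theorem chart_one {a b u v : K} : chart (V a b u v) 1 = S a b u v := by
  apply le_antisymm
  · unfold chart
    apply Algebra.adjoin_le
    rintro x ⟨g, hg, rfl⟩
    have h1 : V a b u v ≤ Subalgebra.toSubmodule (S a b u v) := by
      unfold V
      rw [Submodule.span_le]
      rintro y hy
      simp only [Set.mem_insert_iff, Set.mem_singleton_iff] at hy
      show y ∈ S a b u v
      rcases hy with rfl | rfl | rfl | rfl | rfl | rfl | rfl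
      · exact Subalgebra.one_mem _
      all_goals
        apply Algebra.subset_adjoin
        simp only [Set.mem_insert_iff, Set.mem_singleton_iff, true_or, or_true]
    rw [div_one]
    exact h1 hg
  · unfold S
    apply Algebra.adjoin_le
    intro y hy
    apply Algebra.subset_adjoin
    refine ⟨y, ?_, (div_one y).symm⟩
    apply Submodule.subset_span
    simp only [Set.mem_insert_iff, Set.mem_singleton_iff] at hy ⊢
    tauto

end ComplexityOne
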