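import Mathlib
import Pool.Agent.Helper271.CY.Defs

universe u

namespace ComplexityOne

variable {K : Type u} [Field K] [Algebra ℂ K]

/-- membership of an element of `K` in an ideal of a subring -/
def clsQ (C : Subalgebra ℂ K) (q : Ideal C) (x : K) : Prop := ∃ hx : x ∈ C, (⟨x, hx⟩ : C) ∈ q

theorem clsQ_add {C : Subalgebra ℂ K} {q : Ideal C} {x y : K} (hx : clsQ C q x) (hy : clsQ C q y) :
    clsQ C q (x + y) := by
  obtain ⟨h1, h2⟩ := hx
  obtain ⟨h3, h4⟩ := hy
  exact ⟨C.add_mem h1 h3, q.add_mem h2 h4⟩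

theorem clsQ_mul {C : Subalgebra ℂ K} {q : Ideal C} {x y : K} (hx : x ∈ C) (hy : clsQ C q y) :
    clsQ C q (x * y) := by
  obtain ⟨h3, h4⟩ := hy
  exact ⟨C.mul_mem hx h3, q.mul_mem_left ⟨x, hx⟩ h4⟩

theorem clsQ_zero (C : Subalgebra ℂ K) (q : Ideal C) : clsQ C q 0 := ⟨C.zero_mem, q.zero_mem⟩

theorem clsQ_smul {C : Subalgebra ℂ K} {q : Ideal C} {y : K} (c : ℂ) (hy : clsQ C q y) :
    clsQ C q (c • y) := by
  rw [Algebra.smul_def]
  exact clsQ_mul (C.algebraMap_mem c) hy

theorem clsQ_coe {C : Subalgebra ℂ K} {q : Ideal C} (x : C) : clsQ C q (x : K) ↔ x ∈ q :=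
  ⟨fun ⟨_, h⟩ => h, fun h => ⟨x.2, h⟩⟩

theorem clsQ_one {C : Subalgebra ℂ K} {q : Ideal C} (hq : q.IsPrime) : ¬ clsQ C q 1 := by
  rintro ⟨h1, h2⟩
  exact hq.ne_top ((Ideal.eq_top_iff_one q).2 h2)

theorem clsQ_prime {C : Subalgebra ℂ K} {q : Ideal C} (hq : q.IsPrime) {x y : K} (hx : x ∈ C) (hy : y ∈ C)
    (h : clsQ C q (x * y)) : clsQ C q x ∨ clsQ C q y := by
  obtain ⟨h1, h2⟩ := h
  have h3 : (⟨x, hx⟩ : C) * ⟨y, hy⟩ ∈ q := h2
  rcases hq.mem_or_mem h3 with h | h
  · exact Or.inl ⟨hx, h⟩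
  · exact Or.inr ⟨hy, h⟩

/-- maximal ideal of the local ring -/
def clsM (C : Subalgebra ℂ K) (q : Ideal C) (x : K) : Prop :=
  ∃ r s : K, clsQ C q r ∧ s ∈ C ∧ ¬ clsQ C q s ∧ x = r / s

/-- the local ring, elementwise -/
def clsO (C : Subalgebra ℂ K) (q : Ideal C) (x : K) : Prop :=
  ∃ r s : K, r ∈ C ∧ s ∈ C ∧ ¬ clsQ C q s ∧ x = r / s

theorem cls_ne {C : Subalgebra ℂ K} {q : Ideal C} {s : K} (h : ¬ clsQ C q s) : s ≠ 0 := by
  rintro rfl
  exact h (clsQ_zero C q)

theorem clsM_add {C : Subalgebra ℂ K} {q : Ideal C} (hq : q.IsPrime) {x y : K} (hx : clsM C q x) (hy : clsM C q y) :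
    clsM C q (x + y) := by
  obtain ⟨r, s, h1, h2, h3, rfl⟩ := hx
  obtain ⟨r', s', h1', h2', h3', rfl⟩ := hy
  refine ⟨s' * r + s * r', s * s', clsQ_add (clsQ_mul h2' h1) (clsQ_mul h2 h1'), C.mul_mem h2 h2', ?_, ?_⟩
  · intro h
    rcases clsQ_prime hq h2 h2' h with h | h
    · exact h3 h
    · exact h3' h
  · have := cls_ne h3
    have := cls_ne h3'
    field_simp

theorem clsM_mul {C : Subalgebra ℂ K} {q : Ideal C} (hq : q.IsPrime) {x y : K} (hx : clsO C q x) (hy : clsM C q y) :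
    clsM C q (x * y) := by
  obtain ⟨r, s, h1, h2, h3, rfl⟩ := hx
  obtain ⟨r', s', h1', h2', h3', rfl⟩ := hy
  refine ⟨r * r', s * s', clsQ_mul h1 h1', C.mul_mem h2 h2', ?_, ?_⟩
  · intro h
    rcases clsQ_prime hq h2 h2' h with h | h
    · exact h3 h
    · exact h3' h
  · have := cls_ne h3
    have := cls_ne h3'
    field_simp

theorem clsM_zero {C : Subalgebra ℂ K} {q : Ideal C} (hq : q.IsPrime) : clsM C q 0 :=
  ⟨0, 1, clsQ_zero C q, C.one_mem, clsQ_one hq, by simp⟩

theorem clsM_one {C : Subalgebra ℂ K} {q : Ideal C} : ¬ clsM C q 1 := by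
  rintro ⟨r, s, h1, h2, h3, h4⟩
  have := cls_ne h3
  rw [eq_div_iff this, one_mul] at h4
  rw [h4] at h3
  exact h3 h1

theorem cls_V_le_S (a b u v : K) {g : K} (hg : g ∈ V a b u v) : g ∈ S a b u v := by
  have hle : V a b u v ≤ Subalgebra.toSubmodule (S a b u v) := by
    unfold V
    rw [Submodule.span_le]
    intro x hx
    simp only [Set.mem_insert_iff, Set.mem_singleton_iff] at hx
    have hS : ∀ y ∈ ({u, a * u, b * u, v, a * v, b * v} : Set K), y ∈ S a b u v := fun y hy =>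
      Algebra.subset_adjoin hy
    rcases hx with rfl | hx
    · exact (S a b u v).one_mem
    · exact hS x (by simpa only [Set.mem_insert_iff, Set.mem_singleton_iff] using hx)
  exact hle hg

theorem cls_chart_mul {a b u v f : K} (hf : f ∈ V a b u v) (hf0 : f ≠ 0) {r : K} (hr : r ∈ chart (V a b u v) f) :
    ∃ k : ℕ, r * f ^ k ∈ S a b u v := by
  have hfS := cls_V_le_S a b u v hf
  unfold chart at hr
  induction hr using Algebra.adjoin_induction with
  | mem x hx =>
    obtain ⟨g, hg, rfl⟩ := hx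
    refine ⟨1, ?_⟩
    have : g / f * f ^ 1 = g := by field_simp
    rw [this]
    exact cls_V_le_S a b u v hg
  | algebraMap c =>
    refine ⟨0, ?_⟩
    rw [pow_zero, mul_one]
    exact (S a b u v).algebraMap_mem c
  | add x y _ _ hx hy =>
    obtain ⟨k, hk⟩ := hx
    obtain ⟨l, hl⟩ := hy
    refine ⟨k + l, ?_⟩
    have : (x + y) * f ^ (k + l) = x * f ^ k * f ^ l + y * f ^ l * f ^ k := by ring
    rw [this]
    exact (S a b u v).add_mem ((S a b u v).mul_mem hk ((S a b u v).pow_mem hfS l))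
      ((S a b u v).mul_mem hl ((S a b u v).pow_mem hfS k))
  | mul x y _ _ hx hy =>
    obtain ⟨k, hk⟩ := hx
    obtain ⟨l, hl⟩ := hy
    refine ⟨k + l, ?_⟩
    have : (x * y) * f ^ (k + l) = (x * f ^ k) * (y * f ^ l) := by ring
    rw [this]
    exact (S a b u v).mul_mem hk hl

theorem cls_S_const {a b u v : K} (s : S a b u v) : ∃ c : ℂ, s - algebraMap ℂ (S a b u v) c ∈ m₀ a b u v := by
  obtain ⟨x, hx⟩ := s
  have hx' : x ∈ Algebra.adjoin ℂ ({u, a * u, b * u, v, a * v, b * v} : Set K) := hx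
  induction hx' using Algebra.adjoin_induction with
  | mem x hx1 =>
    refine ⟨0, ?_⟩
    rw [map_zero, sub_zero]
    apply Ideal.subset_span
    simp only [Set.mem_insert_iff, Set.mem_singleton_iff] at hx1
    exact hx1
  | algebraMap c =>
    refine ⟨c, ?_⟩
    have : (⟨algebraMap ℂ K c, hx⟩ : S a b u v) - algebraMap ℂ (S a b u v) c = 0 := by
      apply Subtype.ext
      simp
    rw [this]
    exact (m₀ a b u v).zero_mem
  | add x y hx1 hy1 h1 h2 =>
    obtain ⟨c, hc⟩ := h1 hx1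
    obtain ⟨d, hd⟩ := h2 hy1
    refine ⟨c + d, ?_⟩
    have : (⟨x + y, hx⟩ : S a b u v) - algebraMap ℂ (S a b u v) (c + d) =
        ((⟨x, hx1⟩ : S a b u v) - algebraMap ℂ (S a b u v) c) + ((⟨y, hy1⟩ : S a b u v) - algebraMap ℂ (S a b u v) d) := by
      apply Subtype.ext
      simp
      ring
    rw [this]
    exact (m₀ a b u v).add_mem hc hd
  | mul x y hx1 hy1 h1 h2 =>
    obtain ⟨c, hc⟩ := h1 hx1
    obtain ⟨d, hd⟩ := h2 hy1
    refine ⟨c * d, ?_⟩
    have : (⟨x * y, hx⟩ : S a b u v) - algebraMap ℂ (S a b u v) (c * d) =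
        (⟨y, hy1⟩ : S a b u v) * ((⟨x, hx1⟩ : S a b u v) - algebraMap ℂ (S a b u v) c) +
        algebraMap ℂ (S a b u v) c * ((⟨y, hy1⟩ : S a b u v) - algebraMap ℂ (S a b u v) d) := by
      apply Subtype.ext
      simp
      ring
    rw [this]
    exact (m₀ a b u v).add_mem ((m₀ a b u v).mul_mem_left _ hc) ((m₀ a b u v).mul_mem_left _ hd)

/-- Let `O = chart(f)_q`.  Since `1 = f / f` is a linear combination of the `e / f` with
`e ∈ {1, u, au, bu, v, av, bv}`, one of them is not in `q`, i.e. is a unit of `O`; then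
`g / e = (g / f) / (e / f) ∈ O` for all `g ∈ V`.  If `e = b u` then, since
`(b u / f) ^ 3 = (u / f) ^ 3 - (a u / f) ^ 3`, also `u / f` or `a u / f` is a unit; same for `v`.
If none of the `e / f` with `e ≠ 1` is a unit, then `1 / f` is a unit, `O` is a local ring of
`chart V 1 = S a b u v` and all generators of the maximal ideal `m₀` are non units of `O`, so that
`O = S_{m₀}`. -/
theorem classify {a b u v : K} (h : Quad a b u v) {O : Subalgebra ℂ K}
    (hO : IsPoint (V a b u v) O) :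
    (∀ g ∈ V a b u v, g / u ∈ O) ∨ (∀ g ∈ V a b u v, g / (a * u) ∈ O) ∨
    (∀ g ∈ V a b u v, g / v ∈ O) ∨ (∀ g ∈ V a b u v, g / (a * v) ∈ O) ∨ IsVertex a b u v O := by
  obtain ⟨f, hf, hf0, hloc⟩ := hO
  have hCmem : ∀ g ∈ V a b u v, g / f ∈ chart (V a b u v) f := fun g hg => Algebra.subset_adjoin ⟨g, hg, rfl⟩
  have hchart : ∀ r ∈ chart (V a b u v) f, ∃ k : ℕ, r * f ^ k ∈ S a b u v := fun r hr => cls_chart_mul hf hf0 hr
  generalize chart (V a b u v) f = C at hloc hCmem hchart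
  obtain ⟨q, hq, hOx⟩ := hloc
  have hO' : ∀ x, x ∈ O ↔ clsO C q x := by
    intro x
    rw [hOx]
    constructor
    · rintro ⟨r, s, hs, rfl⟩
      exact ⟨r, s, r.2, s.2, fun h => hs ((clsQ_coe s).1 h), rfl⟩
    · rintro ⟨r, s, hr, hs, hs', rfl⟩
      exact ⟨⟨r, hr⟩, ⟨s, hs⟩, fun h => hs' ⟨hs, h⟩, rfl⟩
  have halt : ∀ e ∈ V a b u v, ¬ clsQ C q (e / f) → ∀ g ∈ V a b u v, g / e ∈ O := by
    intro e he hne g hg
    rw [hO']
    exact ⟨g / f, e / f, hCmem g hg, hCmem e he, hne, (div_div_div_cancel_right₀ hf0 g e).symm⟩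
  have hmem : ∀ e ∈ ({1, u, a * u, b * u, v, a * v, b * v} : Set K), e ∈ V a b u v := fun e he =>
    Submodule.subset_span he
  have hV1 : (1 : K) ∈ V a b u v := hmem _ (by simp)
  have hVu : u ∈ V a b u v := hmem _ (by simp)
  have hVau : a * u ∈ V a b u v := hmem _ (by simp)
  have hVbu : b * u ∈ V a b u v := hmem _ (by simp)
  have hVv : v ∈ V a b u v := hmem _ (by simp)
  have hVav : a * v ∈ V a b u v := hmem _ (by simp)
  have hVbv : b * v ∈ V a b u v := hmem _ (by simp)
  by_cases h1 : clsQ C q (u / f)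
  swap
  · exact Or.inl (halt u hVu h1)
  by_cases h2 : clsQ C q (a * u / f)
  swap
  · exact Or.inr (Or.inl (halt _ hVau h2))
  by_cases h3 : clsQ C q (v / f)
  swap
  · exact Or.inr (Or.inr (Or.inl (halt v hVv h3)))
  by_cases h4 : clsQ C q (a * v / f)
  swap
  · exact Or.inr (Or.inr (Or.inr (Or.inl (halt _ hVav h4))))
  right; right; right; right
  have hb3 : b ^ 3 = 1 - a ^ 3 := by
    rw [← h.cubic]
    ring
  have hcube : ∀ w : K, w ∈ V a b u v → b * w ∈ V a b u v → a * w ∈ V a b u v → clsQ C q (w / f) →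
      clsQ C q (a * w / f) → clsQ C q (b * w / f) := by
    intro w hw hbw haw k1 k2
    have e : (b * w / f) * ((b * w / f) * (b * w / f)) =
        ((w / f) * (w / f)) * (w / f) + (-(a * w / f) * (a * w / f)) * (a * w / f) := by
      have : (b * w / f) * ((b * w / f) * (b * w / f)) = b ^ 3 * ((w / f) * (w / f) * (w / f)) := by ring
      rw [this, hb3]
      ring
    have k3 : clsQ C q ((b * w / f) * ((b * w / f) * (b * w / f))) := by
      rw [e]
      exact clsQ_add (clsQ_mul (C.mul_mem (hCmem w hw) (hCmem w hw)) k1)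
        (clsQ_mul (C.mul_mem (C.neg_mem (hCmem _ haw)) (hCmem _ haw)) k2)
    rcases clsQ_prime hq (hCmem _ hbw) (C.mul_mem (hCmem _ hbw) (hCmem _ hbw)) k3 with k | k
    · exact k
    · rcases clsQ_prime hq (hCmem _ hbw) (hCmem _ hbw) k with k | k
      · exact k
      · exact k
  have h5 : clsQ C q (b * u / f) := hcube u hVu hVbu hVau h1 h2
  have h6 : clsQ C q (b * v / f) := hcube v hVv hVbv hVav h3 h4
  have h0 : ¬ clsQ C q (1 / f) := by
    intro h0
    have hall : ∀ g ∈ V a b u v, clsQ C q (g / f) := by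
      intro g hg
      unfold V at hg
      induction hg using Submodule.span_induction with
      | mem x hx =>
        simp only [Set.mem_insert_iff, Set.mem_singleton_iff] at hx
        rcases hx with rfl | rfl | rfl | rfl | rfl | rfl | rfl <;> assumption
      | zero =>
        rw [zero_div]
        exact clsQ_zero C q
      | add x y _ _ hx hy =>
        rw [add_div]
        exact clsQ_add hx hy
      | smul c x _ hx =>
        rw [smul_div_assoc]
        exact clsQ_smul c hx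
    have := hall f hf
    rw [div_self hf0] at this
    exact clsQ_one hq this
  -- the generators are non units
  have hgen : ∀ e : K, clsQ C q (e / f) → clsM C q e := by
    intro e he
    refine ⟨e / f, 1 / f, he, hCmem 1 hV1, h0, ?_⟩
    field_simp
  have hgenO : ∀ e ∈ V a b u v, e ∈ O := by
    intro e he
    have := halt 1 hV1 h0 e he
    rwa [div_one] at this
  have hSO : ∀ x ∈ S a b u v, x ∈ O := by
    have hle : S a b u v ≤ O := by
      unfold S
      apply Algebra.adjoin_le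
      intro x hx
      apply hgenO
      apply hmem
      exact Or.inr hx
    exact fun x hx => hle hx
  have hm : ∀ x : S a b u v, x ∈ m₀ a b u v → clsM C q (x : K) := by
    intro x hx
    unfold m₀ at hx
    induction hx using Submodule.span_induction with
    | mem x hx =>
      apply hgen
      rcases hx with hx | hx | hx | hx | hx | hx <;> rw [hx] <;> assumption
    | zero => exact clsM_zero hq
    | add x y _ _ hx hy => exact clsM_add hq hx hy
    | smul c x _ hx =>
      exact clsM_mul hq ((hO' _).1 (hSO _ c.2)) hx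
  intro x
  constructor
  · intro hx
    obtain ⟨r, s, hr, hs, hs', rfl⟩ := (hO' x).1 hx
    obtain ⟨k, hk⟩ := hchart r hr
    obtain ⟨l, hl⟩ := hchart s hs
    have hfS := cls_V_le_S a b u v hf
    have hs0 := cls_ne hs'
    refine ⟨⟨r * f ^ k * f ^ l, (S a b u v).mul_mem hk ((S a b u v).pow_mem hfS l)⟩,
      ⟨s * f ^ l * f ^ k, (S a b u v).mul_mem hl ((S a b u v).pow_mem hfS k)⟩, ?_, ?_⟩
    · intro hcon
      have h7 := hm _ hcon
      have h8 : (s * f ^ l * f ^ k)⁻¹ ∈ O := by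
        have e1 : s⁻¹ ∈ O := (hO' _).2 ⟨1, s, C.one_mem, hs, hs', (one_div s).symm⟩
        have e2 : f⁻¹ ∈ O := (hO' _).2 ⟨1 / f, 1, hCmem 1 hV1, C.one_mem, clsQ_one hq, by simp⟩
        rw [mul_inv, mul_inv, ← inv_pow, ← inv_pow]
        exact O.mul_mem (O.mul_mem e1 (O.pow_mem e2 l)) (O.pow_mem e2 k)
      have h9 := clsM_mul hq ((hO' _).1 h8) h7
      simp only [] at h9
      rw [inv_mul_cancel₀ (by positivity)] at h9
      exact clsM_one h9
    · simp only []
      field_simp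
  · rintro ⟨r, s, hs, rfl⟩
    obtain ⟨c, hc⟩ := cls_S_const s
    have hc0 : c ≠ 0 := by
      rintro rfl
      rw [map_zero, sub_zero] at hc
      exact hs hc
    obtain ⟨r0, s0, k1, k2, k3, k4⟩ := hm _ hc
    have hs0 := cls_ne k3
    have hcK : algebraMap ℂ K c ≠ 0 := by
      rw [Ne, map_eq_zero]
      exact hc0
    have hsval : (s : K) = (algebraMap ℂ K c * s0 + r0) / s0 := by
      have e : ((s - algebraMap ℂ (S a b u v) c : S a b u v) : K) = (s : K) - algebraMap ℂ K c := rfl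
      rw [e] at k4
      have : (s : K) = algebraMap ℂ K c + r0 / s0 := by
        rw [← k4]
        ring
      rw [this]
      field_simp
    have hnq : ¬ clsQ C q (algebraMap ℂ K c * s0 + r0) := by
      intro hcon
      apply k3
      have e1 : s0 = algebraMap ℂ K c⁻¹ * ((algebraMap ℂ K c * s0 + r0) + (-1) * r0) := by
        rw [map_inv₀]
        field_simp
        ring
      rw [e1]
      exact clsQ_mul (C.algebraMap_mem _) (clsQ_add hcon (clsQ_mul (C.neg_mem C.one_mem) k1))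
    have hinC : algebraMap ℂ K c * s0 + r0 ∈ C := by
      obtain ⟨k5, _⟩ := k1
      exact C.add_mem (C.mul_mem (C.algebraMap_mem c) k2) k5
    have hinv : ((s : K))⁻¹ ∈ O := by
      rw [hO', hsval, inv_div]
      exact ⟨s0, _, k2, hinC, hnq, rfl⟩
    rw [div_eq_mul_inv]
    exact O.mul_mem (hSO _ r.2) hinv

end ComplexityOne
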