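import Mathlib
import Pool.Agent.Helper271.CY.Defs
import Pool.Agent.Helper271.CY.J_coords

universe u

namespace ComplexityOne

variable {K : Type u} [Field K] [Algebra ℂ K]

theorem aux_one_not_mem {a b u v : K} (h : Quad a b u v) : (1 : S a b u v) ∉ m₀ a b u v := by
  obtain ⟨hind, -⟩ := coordsF h
  have hinj : Function.Injective (MvPolynomial.aeval ![u, v] :
      MvPolynomial (Fin 2) (IntermediateField.adjoin ℂ {a, b}) →ₐ[IntermediateField.adjoin ℂ {a, b}] K) :=
    hind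
  have haF : a ∈ IntermediateField.adjoin ℂ ({a, b} : Set K) :=
    IntermediateField.subset_adjoin ℂ _ (by simp)
  have hbF : b ∈ IntermediateField.adjoin ℂ ({a, b} : Set K) :=
    IntermediateField.subset_adjoin ℂ _ (by simp)
  -- the six generators
  have gen : ∀ x : K, (x = u ∨ x = a * u ∨ x = b * u ∨ x = v ∨ x = a * v ∨ x = b * v) →
      ∃ p : MvPolynomial (Fin 2) (IntermediateField.adjoin ℂ {a, b}),
        MvPolynomial.aeval ![u, v] p = x ∧ MvPolynomial.constantCoeff p = 0 := by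
    rintro x (rfl | rfl | rfl | rfl | rfl | rfl)
    · exact ⟨MvPolynomial.X 0, by simp, by simp⟩
    · exact ⟨MvPolynomial.C ⟨a, haF⟩ * MvPolynomial.X 0, by simp [IntermediateField.algebraMap_apply], by simp⟩
    · exact ⟨MvPolynomial.C ⟨b, hbF⟩ * MvPolynomial.X 0, by simp [IntermediateField.algebraMap_apply], by simp⟩
    · exact ⟨MvPolynomial.X 1, by simp, by simp⟩
    · exact ⟨MvPolynomial.C ⟨a, haF⟩ * MvPolynomial.X 1, by simp [IntermediateField.algebraMap_apply], by simp⟩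
    · exact ⟨MvPolynomial.C ⟨b, hbF⟩ * MvPolynomial.X 1, by simp [IntermediateField.algebraMap_apply], by simp⟩
  have hS : ∀ x : K, x ∈ S a b u v →
      ∃ p : MvPolynomial (Fin 2) (IntermediateField.adjoin ℂ {a, b}),
        MvPolynomial.aeval ![u, v] p = x := by
    intro x hx
    induction hx using Algebra.adjoin_induction with
    | mem x hx =>
      obtain ⟨p, hp, -⟩ := gen x (by simpa using hx)
      exact ⟨p, hp⟩
    | algebraMap c =>
      refine ⟨MvPolynomial.C (algebraMap ℂ _ c), ?_⟩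
      rw [MvPolynomial.aeval_C]
      exact (IsScalarTower.algebraMap_apply ℂ (IntermediateField.adjoin ℂ ({a, b} : Set K)) K c).symm
    | add x y _ _ h1 h2 =>
      obtain ⟨p, hp⟩ := h1
      obtain ⟨q, hq⟩ := h2
      exact ⟨p + q, by rw [map_add, hp, hq]⟩
    | mul x y _ _ h1 h2 =>
      obtain ⟨p, hp⟩ := h1
      obtain ⟨q, hq⟩ := h2
      exact ⟨p * q, by rw [map_mul, hp, hq]⟩
  have hm : ∀ x : S a b u v, x ∈ m₀ a b u v →
      ∃ p : MvPolynomial (Fin 2) (IntermediateField.adjoin ℂ {a, b}),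
        MvPolynomial.aeval ![u, v] p = (x : K) ∧ MvPolynomial.constantCoeff p = 0 := by
    intro x hx
    refine Submodule.span_induction (p := fun (x : S a b u v) _ =>
      ∃ p : MvPolynomial (Fin 2) (IntermediateField.adjoin ℂ {a, b}),
        MvPolynomial.aeval ![u, v] p = (x : K) ∧ MvPolynomial.constantCoeff p = 0)
      ?_ ?_ ?_ ?_ hx
    · intro x hx
      exact gen x hx
    · exact ⟨0, by simp, by simp⟩
    · rintro x y _ _ ⟨p, hp, hp0⟩ ⟨q, hq, hq0⟩
      refine ⟨p + q, ?_, ?_⟩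
      · rw [map_add, hp, hq]; rfl
      · rw [map_add, hp0, hq0, add_zero]
    · rintro s x _ ⟨p, hp, hp0⟩
      obtain ⟨q, hq⟩ := hS s s.2
      refine ⟨q * p, ?_, ?_⟩
      · rw [map_mul, hp, hq]; rfl
      · rw [map_mul, hp0, mul_zero]
  intro h1
  obtain ⟨p, hp, hp0⟩ := hm 1 h1
  have h2 : p = 1 := hinj (by rw [hp, map_one]; rfl)
  rw [h2, map_one] at hp0
  exact one_ne_zero hp0

/-- the constant term of an element of the graded ring `S` -/
theorem exists_const {a b u v : K} (h : Quad a b u v) :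
    ∃ φ : S a b u v →ₐ[ℂ] ℂ, ∀ x, φ x = 0 ↔ x ∈ m₀ a b u v := by
  have h1 := aux_one_not_mem h
  have hnt : Nontrivial (S a b u v ⧸ m₀ a b u v) :=
    Ideal.Quotient.nontrivial_iff.2 (fun h2 => h1 (by rw [h2]; trivial))
  have hsurj : ∀ (y : K) (hy : y ∈ S a b u v), ∃ c : ℂ,
      Ideal.Quotient.mk (m₀ a b u v) ⟨y, hy⟩ = algebraMap ℂ (S a b u v ⧸ m₀ a b u v) c := by
    intro y hy
    induction hy using Algebra.adjoin_induction with
    | mem x hx =>
      refine ⟨0, ?_⟩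
      rw [map_zero, Ideal.Quotient.eq_zero_iff_mem]
      refine Ideal.subset_span ?_
      change x = u ∨ x = a * u ∨ x = b * u ∨ x = v ∨ x = a * v ∨ x = b * v
      simpa using hx
    | algebraMap c => exact ⟨c, rfl⟩
    | add x y hx hy h1 h2 =>
      obtain ⟨c, hc⟩ := h1
      obtain ⟨d, hd⟩ := h2
      refine ⟨c + d, ?_⟩
      rw [map_add, ← hc, ← hd, ← map_add]
      rfl
    | mul x y hx hy h1 h2 =>
      obtain ⟨c, hc⟩ := h1
      obtain ⟨d, hd⟩ := h2
      refine ⟨c * d, ?_⟩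
      rw [map_mul, ← hc, ← hd, ← map_mul]
      rfl
  have hbij : Function.Bijective (Algebra.ofId ℂ (S a b u v ⧸ m₀ a b u v)) := by
    refine ⟨(algebraMap ℂ (S a b u v ⧸ m₀ a b u v)).injective, ?_⟩
    intro q
    obtain ⟨x, rfl⟩ := Ideal.Quotient.mk_surjective q
    obtain ⟨c, hc⟩ := hsurj x.1 x.2
    exact ⟨c, hc.symm⟩
  let e : ℂ ≃ₐ[ℂ] (S a b u v ⧸ m₀ a b u v) := AlgEquiv.ofBijective _ hbij
  refine ⟨(AlgEquiv.toAlgHom e.symm).comp (Ideal.Quotient.mkₐ ℂ (m₀ a b u v)), ?_⟩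
  intro x
  change e.symm (Ideal.Quotient.mk (m₀ a b u v) x) = 0 ↔ _
  rw [map_eq_zero_iff e.symm e.symm.injective, Ideal.Quotient.eq_zero_iff_mem]

end ComplexityOne
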