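import Mathlib
import Pool.Agent.Helper271.CY.Defs
import Pool.Agent.Helper271.CY.J_Rquad
import Pool.Agent.Helper271.CY.J_Tprime

universe u

namespace ComplexityOne

variable {K : Type u} [Field K] [Algebra ℂ K]

theorem exists_loc_aux (A : Subalgebra ℂ K) (hfg : A.FG) (t : K) (ht : t ∈ A) (ht0 : t ≠ 0)
    (hprime : ∀ x ∈ A, ∀ y ∈ A, (∃ c ∈ A, x * y = t * c) →
      (∃ c ∈ A, x = t * c) ∨ (∃ c ∈ A, y = t * c))
    (h1 : ¬ ∃ c ∈ A, 1 = t * c) : ∃ P : Subalgebra ℂ K,
    IsLocAt A t P ∧ IsLocalRingOf A P ∧ IsDiscreteValuationRing P := by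
  classical
  let q : Ideal A := Ideal.span {(⟨t, ht⟩ : A)}
  have hq : ∀ s : A, s ∈ q ↔ ∃ c : A, (s : K) = t * c := by
    intro s
    rw [Ideal.mem_span_singleton']
    constructor
    · rintro ⟨a, ha⟩
      refine ⟨a, ?_⟩
      rw [← ha]
      push_cast
      ring
    · rintro ⟨c, hc⟩
      refine ⟨c, ?_⟩
      apply Subtype.ext
      push_cast
      rw [hc]
      ring
  have hqp : q.IsPrime := by
    refine ⟨?_, ?_⟩
    · rw [Ideal.ne_top_iff_one]
      intro h
      obtain ⟨c, hc⟩ := (hq 1).mp h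
      exact h1 ⟨c, c.2, by simpa using hc⟩
    · intro x y hxy
      obtain ⟨c, hc⟩ := (hq (x * y)).mp hxy
      rcases hprime x x.2 y y.2 ⟨c, c.2, by simpa using hc⟩ with ⟨d, hd, hd2⟩ | ⟨d, hd, hd2⟩
      · exact Or.inl ((hq x).mpr ⟨⟨d, hd⟩, hd2⟩)
      · exact Or.inr ((hq y).mpr ⟨⟨d, hd⟩, hd2⟩)
  have hne : ∀ s : A, s ∉ q → (s : K) ≠ 0 := by
    intro s hs h0
    apply hs
    have : s = 0 := Subtype.ext h0
    rw [this]
    exact q.zero_mem
  let P : Subalgebra ℂ K :=
    { carrier := {x | ∃ r s : A, s ∉ q ∧ x = (r : K) / (s : K)}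
      mul_mem' := by
        rintro x y ⟨r, s, hs, rfl⟩ ⟨r', s', hs', rfl⟩
        refine ⟨r * r', s * s', ?_, ?_⟩
        · intro h
          rcases hqp.mem_or_mem h with h | h
          · exact hs h
          · exact hs' h
        · push_cast
          rw [div_mul_div_comm]
      add_mem' := by
        rintro x y ⟨r, s, hs, rfl⟩ ⟨r', s', hs', rfl⟩
        refine ⟨r * s' + s * r', s * s', ?_, ?_⟩
        · intro h
          rcases hqp.mem_or_mem h with h | h
          · exact hs h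
          · exact hs' h
        · push_cast
          rw [div_add_div _ _ (hne s hs) (hne s' hs')]
      algebraMap_mem' := by
        intro z
        refine ⟨algebraMap ℂ A z, 1, ?_, ?_⟩
        · exact (Ideal.ne_top_iff_one q).mp hqp.ne_top
        · simp }
  have hmem : ∀ x : K, x ∈ P ↔ ∃ r s : A, s ∉ q ∧ x = (r : K) / (s : K) := fun x => Iff.rfl
  have hAP : A ≤ P := by
    intro x hx
    exact (hmem x).mpr ⟨⟨x, hx⟩, 1, (Ideal.ne_top_iff_one q).mp hqp.ne_top, by simp⟩
  refine ⟨P, ?_, ⟨q, hqp, hmem⟩, ?_⟩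
  · intro x
    rw [hmem]
    constructor
    · rintro ⟨r, s, hs, hx⟩
      exact ⟨r, s, fun h => hs ((hq s).mpr h), hx⟩
    · rintro ⟨r, s, hs, hx⟩
      exact ⟨r, s, fun h => hs ((hq s).mp h), hx⟩
  · letI : Algebra A P := (Subalgebra.inclusion hAP).toRingHom.toAlgebra
    have hmap : ∀ x : A, ((algebraMap A P x : P) : K) = (x : K) := fun x => rfl
    haveI hloc : IsLocalization.AtPrime P q := by
      refine (isLocalization_iff _ _).mpr ⟨?_, ?_, ?_⟩
      · rintro ⟨y, hy⟩
        have hy' : y ∉ q := hy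
        have hy0 := hne y hy'
        have hinv : ((y : K))⁻¹ ∈ P := (hmem _).mpr ⟨1, y, hy', by simp⟩
        refine IsUnit.of_mul_eq_one (⟨(y : K)⁻¹, hinv⟩ : P) ?_
        apply Subtype.ext
        change (y : K) * (y : K)⁻¹ = 1
        exact mul_inv_cancel₀ hy0
      · rintro ⟨z, hz⟩
        obtain ⟨r, s, hs, hx⟩ := (hmem z).mp hz
        refine ⟨(r, ⟨s, hs⟩), ?_⟩
        apply Subtype.ext
        change z * (s : K) = (r : K)
        rw [hx, div_mul_cancel₀ _ (hne s hs)]
      · intro x y hxy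
        refine ⟨1, ?_⟩
        have : (x : K) = (y : K) := by
          rw [← hmap x, ← hmap y, hxy]
        rw [Subtype.ext this]
    haveI : IsNoetherianRing A := by
      haveI : Algebra.FiniteType ℂ A := A.fg_iff_finiteType.mp hfg
      exact Algebra.FiniteType.isNoetherianRing ℂ A
    haveI : IsNoetherianRing P := IsLocalization.isNoetherianRing q.primeCompl P inferInstance
    haveI : IsLocalRing P := IsLocalization.AtPrime.isLocalRing P q
    have hnf : ¬ IsField P := by
      intro hF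
      have htP : t ∈ P := hAP ht
      have ht0' : (⟨t, htP⟩ : P) ≠ 0 := by
        intro h
        exact ht0 (congrArg Subtype.val h)
      obtain ⟨b, hb⟩ := hF.mul_inv_cancel ht0'
      obtain ⟨r, s, hs, hx⟩ := (hmem b).mp b.2
      have hb' : t * (b : K) = 1 := congrArg Subtype.val hb
      apply hs
      refine (hq s).mpr ⟨r, ?_⟩
      have hs0 := hne s hs
      rw [hx] at hb'
      field_simp at hb'
      exact hb'.symm
    have hprin : (IsLocalRing.maximalIdeal P).IsPrincipal := by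
      rw [← IsLocalization.AtPrime.map_eq_maximalIdeal q P]
      rw [show q = Ideal.span {(⟨t, ht⟩ : A)} from rfl, Ideal.map_span, Set.image_singleton]
      exact ⟨⟨_, rfl⟩⟩
    exact ((IsDiscreteValuationRing.TFAE P hnf).out 4 0).mp hprin

theorem R_fg (a b u v : K) : (R a b u v).FG := by
  classical
  refine ⟨{a, b, v / u, u⁻¹}, ?_⟩
  unfold R
  congr 1
  simp

theorem mem1 (a b u v : K) : v / u ∈ R a b u v :=
  Algebra.subset_adjoin (by simp)

theorem mem2 (a b u v : K) : u⁻¹ ∈ R a b u v :=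
  Algebra.subset_adjoin (by simp)

theorem exists_Dv {a b u v : K} (h : Quad a b u v) : ∃ P : Subalgebra ℂ K,
    IsLocAt (R a b u v) (v / u) P ∧ IsLocalRingOf (R a b u v) P ∧ IsDiscreteValuationRing P := by
  obtain ⟨p1, p2, n1, n2, n3, n4, -, -⟩ := T_prime h.chart (R a b u v) rfl
  refine exists_loc_aux (R a b u v) (R_fg a b u v) (v / u) (mem1 a b u v) ?_ p1 n3
  intro h0
  exact n2 ⟨0, (R a b u v).zero_mem, by rw [h0]; ring⟩

theorem exists_Dw {a b u v : K} (h : Quad a b u v) : ∃ P : Subalgebra ℂ K,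
    IsLocAt (R a b u v) u⁻¹ P ∧ IsLocalRingOf (R a b u v) P ∧ IsDiscreteValuationRing P := by
  obtain ⟨p1, p2, n1, n2, n3, n4, -, -⟩ := T_prime h.chart (R a b u v) rfl
  refine exists_loc_aux (R a b u v) (R_fg a b u v) u⁻¹ (mem2 a b u v) ?_ p2 n4
  intro h0
  exact n1 ⟨0, (R a b u v).zero_mem, by rw [h0]; ring⟩

end ComplexityOne
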