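import Mathlib
import Pool.Agent.Helper271.CY.Defs

universe u

namespace ComplexityOne

variable {K : Type u} [Field K] [Algebra ℂ K]

theorem exists_quad : ∃ (K : Type) (_ : Field K) (_ : Algebra ℂ K) (a b u v : K), Quad a b u v := by
  obtain ⟨Ω, _, _, _, x, hx⟩ : ∃ (Ω : Type) (_ : Field Ω) (_ : Algebra ℂ Ω) (_ : IsAlgClosed Ω)
      (x : Fin 3 → Ω), AlgebraicIndependent ℂ x := by
    let K0 := FractionRing (MvPolynomial (Fin 3) ℂ)
    let Ω := AlgebraicClosure K0
    let f : MvPolynomial (Fin 3) ℂ →ₐ[ℂ] K0 := IsScalarTower.toAlgHom ℂ _ _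
    let g : K0 →ₐ[ℂ] Ω := IsScalarTower.toAlgHom ℂ _ _
    have hf : Function.Injective f := IsFractionRing.injective (MvPolynomial (Fin 3) ℂ) K0
    have hg : Function.Injective g := (algebraMap K0 Ω).injective
    refine ⟨Ω, inferInstance, inferInstance, inferInstance,
      (g.comp f) ∘ (MvPolynomial.X : Fin 3 → MvPolynomial (Fin 3) ℂ), ?_⟩
    rw [AlgHom.algebraicIndependent_iff (g.comp f) (hg.comp hf)]
    exact MvPolynomial.algebraicIndependent_X (Fin 3) ℂ
  obtain ⟨b, hb⟩ := IsAlgClosed.exists_pow_nat_eq (1 - (x 0) ^ 3) (n := 3) (by norm_num)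
  obtain ⟨L, hL⟩ : ∃ L : IntermediateField ℂ Ω,
    L = IntermediateField.adjoin ℂ {x 0, b, x 1, x 2} := ⟨_, rfl⟩
  have h0 : x 0 ∈ L := by
    rw [hL]; apply IntermediateField.subset_adjoin; simp
  have h1 : x 1 ∈ L := by
    rw [hL]; apply IntermediateField.subset_adjoin; simp
  have h2 : x 2 ∈ L := by
    rw [hL]; apply IntermediateField.subset_adjoin; simp
  have hbL : b ∈ L := by
    rw [hL]; apply IntermediateField.subset_adjoin; simp
  refine ⟨L, inferInstance, inferInstance, ⟨x 0, h0⟩, ⟨b, hbL⟩, ⟨x 1, h1⟩, ⟨x 2, h2⟩, ?_, ?_, ?_⟩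
  · apply Subtype.ext
    push_cast
    rw [hb]; ring
  · rw [← AlgHom.algebraicIndependent_iff L.val L.val.injective]
    have : (L.val ∘ ![⟨x 0, h0⟩, ⟨x 1, h1⟩, ⟨x 2, h2⟩] : Fin 3 → Ω) = x := by
      funext i
      fin_cases i <;> rfl
    rw [this]
    exact hx
  · apply IntermediateField.map_injective L.val
    rw [IntermediateField.adjoin_map, ← AlgHom.fieldRange_eq_map, IntermediateField.fieldRange_val]
    refine Eq.trans ?_ hL.symm
    congr 1
    ext y
    simp only [Set.mem_image, Set.mem_insert_iff, Set.mem_singleton_iff]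
    constructor
    · rintro ⟨z, hz | hz | hz | hz, rfl⟩ <;> subst hz <;> simp
    · rintro (rfl | rfl | rfl | rfl)
      · exact ⟨_, Or.inl rfl, rfl⟩
      · exact ⟨_, Or.inr (Or.inl rfl), rfl⟩
      · exact ⟨_, Or.inr (Or.inr (Or.inl rfl)), rfl⟩
      · exact ⟨_, Or.inr (Or.inr (Or.inr rfl)), rfl⟩

end ComplexityOne
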