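import Mathlib
import Pool.Agent.Helper271.CY.Defs

universe u

namespace ComplexityOne

variable {K : Type u} [Field K] [Algebra ℂ K]

theorem generic_point {a b u v : K} (h : Quad a b u v) : IsPoint (V a b u v) ⊤ := by
  have hu0 : u ≠ 0 := by
    have := h.indep.ne_zero 1
    simpa using this
  have hmem : ∀ g ∈ V a b u v, g ∈ chart (V a b u v) (1 : K) := by
    intro g hg
    exact Algebra.subset_adjoin ⟨g, hg, by simp⟩
  have hV : ∀ g ∈ ({1, u, a * u, b * u, v, a * v, b * v} : Set K), g ∈ chart (V a b u v) (1 : K) := by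
    intro g hg
    exact hmem g (Submodule.subset_span hg)
  refine ⟨1, Submodule.subset_span (by simp), one_ne_zero, ⊥, inferInstance, ?_⟩
  have key : ∀ x ∈ IntermediateField.adjoin ℂ ({a, b, u, v} : Set K),
      ∃ r ∈ chart (V a b u v) (1 : K), ∃ s ∈ chart (V a b u v) (1 : K), s ≠ 0 ∧ x = r / s := by
    intro x hx
    induction hx using IntermediateField.adjoin_induction with
    | mem x hx =>
      rcases hx with rfl | rfl | rfl | rfl
      · exact ⟨_, hV (x * u) (by simp), u, hV u (by simp), hu0, by field_simp⟩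
      · exact ⟨_, hV (x * u) (by simp), u, hV u (by simp), hu0, by field_simp⟩
      · exact ⟨_, hV x (by simp), 1, one_mem _, one_ne_zero, by simp⟩
      · exact ⟨_, hV x (by simp), 1, one_mem _, one_ne_zero, by simp⟩
    | algebraMap c =>
      exact ⟨_, Subalgebra.algebraMap_mem _ c, 1, one_mem _, one_ne_zero, by simp⟩
    | add x y _ _ hx hy =>
      obtain ⟨r, hr, s, hs, hs0, rfl⟩ := hx
      obtain ⟨r', hr', s', hs', hs0', rfl⟩ := hy
      exact ⟨r * s' + s * r', add_mem (mul_mem hr hs') (mul_mem hs hr'), s * s', mul_mem hs hs',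
        mul_ne_zero hs0 hs0', div_add_div _ _ hs0 hs0'⟩
    | inv x _ hx =>
      obtain ⟨r, hr, s, hs, hs0, rfl⟩ := hx
      by_cases hr0 : r = 0
      · subst hr0
        exact ⟨0, zero_mem _, 1, one_mem _, one_ne_zero, by simp⟩
      · exact ⟨s, hs, r, hr, hr0, inv_div _ _⟩
    | mul x y _ _ hx hy =>
      obtain ⟨r, hr, s, hs, hs0, rfl⟩ := hx
      obtain ⟨r', hr', s', hs', hs0', rfl⟩ := hy
      exact ⟨r * r', mul_mem hr hr', s * s', mul_mem hs hs', mul_ne_zero hs0 hs0',
        div_mul_div_comm _ _ _ _⟩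
  intro x
  constructor
  · intro _
    obtain ⟨r, hr, s, hs, hs0, hx⟩ := key x (by rw [h.top]; trivial)
    refine ⟨⟨r, hr⟩, ⟨s, hs⟩, ?_, hx⟩
    intro hmem
    rw [Ideal.mem_bot] at hmem
    exact hs0 (congrArg Subtype.val hmem)
  · intro _
    trivial

end ComplexityOne
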