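import Mathlib
import Pool.Agent.Helper271.CY.Defs
import Pool.Agent.Helper271.CY.J_dvrprime
import Pool.Agent.Helper271.CY.J_generic
import Pool.Agent.Helper271.CY.J_chartS

universe u

namespace ComplexityOne

variable {K : Type u} [Field K] [Algebra ℂ K]

theorem fs_frac {a b u v : K} (h : Quad a b u v) (x : K) :
    ∃ r ∈ S a b u v, ∃ s ∈ S a b u v, r / s = x := by
  have hcl : ∀ y : K, y ∈ Subfield.closure ((S a b u v : Subalgebra ℂ K) : Set K) →
      ∃ r ∈ S a b u v, ∃ s ∈ S a b u v, r / s = y := by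
    intro y hy
    rw [Subfield.mem_closure_iff] at hy
    obtain ⟨r, hr, s, hs, hrs⟩ := hy
    have e : Subring.closure ((S a b u v : Subalgebra ℂ K) : Set K) = (S a b u v).toSubring :=
      Subring.closure_eq (S a b u v).toSubring
    rw [e] at hr hs
    exact ⟨r, hr, s, hs, hrs⟩
  refine hcl x ?_
  have hV : ∀ g ∈ V a b u v, g ∈ S a b u v := by
    intro g hg
    rw [← chart_one (a := a) (b := b) (u := u) (v := v)]
    exact Algebra.subset_adjoin ⟨g, hg, by simp⟩
  obtain ⟨f, hf, hf0, q, hq, hx⟩ := generic_point h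
  obtain ⟨r, s, -, hrs⟩ := (hx x).1 (Algebra.mem_top)
  have hch : ∀ y ∈ chart (V a b u v) f,
      y ∈ Subfield.closure ((S a b u v : Subalgebra ℂ K) : Set K) := by
    intro y hy
    refine Algebra.adjoin_induction ?_ ?_ ?_ ?_ hy
    · rintro z ⟨g, hg, rfl⟩
      exact div_mem (Subfield.subset_closure (hV g hg)) (Subfield.subset_closure (hV f hf))
    · intro c
      exact Subfield.subset_closure ((S a b u v).algebraMap_mem c)
    · intro z w _ _ hz hw
      exact add_mem hz hw
    · intro z w _ _ hz hw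
      exact mul_mem hz hw
  rw [hrs]
  exact div_mem (hch _ r.2) (hch _ s.2)

theorem fs_noeth (a b u v : K) : IsNoetherianRing (S a b u v) := by
  refine isNoetherianRing_of_fg (Subalgebra.fg_def.2 ⟨{u, a * u, b * u, v, a * v, b * v}, ?_, rfl⟩)
  exact Set.toFinite _

/-- Only finitely many local rings of `S` which are discrete valuation rings have non zero order of
a given rational function. -/
theorem finite_support {a b u v : K} (h : Quad a b u v) {g : K} (hg : g ≠ 0) :
    {P : Subalgebra ℂ K | IsLocalRingOf (S a b u v) P ∧ IsDiscreteValuationRing P ∧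
      ¬ HasOrder P g 0}.Finite := by
  obtain ⟨r, hr, s, hs, hrs⟩ := fs_frac h g
  have hr0 : r ≠ 0 := by
    rintro rfl
    exact hg (by rw [← hrs, zero_div])
  have hs0 : s ≠ 0 := by
    rintro rfl
    exact hg (by rw [← hrs, div_zero])
  haveI := fs_noeth a b u v
  have hfin : (((Ideal.span {(⟨r, hr⟩ : S a b u v)}).minimalPrimes) ∪
      ((Ideal.span {(⟨s, hs⟩ : S a b u v)}).minimalPrimes)).Finite :=
    (Ideal.finite_minimalPrimes_of_isNoetherianRing _ _).union
      (Ideal.finite_minimalPrimes_of_isNoetherianRing _ _)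
  classical
  refine Set.Finite.of_injOn (f := fun P : Subalgebra ℂ K =>
    if hP : IsLocalRingOf (S a b u v) P then hP.choose else ⊥) ?_ ?_ hfin
  · rintro P ⟨hP, hD, hno⟩
    simp only [dif_pos hP]
    obtain ⟨hq, hPq⟩ := hP.choose_spec
    set q := hP.choose with hqdef
    have hmin : ∀ (t : K) (ht : t ∈ S a b u v), t ≠ 0 → (⟨t, ht⟩ : S a b u v) ∈ q →
        q ∈ (Ideal.span {(⟨t, ht⟩ : S a b u v)}).minimalPrimes := by
      intro t ht ht0 htq
      refine ⟨⟨hq, ?_⟩, ?_⟩
      · rw [Ideal.span_singleton_le_iff_mem]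
        exact htq
      · rintro q' ⟨hq', hle'⟩ hle
        rcases dvr_height q hq hPq hD q' hq' hle with h0 | h0
        · exfalso
          rw [h0, Ideal.span_singleton_le_iff_mem, Ideal.mem_bot] at hle'
          exact ht0 (congrArg Subtype.val hle')
        · rw [h0]
    by_cases hrq : (⟨r, hr⟩ : S a b u v) ∈ q
    · exact Or.inl (hmin r hr hr0 hrq)
    · by_cases hsq : (⟨s, hs⟩ : S a b u v) ∈ q
      · exact Or.inr (hmin s hs hs0 hsq)
      · exfalso
        apply hno
        obtain ⟨t, ht⟩ := IsDiscreteValuationRing.exists_irreducible P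
        have h1 : g ∈ P := (hPq g).2 ⟨⟨r, hr⟩, ⟨s, hs⟩, hsq, hrs.symm⟩
        have h2 : g⁻¹ ∈ P := (hPq g⁻¹).2 ⟨⟨s, hs⟩, ⟨r, hr⟩, hrq, by
          rw [← hrs, inv_div]⟩
        refine ⟨t, ⟨g, h1⟩, ht, ?_, by simp⟩
        refine IsUnit.of_mul_eq_one (⟨g⁻¹, h2⟩ : P) ?_
        exact Subtype.ext (mul_inv_cancel₀ hg)
  · rintro P ⟨hP, -, -⟩ Q ⟨hQ, -, -⟩ hPQ
    simp only [dif_pos hP, dif_pos hQ] at hPQ
    obtain ⟨-, hPq⟩ := hP.choose_spec
    obtain ⟨-, hQq⟩ := hQ.choose_spec
    rw [← hPQ] at hQq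
    ext x
    rw [hPq x, hQq x]

end ComplexityOne
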