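import Mathlib
import Pool.Agent.Helper271.CY.Defs

universe u

namespace ComplexityOne

variable {K : Type u} [Field K] [Algebra ℂ K]

theorem form_order_perm {n : ℕ} (z : Fin n → Ω[K⁄ℂ]) (r : Fin n → Fin n) (P : Subalgebra ℂ K) :
    ∃ c : K, c ∈ P ∧ ExteriorAlgebra.ιMulti K n (fun i => z (r i))
      = c • ExteriorAlgebra.ιMulti K n z := by
  by_cases hr : Function.Injective r
  · have hb : Function.Bijective r := Finite.injective_iff_bijective.mp hr
    set e : Equiv.Perm (Fin n) := Equiv.ofBijective r hb with he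
    have h1 := (ExteriorAlgebra.ιMulti K n (M := Ω[K⁄ℂ])).map_perm z e
    have h2 : (z ∘ e) = fun i => z (r i) := by
      funext i
      rfl
    rw [h2] at h1
    rw [h1]
    rcases Int.units_eq_one_or (Equiv.Perm.sign e) with h | h
    · refine ⟨1, P.one_mem, ?_⟩
      rw [h, one_smul, one_smul]
    · refine ⟨-1, P.neg_mem P.one_mem, ?_⟩
      rw [h, neg_smul, one_smul]
      simp
  · refine ⟨0, P.zero_mem, ?_⟩
    rw [zero_smul]
    have hr' : ¬ Function.Injective (fun i => z (r i)) := fun h => hr (fun i j hij => h (by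
      show z (r i) = z (r j)
      rw [hij]))
    exact AlternatingMap.map_eq_zero_of_not_injective _ _ hr'

theorem form_order_span {n : ℕ} (P : Subalgebra ℂ K) (z w : Fin n → Ω[K⁄ℂ])
    (h : ∀ i, w i ∈ Submodule.span P (Set.range z)) :
    ∃ c : K, c ∈ P ∧ ExteriorAlgebra.ιMulti K n w = c • ExteriorAlgebra.ιMulti K n z := by
  classical
  choose c hc using fun i => (Submodule.mem_span_range_iff_exists_fun P).1 (h i)
  have hw : w = fun i => ∑ j, ((c i j : P) : K) • z j := by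
    funext i
    rw [← hc i]
    rfl
  have h1 := (ExteriorAlgebra.ιMulti K n (M := Ω[K⁄ℂ])).toMultilinearMap.map_sum
    (fun (i : Fin n) (j : Fin n) => ((c i j : P) : K) • z j)
  have h2 : ExteriorAlgebra.ιMulti K n w = ∑ r : Fin n → Fin n,
      ExteriorAlgebra.ιMulti K n (fun i => ((c i (r i) : P) : K) • z (r i)) := by
    rw [hw]
    exact h1
  have h3 : ∀ r : Fin n → Fin n, ExteriorAlgebra.ιMulti K n (fun i => ((c i (r i) : P) : K) • z (r i))
      = (∏ i, ((c i (r i) : P) : K)) • ExteriorAlgebra.ιMulti K n (fun i => z (r i)) := by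
    intro r
    exact (ExteriorAlgebra.ιMulti K n (M := Ω[K⁄ℂ])).toMultilinearMap.map_smul_univ
      (fun i => ((c i (r i) : P) : K)) (fun i => z (r i))
  choose d hd hdz using fun r : Fin n → Fin n => form_order_perm z r P
  refine ⟨∑ r : Fin n → Fin n, (∏ i, ((c i (r i) : P) : K)) * d r, ?_, ?_⟩
  · refine P.sum_mem (fun r _ => P.mul_mem (P.prod_mem (fun i _ => (c i (r i)).2)) (hd r))
  · rw [h2, Finset.sum_smul]
    apply Finset.sum_congr rfl
    intro r _
    rw [h3 r, hdz r, smul_smul]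

theorem form_order_RP {R' P : Subalgebra ℂ K} (hP : IsLocalRingOf R' P) : R' ≤ P := by
  obtain ⟨q, hq, hx⟩ := hP
  intro x hxR
  rw [hx]
  refine ⟨⟨x, hxR⟩, 1, (Ideal.ne_top_iff_one q).1 hq.ne_top, ?_⟩
  simp

theorem form_order_dspan {a b u v z0 : K} {P : Subalgebra ℂ K}
    (hP : IsLocalRingOf (R a b u v) P)
    (hDa : ∃ c ∈ P, KaehlerDifferential.D ℂ K a = c • KaehlerDifferential.D ℂ K z0)
    (hDb : ∃ c ∈ P, KaehlerDifferential.D ℂ K b = c • KaehlerDifferential.D ℂ K z0)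
    (x : K) (hx : x ∈ P) :
    KaehlerDifferential.D ℂ K x ∈ Submodule.span P
      (Set.range (fun i : Fin 3 => KaehlerDifferential.D ℂ K ((![z0, v / u, u⁻¹] : Fin 3 → K) i))) := by
  have hRP : R a b u v ≤ P := form_order_RP hP
  set M := Submodule.span P
      (Set.range (fun i : Fin 3 => KaehlerDifferential.D ℂ K ((![z0, v / u, u⁻¹] : Fin 3 → K) i))) with hM
  have h0 : KaehlerDifferential.D ℂ K z0 ∈ M := Submodule.subset_span ⟨0, rfl⟩
  have h1 : KaehlerDifferential.D ℂ K (v/u) ∈ M := Submodule.subset_span ⟨1, rfl⟩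
  have h2 : KaehlerDifferential.D ℂ K (u⁻¹) ∈ M := Submodule.subset_span ⟨2, rfl⟩
  have hsm : ∀ (c : K) (hc : c ∈ P) (m : Ω[K⁄ℂ]), m ∈ M → c • m ∈ M := fun c hc m hm =>
    M.smul_mem (⟨c, hc⟩ : P) hm
  have hR : ∀ y (hy : y ∈ R a b u v), KaehlerDifferential.D ℂ K y ∈ M := by
    intro y hy
    have hy' : y ∈ Algebra.adjoin ℂ {a, b, v / u, u⁻¹} := hy
    induction hy' using Algebra.adjoin_induction with
    | mem y hy2 =>
      simp only [Set.mem_insert_iff, Set.mem_singleton_iff] at hy2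
      rcases hy2 with rfl | rfl | rfl | rfl
      · obtain ⟨c, hc, e⟩ := hDa
        rw [e]; exact hsm c hc _ h0
      · obtain ⟨c, hc, e⟩ := hDb
        rw [e]; exact hsm c hc _ h0
      · exact h1
      · exact h2
    | algebraMap r =>
      rw [Derivation.map_algebraMap]
      exact M.zero_mem
    | add p q hp hq ihp ihq =>
      rw [map_add]
      exact M.add_mem (ihp hp) (ihq hq)
    | mul p q hp hq ihp ihq =>
      rw [Derivation.leibniz]
      exact M.add_mem (hsm p (hRP hp) _ (ihq hq)) (hsm q (hRP hq) _ (ihp hp))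
  obtain ⟨q, hq, hx'⟩ := hP
  obtain ⟨r, s, hs, rfl⟩ := (hx' x).1 hx
  have hs0 : (s : K) ≠ 0 := by
    intro h
    apply hs
    have : s = 0 := Subtype.ext h
    rw [this]
    exact q.zero_mem
  have hsinv : ((s : K))⁻¹ ∈ P := by
    rw [hx']
    refine ⟨1, s, hs, ?_⟩
    simp
  rw [Derivation.leibniz_div]
  refine hsm _ (P.pow_mem hsinv 2) _ (M.sub_mem ?_ ?_)
  · exact hsm _ (hRP s.2) _ (hR _ r.2)
  · exact hsm _ (hRP r.2) _ (hR _ s.2)

theorem form_order_core {a b u v z0 : K} {P : Subalgebra ℂ K}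
    (hP : IsLocalRingOf (R a b u v) P) {m : ℤ}
    (hm : HasOrder P (v / u * u⁻¹) m) (hz0 : z0 ∈ P)
    (hDa : ∃ c ∈ P, KaehlerDifferential.D ℂ K a = c • KaehlerDifferential.D ℂ K z0)
    (hDb : ∃ c ∈ P, KaehlerDifferential.D ℂ K b = c • KaehlerDifferential.D ℂ K z0)
    (ε : P) (hε : IsUnit ε)
    (hω : omega a b u v = ((ε : K) * (v / u * u⁻¹)⁻¹) • formOf ![z0, v / u, u⁻¹]) :
    HasFormOrder 3 P (omega a b u v) (-m) := by
  have hRP : R a b u v ≤ P := form_order_RP hP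
  refine ⟨![z0, v / u, u⁻¹], ?_, ?_, (ε : K) * (v / u * u⁻¹)⁻¹, ?_, hω⟩
  · intro i
    fin_cases i
    · exact hz0
    · exact hRP (Algebra.subset_adjoin (by simp))
    · exact hRP (Algebra.subset_adjoin (by simp))
  · intro z' hz'
    exact form_order_span P _ _ (fun i => form_order_dspan hP hDa hDb (z' i) (hz' i))
  · obtain ⟨t, e, ht, he, heq⟩ := hm
    obtain ⟨ei, hei⟩ := he
    refine ⟨t, ε * (ei⁻¹ : Pˣ), ht, hε.mul (Units.isUnit _), ?_⟩
    rw [heq, mul_inv, zpow_neg]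
    have h1 : ((e : P) : K)⁻¹ = (((ei⁻¹ : Pˣ) : P) : K) := by
      have h2 : (((ei⁻¹ : Pˣ) : P) : K) * ((ei : P) : K) = 1 := by
        rw [← Subalgebra.coe_mul, Units.inv_mul, Subalgebra.coe_one]
      rw [hei] at h2
      exact inv_eq_of_mul_eq_one_left h2
    rw [h1, Subalgebra.coe_mul]
    ring

theorem form_order_wedge {u v : K} (hu : u ≠ 0) (z : K) :
    formOf ![z, u, v] = (u ^ 3) • formOf ![z, v / u, u⁻¹] := by
  unfold formOf
  simp only [ExteriorAlgebra.ιMulti_succ_apply, ExteriorAlgebra.ιMulti_zero_apply, Matrix.vecTail,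
    Function.comp, mul_one]
  show ExteriorAlgebra.ι K (KaehlerDifferential.D ℂ K z) * (ExteriorAlgebra.ι K (KaehlerDifferential.D ℂ K u)
      * ExteriorAlgebra.ι K (KaehlerDifferential.D ℂ K v))
    = u ^ 3 • (ExteriorAlgebra.ι K (KaehlerDifferential.D ℂ K z) *
      (ExteriorAlgebra.ι K (KaehlerDifferential.D ℂ K (v / u)) *
        ExteriorAlgebra.ι K (KaehlerDifferential.D ℂ K u⁻¹)))
  rw [Derivation.leibniz_div, Derivation.leibniz_inv]
  simp only [map_smul, map_sub]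
  set Z := ExteriorAlgebra.ι K (KaehlerDifferential.D ℂ K z)
  set U := ExteriorAlgebra.ι K (KaehlerDifferential.D ℂ K u) with hU
  set V := ExteriorAlgebra.ι K (KaehlerDifferential.D ℂ K v) with hV
  have hUU : U * U = 0 := ExteriorAlgebra.ι_sq_zero _
  have hVU : V * U = - (U * V) := by
    have h := ExteriorAlgebra.ι_add_mul_swap (R := K) (KaehlerDifferential.D ℂ K v) (KaehlerDifferential.D ℂ K u)
    rw [← hU, ← hV] at h
    exact eq_neg_of_add_eq_zero_left h
  simp only [smul_mul_assoc, mul_smul_comm, sub_mul, mul_sub, hUU, hVU, smul_zero, sub_zero, mul_zero,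
    smul_smul, mul_neg, smul_neg, neg_smul, neg_mul, neg_neg]
  rw [show u ^ 3 * (u⁻¹ ^ 2 * (u⁻¹ ^ 2 * u)) = 1 by field_simp, one_smul]

theorem form_order_smul3 (c : K) (x y z w : K) (h : KaehlerDifferential.D ℂ K x = c • KaehlerDifferential.D ℂ K y) :
    formOf ![x, z, w] = c • formOf ![y, z, w] := by
  unfold formOf
  simp only [ExteriorAlgebra.ιMulti_succ_apply, ExteriorAlgebra.ιMulti_zero_apply, Matrix.vecTail,
    Function.comp, mul_one]
  show ExteriorAlgebra.ι K (KaehlerDifferential.D ℂ K x) * (ExteriorAlgebra.ι K (KaehlerDifferential.D ℂ K z)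
      * ExteriorAlgebra.ι K (KaehlerDifferential.D ℂ K w))
    = c • (ExteriorAlgebra.ι K (KaehlerDifferential.D ℂ K y) *
      (ExteriorAlgebra.ι K (KaehlerDifferential.D ℂ K z) *
        ExteriorAlgebra.ι K (KaehlerDifferential.D ℂ K w)))
  rw [h, map_smul, smul_mul_assoc]

theorem form_order {a b u v : K} (h : Quad a b u v) {P : Subalgebra ℂ K}
    (hP : IsLocalRingOf (R a b u v) P) (hD : IsDiscreteValuationRing P) {m : ℤ}
    (hm : HasOrder P (v / u * u⁻¹) m) : HasFormOrder 3 P (omega a b u v) (-m) := by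
  have hRP : R a b u v ≤ P := form_order_RP hP
  have hind := h.indep
  have ha0 : a ≠ 0 := hind.ne_zero 0
  have hu0 : u ≠ 0 := hind.ne_zero 1
  have hv0 : v ≠ 0 := hind.ne_zero 2
  have hcub := h.cubic
  have hb0 : b ≠ 0 := by
    intro hb
    rw [hb] at hcub
    have ha3 : a ^ 3 = 1 := by
      have : a ^ 3 + 0 ^ 3 = a ^ 3 := by ring
      rw [← this]; exact hcub
    have hp : MvPolynomial.aeval ![a, u, v] ((MvPolynomial.X 0 : MvPolynomial (Fin 3) ℂ) ^ 3 - 1) = 0 := by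
      rw [map_sub, map_pow, MvPolynomial.aeval_X, map_one]
      show a ^ 3 - 1 = 0
      rw [ha3, sub_self]
    have hp0 := hind.eq_zero_of_aeval_eq_zero _ hp
    have hev := congrArg (MvPolynomial.eval (fun _ : Fin 3 => (0:ℂ))) hp0
    simp at hev
  have h3 : (3 : K) ≠ 0 := by
    rw [← map_ofNat (algebraMap ℂ K) 3, Ne, map_eq_zero]
    norm_num
  -- the relation between the differentials
  have hrel : b ^ 2 • KaehlerDifferential.D ℂ K b = -(a ^ 2 • KaehlerDifferential.D ℂ K a) := by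
    have h1 : KaehlerDifferential.D ℂ K (a ^ 3 + b ^ 3) = 0 := by
      rw [hcub]
      exact Derivation.map_one_eq_zero _
    rw [map_add, Derivation.leibniz_pow, Derivation.leibniz_pow] at h1
    have h2 : (3 : K) • (a ^ 2 • KaehlerDifferential.D ℂ K a + b ^ 2 • KaehlerDifferential.D ℂ K b) = 0 := by
      rw [← h1, smul_add]
      simp only [show 3 - 1 = 2 from rfl]
      rw [← Nat.cast_smul_eq_nsmul K 3, ← Nat.cast_smul_eq_nsmul K 3]
      rfl
    have h4 := (smul_eq_zero.mp h2).resolve_left h3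
    rw [eq_neg_iff_add_eq_zero, add_comm]
    exact h4
  have haP : a ∈ P := hRP (Algebra.subset_adjoin (by simp))
  have hbP : b ∈ P := hRP (Algebra.subset_adjoin (by simp))
  have hunit : IsUnit ((⟨a, haP⟩ : P) ^ 3) ∨ IsUnit ((⟨b, hbP⟩ : P) ^ 3) := by
    apply IsLocalRing.isUnit_or_isUnit_of_add_one
    apply Subtype.ext
    simpa using hcub
  have hom : omega a b u v = (b ^ 2 * (v / u * u⁻¹))⁻¹ • formOf ![a, v / u, u⁻¹] := by
    unfold omega
    rw [form_order_wedge hu0, smul_smul]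
    congr 1
    field_simp
  have hinvP : ∀ (x : K) (hx : x ∈ P), IsUnit (⟨x, hx⟩ : P) → x⁻¹ ∈ P := by
    intro x hx hxu
    obtain ⟨xu, hxu'⟩ := hxu
    have h2 : (((xu⁻¹ : Pˣ) : P) : K) * ((xu : P) : K) = 1 := by
      rw [← Subalgebra.coe_mul, Units.inv_mul, Subalgebra.coe_one]
    rw [hxu'] at h2
    rw [inv_eq_of_mul_eq_one_left h2]
    exact Subtype.mem _
  rcases hunit with hau | hbu
  · -- `a` is a unit
    have hau' : IsUnit (⟨a, haP⟩ : P) := (isUnit_pow_iff (by norm_num)).mp hau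
    have hai := hinvP a haP hau'
    have hDa : KaehlerDifferential.D ℂ K a = (-(b ^ 2 * (a⁻¹) ^ 2)) • KaehlerDifferential.D ℂ K b := by
      have e : KaehlerDifferential.D ℂ K a = (a⁻¹) ^ 2 • (a ^ 2 • KaehlerDifferential.D ℂ K a) := by
        rw [smul_smul, show (a⁻¹) ^ 2 * a ^ 2 = 1 by field_simp, one_smul]
      have e2 : a ^ 2 • KaehlerDifferential.D ℂ K a = -(b ^ 2 • KaehlerDifferential.D ℂ K b) := by
        rw [hrel, neg_neg]
      rw [e2] at e
      rw [e, smul_neg, smul_smul, neg_smul, mul_comm]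
    have hεm : -((a⁻¹) ^ 2) ∈ P := P.neg_mem (P.pow_mem hai 2)
    refine form_order_core (z0 := b) hP hm hbP ⟨_, P.neg_mem (P.mul_mem (P.pow_mem hbP 2) (P.pow_mem hai 2)), hDa⟩
      ⟨1, P.one_mem, (one_smul _ _).symm⟩ (⟨-((a⁻¹) ^ 2), hεm⟩ : P) ?_ ?_
    · refine IsUnit.of_mul_eq_one (⟨-(a ^ 2), P.neg_mem (P.pow_mem haP 2)⟩ : P) ?_
      apply Subtype.ext
      show (-((a⁻¹) ^ 2)) * (-(a ^ 2)) = 1
      field_simp
    · rw [hom, form_order_smul3 _ _ _ _ _ hDa, smul_smul]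
      congr 1
      show _ = (-((a⁻¹) ^ 2)) * (v / u * u⁻¹)⁻¹
      field_simp
  · have hbu' : IsUnit (⟨b, hbP⟩ : P) := (isUnit_pow_iff (by norm_num)).mp hbu
    have hbi := hinvP b hbP hbu'
    have hDb : KaehlerDifferential.D ℂ K b = (-(a ^ 2 * (b⁻¹) ^ 2)) • KaehlerDifferential.D ℂ K a := by
      have e : KaehlerDifferential.D ℂ K b = (b⁻¹) ^ 2 • (b ^ 2 • KaehlerDifferential.D ℂ K b) := by
        rw [smul_smul, show (b⁻¹) ^ 2 * b ^ 2 = 1 by field_simp, one_smul]
      rw [hrel] at e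
      rw [e, smul_neg, smul_smul, neg_smul, mul_comm]
    have hεm : (b⁻¹) ^ 2 ∈ P := P.pow_mem hbi 2
    refine form_order_core (z0 := a) hP hm haP ⟨1, P.one_mem, (one_smul _ _).symm⟩
      ⟨_, P.neg_mem (P.mul_mem (P.pow_mem haP 2) (P.pow_mem hbi 2)), hDb⟩ (⟨(b⁻¹) ^ 2, hεm⟩ : P) ?_ ?_
    · refine IsUnit.of_mul_eq_one (⟨b ^ 2, P.pow_mem hbP 2⟩ : P) ?_
      apply Subtype.ext
      show (b⁻¹) ^ 2 * b ^ 2 = 1
      field_simp
    · rw [hom]
      congr 1
      show _ = (b⁻¹) ^ 2 * (v / u * u⁻¹)⁻¹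
      rw [mul_inv, inv_pow]

end ComplexityOne
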