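import Mathlib
import Pool.Agent.Helper271.CY.Defs

universe u

namespace ComplexityOne

variable {K : Type u} [Field K] [Algebra ℂ K]

theorem frac_R {a b u v : K} (h : Quad a b u v) {P : Subalgebra ℂ K} (hP : R a b u v ≤ P) (x : K) :
    ∃ r s : P, (s : K) ≠ 0 ∧ x = (r : K) / s := by
  have hu : u ≠ 0 := by
    have := h.indep.ne_zero 1
    simpa using this
  have ha : a ∈ P := hP (Algebra.subset_adjoin (by simp))
  have hb : b ∈ P := hP (Algebra.subset_adjoin (by simp))
  have hvu : v / u ∈ P := hP (Algebra.subset_adjoin (by simp))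
  have hui : u⁻¹ ∈ P := hP (Algebra.subset_adjoin (by simp))
  have hx : x ∈ IntermediateField.adjoin ℂ {a, b, u, v} := by rw [h.top]; trivial
  induction hx using IntermediateField.adjoin_induction with
  | mem y hy =>
    rcases hy with rfl | rfl | rfl | hy
    · exact ⟨⟨y, ha⟩, 1, by simp, by simp⟩
    · exact ⟨⟨y, hb⟩, 1, by simp, by simp⟩
    · exact ⟨1, ⟨y⁻¹, hui⟩, by simpa using hu, by simp⟩
    · have hy' : y = v := hy
      refine ⟨⟨v / u, hvu⟩, ⟨u⁻¹, hui⟩, by simpa using hu, ?_⟩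
      rw [hy']
      show v = v / u / u⁻¹
      field_simp
  | algebraMap c =>
    exact ⟨algebraMap ℂ P c, 1, by simp, by simp⟩
  | add y z _ _ hy hz =>
    obtain ⟨r1, s1, h1, e1⟩ := hy
    obtain ⟨r2, s2, h2, e2⟩ := hz
    refine ⟨r1 * s2 + r2 * s1, s1 * s2, ?_, ?_⟩
    · simpa using ⟨by simpa using h1, by simpa using h2⟩
    · rw [e1, e2, div_add_div _ _ h1 h2]
      push_cast
      ring
  | mul y z _ _ hy hz =>
    obtain ⟨r1, s1, h1, e1⟩ := hy
    obtain ⟨r2, s2, h2, e2⟩ := hz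
    refine ⟨r1 * r2, s1 * s2, ?_, ?_⟩
    · simpa using ⟨by simpa using h1, by simpa using h2⟩
    · rw [e1, e2, div_mul_div_comm]
      push_cast
      rfl
  | inv y _ hy =>
    obtain ⟨r1, s1, h1, e1⟩ := hy
    by_cases hr : (r1 : K) = 0
    · refine ⟨0, 1, by simp, ?_⟩
      rw [e1, hr]
      simp
    · refine ⟨s1, r1, hr, ?_⟩
      rw [e1, inv_div]

end ComplexityOne
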