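import Mathlib
import Pool.Agent.Helper271.CY.J_polynormal

universe u

namespace ComplexityOne

/-- Kronecker substitution -/
noncomputable def kr833 {R : Type*} [CommRing R] (N : ℕ) : MvPolynomial (Fin 2) R →+* Polynomial R :=
  MvPolynomial.eval₂Hom Polynomial.C ![Polynomial.X, Polynomial.X ^ N]

theorem kr_eq833 {R : Type*} [CommRing R] (N : ℕ) (g : MvPolynomial (Fin 2) R) :
    kr833 N g = ∑ m ∈ g.support,
      Polynomial.C (g.coeff m) * Polynomial.X ^ (m 0 + N * m 1) := by
  unfold kr833
  rw [MvPolynomial.coe_eval₂Hom, MvPolynomial.eval₂_eq']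
  refine Finset.sum_congr rfl fun m _ => ?_
  rw [Fin.prod_univ_two]
  show Polynomial.C (g.coeff m) * (Polynomial.X ^ (m 0) * (Polynomial.X ^ N) ^ (m 1)) = _
  rw [← pow_mul, ← pow_add]

theorem kr_coeff833 {R : Type*} [CommRing R] (N : ℕ) (g : MvPolynomial (Fin 2) R) (k : ℕ) :
    (kr833 N g).coeff k = ∑ m ∈ g.support, if k = m 0 + N * m 1 then g.coeff m else 0 := by
  rw [kr_eq833, Polynomial.finsetSum_coeff]
  refine Finset.sum_congr rfl fun m _ => ?_
  rw [Polynomial.coeff_C_mul_X_pow]

theorem kr_coeff_zero833 {R : Type*} [CommRing R] (N : ℕ) (hN : 0 < N)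
    (g : MvPolynomial (Fin 2) R) :
    (kr833 N g).coeff 0 = MvPolynomial.constantCoeff g := by
  have h : (Polynomial.constantCoeff.comp (kr833 N) : MvPolynomial (Fin 2) R →+* R)
      = MvPolynomial.constantCoeff := by
    refine MvPolynomial.ringHom_ext (fun a => ?_) (fun i => ?_)
    · simp [kr833]
    · fin_cases i
      · simp [kr833]
      · simp [kr833, hN.ne]
  have h2 := congrArg (fun φ : MvPolynomial (Fin 2) R →+* R => φ g) h
  exact h2

theorem kr_map833 {R S : Type*} [CommRing R] [CommRing S] (φ : R →+* S) (N : ℕ)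
    (g : MvPolynomial (Fin 2) R) :
    (kr833 N g).map φ = kr833 N (MvPolynomial.map φ g) := by
  have h : ((Polynomial.mapRingHom φ).comp (kr833 N) : MvPolynomial (Fin 2) R →+* Polynomial S)
      = (kr833 N).comp (MvPolynomial.map φ) := by
    refine MvPolynomial.ringHom_ext (fun a => ?_) (fun i => ?_)
    · simp [kr833]
    · fin_cases i
      · simp [kr833]
      · simp [kr833]
  have h2 := congrArg (fun ψ : MvPolynomial (Fin 2) R →+* Polynomial S => ψ g) h
  exact h2

theorem monic_reverse833 {R : Type*} [CommRing R] [Nontrivial R] (p : Polynomial R)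
    (h : p.coeff 0 = 1) : p.reverse.Monic := by
  unfold Polynomial.Monic
  rw [Polynomial.reverse_leadingCoeff]
  have h0 : p.natTrailingDegree = 0 := by
    rw [Polynomial.natTrailingDegree_eq_zero]
    right
    rw [h]
    exact one_ne_zero
  unfold Polynomial.trailingCoeff
  rw [h0, h]

theorem kr_coeff_mem833 {R : Type*} [CommRing R] (N : ℕ) (g : MvPolynomial (Fin 2) R)
    (hN : ∀ m ∈ g.support, m 0 < N) (m : Fin 2 →₀ ℕ) (hm : m ∈ g.support) :
    (kr833 N g).coeff (m 0 + N * m 1) = g.coeff m := by
  rw [kr_coeff833, Finset.sum_eq_single m]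
  · rw [if_pos rfl]
  · intro m' hm' hne
    rw [if_neg]
    intro heq
    apply hne
    have h1 := hN m hm
    have h2 := hN m' hm'
    have hN0 : 0 < N := by omega
    have h3 : m' 0 = m 0 := by
      have := congrArg (· % N) heq
      simp only [Nat.add_mul_mod_self_left] at this
      rw [Nat.mod_eq_of_lt h1, Nat.mod_eq_of_lt h2] at this
      exact this.symm
    have h4 : m' 1 = m 1 := by
      rw [h3] at heq
      have : N * m 1 = N * m' 1 := by omega
      exact (Nat.eq_of_mul_eq_mul_left hN0 this).symm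
    ext i
    fin_cases i
    · exact h3
    · exact h4
  · intro hcon
    exact absurd hm hcon

theorem gauss_one {A F : Type u} [CommRing A] [IsDomain A] [IsIntegrallyClosed A]
    [IsNoetherianRing A] [Field F]
    [Algebra A F] [IsFractionRing A F] (g h : MvPolynomial (Fin 2) F) (f : MvPolynomial (Fin 2) A)
    (hg : MvPolynomial.constantCoeff g = 1) (hh : MvPolynomial.constantCoeff h = 1)
    (hf : MvPolynomial.map (algebraMap A F) f = g * h) :
    ∃ g' : MvPolynomial (Fin 2) A, MvPolynomial.map (algebraMap A F) g' = g := by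
  classical
  obtain ⟨N, hN⟩ : ∃ N : ℕ, ∀ m ∈ g.support, m 0 < N :=
    ⟨g.support.sup (fun m => m 0) + 1, fun m hm =>
      Nat.lt_succ_of_le (Finset.le_sup (f := fun m : Fin 2 →₀ ℕ => m 0) hm)⟩
  have hN0 : 0 < N := by
    have h0 : (0 : Fin 2 →₀ ℕ) ∈ g.support := by
      rw [MvPolynomial.mem_support_iff]
      have : g.coeff 0 = 1 := hg
      rw [this]
      exact one_ne_zero
    exact lt_of_le_of_lt (Nat.zero_le _) (hN 0 h0)
  have hinj : Function.Injective (algebraMap A F) := IsFractionRing.injective A F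
  have hmul : (kr833 N f).map (algebraMap A F) = kr833 N g * kr833 N h := by
    rw [kr_map833, hf, map_mul]
  have hg0 : (kr833 N g).coeff 0 = 1 := by rw [kr_coeff_zero833 N hN0, hg]
  have hf0 : (kr833 N f).coeff 0 = 1 := by
    apply hinj
    rw [← Polynomial.coeff_map, hmul, Polynomial.mul_coeff_zero, hg0, kr_coeff_zero833 N hN0, hh,
      map_one, one_mul]
  have hrev : (kr833 N f).reverse.map (algebraMap A F)
      = (kr833 N g).reverse * (kr833 N h).reverse := by
    rw [← Polynomial.reverse_mul_of_domain, ← hmul]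
    unfold Polynomial.reverse
    rw [Polynomial.natDegree_map_eq_of_injective hinj, Polynomial.reflect_map]
  have hint : ∀ i, IsIntegral A ((kr833 N g).reverse.coeff i) :=
    Polynomial.isIntegral_coeff_of_dvd _ _ (monic_reverse833 _ hf0) (monic_reverse833 _ hg0)
      ⟨_, hrev⟩
  have hint2 : ∀ k, IsIntegral A ((kr833 N g).coeff k) := by
    intro k
    have h1 := hint (Polynomial.revAt (kr833 N g).natDegree k)
    rw [Polynomial.coeff_reverse, Polynomial.revAt_invol] at h1
    exact h1
  have hex : ∀ m : Fin 2 →₀ ℕ, m ∈ g.support → ∃ a : A, algebraMap A F a = g.coeff m := by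
    intro m hm
    have h1 := hint2 (m 0 + N * m 1)
    rw [kr_coeff_mem833 N g hN m hm] at h1
    exact IsIntegrallyClosed.isIntegral_iff.mp h1
  choose! a ha using hex
  refine ⟨∑ m ∈ g.support, MvPolynomial.monomial m (a m), ?_⟩
  rw [map_sum]
  conv_rhs => rw [← MvPolynomial.support_sum_monomial_coeff g]
  refine Finset.sum_congr rfl fun m hm => ?_
  rw [MvPolynomial.map_monomial, ha m hm]

end ComplexityOne
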