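import Mathlib

universe u

namespace ComplexityOne

theorem gauss_two {A F : Type u} [CommRing A] [IsDomain A] [Field F]
    [Algebra A F] [IsFractionRing A F] (h : MvPolynomial (Fin 2) F)
    (f g : MvPolynomial (Fin 2) A) (hg : MvPolynomial.constantCoeff g = 1)
    (hf : MvPolynomial.map (algebraMap A F) f = MvPolynomial.map (algebraMap A F) g * h) :
    ∃ h' : MvPolynomial (Fin 2) A, MvPolynomial.map (algebraMap A F) h' = h := by
  classical
  have key : ∀ (d : ℕ) (n : Fin 2 →₀ ℕ), n.degree = d → ∃ a : A, algebraMap A F a = h.coeff n := by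
    intro d
    induction d using Nat.strong_induction_on with
    | _ d ih =>
      intro n hn
      have h1 := congrArg (MvPolynomial.coeff n) hf
      rw [MvPolynomial.coeff_map, MvPolynomial.coeff_mul] at h1
      have hmem : ((0 : Fin 2 →₀ ℕ), n) ∈ Finset.HasAntidiagonal.antidiagonal n := by simp
      rw [← Finset.add_sum_erase _ _ hmem] at h1
      have h2 : (MvPolynomial.coeff 0 ((MvPolynomial.map (algebraMap A F)) g)) = 1 := by
        rw [MvPolynomial.coeff_map]
        have : MvPolynomial.coeff 0 g = 1 := by rw [← MvPolynomial.constantCoeff_eq]; exact hg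
        rw [this, map_one]
      simp only [h2, one_mul] at h1
      have h3 : ∀ x ∈ (Finset.HasAntidiagonal.antidiagonal n).erase ((0 : Fin 2 →₀ ℕ), n), ∃ a : A,
          algebraMap A F a = MvPolynomial.coeff x.1 ((MvPolynomial.map (algebraMap A F)) g) *
            MvPolynomial.coeff x.2 h := by
        intro x hx
        rw [Finset.mem_erase, Finset.HasAntidiagonal.mem_antidiagonal] at hx
        obtain ⟨hx1, hx2⟩ := hx
        have hx0 : x.1 ≠ 0 := by
          intro h0
          apply hx1
          rw [h0, zero_add] at hx2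
          exact Prod.ext h0 hx2
        have hdeg : x.1.degree + x.2.degree = d := by
          rw [← hn, ← hx2, map_add]
        have hpos : 0 < x.1.degree := by
          rcases Nat.eq_zero_or_pos x.1.degree with h0 | h0
          · exact absurd ((Finsupp.degree_eq_zero_iff _).mp h0) hx0
          · exact h0
        obtain ⟨a, ha⟩ := ih x.2.degree (by omega) x.2 rfl
        exact ⟨MvPolynomial.coeff x.1 g * a, by rw [map_mul, ha, MvPolynomial.coeff_map]⟩
      choose! c hc using h3
      refine ⟨MvPolynomial.coeff n f - ∑ x ∈ (Finset.HasAntidiagonal.antidiagonal n).erase ((0 : Fin 2 →₀ ℕ), n), c x, ?_⟩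
      rw [map_sub, map_sum, h1, Finset.sum_congr rfl hc]
      ring
  have key2 : ∀ n : Fin 2 →₀ ℕ, ∃ a : A, algebraMap A F a = h.coeff n := fun n => key _ n rfl
  choose c hc using key2
  refine ⟨∑ m ∈ h.support, MvPolynomial.monomial m (c m), ?_⟩
  rw [map_sum]
  conv_rhs => rw [h.as_sum]
  apply Finset.sum_congr rfl
  intro m _
  rw [MvPolynomial.map_monomial, hc]

end ComplexityOne
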