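import Mathlib
import Pool.Agent.Helper271.CY.Defs

universe u

namespace ComplexityOne

variable {K : Type u} [Field K] [Algebra ℂ K]

theorem loc_normal {R O : Subalgebra ℂ K} (hR : ∀ x : K, IsIntegral R x → x ∈ R)
    (hO : IsLocalRingOf R O) (x : K) (hx : IsIntegral O x) : x ∈ O := by
  obtain ⟨q, hq, hmem⟩ := hO
  have h1q : (1 : R) ∉ q := fun h => hq.ne_top ((Ideal.eq_top_iff_one q).mpr h)
  have hRO : R ≤ O := fun r hr => (hmem r).mpr ⟨⟨r, hr⟩, 1, h1q, by simp⟩
  have hne : ∀ s : R, s ∉ q → (s : K) ≠ 0 := by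
    intro s hs h0
    apply hs
    have : s = 0 := Subtype.ext h0
    rw [this]
    exact q.zero_mem
  letI : Algebra R O := (Subalgebra.inclusion hRO).toRingHom.toAlgebra
  haveI : IsScalarTower R O K := IsScalarTower.of_algebraMap_eq (fun r => rfl)
  have hmap : ∀ r : R, ((algebraMap R O r : O) : K) = (r : K) := fun r => rfl
  haveI : IsLocalization q.primeCompl O := by
    refine ⟨?_, ?_, ?_⟩
    · rintro ⟨s, hs⟩
      have hs0 := hne s hs
      have hinv : (s : K)⁻¹ ∈ O := (hmem _).mpr ⟨1, s, hs, by simp⟩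
      refine IsUnit.of_mul_eq_one ⟨(s : K)⁻¹, hinv⟩ ?_
      apply Subtype.ext
      change (s : K) * (s : K)⁻¹ = 1
      exact mul_inv_cancel₀ hs0
    · rintro ⟨z, hz⟩
      obtain ⟨r, s, hs, hzrs⟩ := (hmem z).mp hz
      refine ⟨(r, ⟨s, hs⟩), ?_⟩
      apply Subtype.ext
      change z * (s : K) = (r : K)
      rw [hzrs, div_mul_cancel₀ _ (hne s hs)]
    · intro r r' h
      refine ⟨1, ?_⟩
      have : r = r' := by
        apply Subtype.ext
        have := congrArg (fun z : O => (z : K)) h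
        exact this
      rw [this]
  obtain ⟨m, hm⟩ := IsIntegral.exists_multiple_integral_of_isLocalization q.primeCompl x hx
  have h1 := hR _ hm
  rw [hmem]
  refine ⟨⟨_, h1⟩, m.1, m.2, ?_⟩
  have hm0 := hne m.1 m.2
  rw [eq_div_iff hm0]
  change x * (m.1 : K) = (m.1 : K) * x
  exact mul_comm _ _

end ComplexityOne
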