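import Mathlib

universe u

namespace ComplexityOne

theorem ratfunc_fermat_aux {k : Type u} [Field k] (a b : Polynomial k) (ha : IsUnit a) (hb : IsUnit b) :
    ∃ c : k, (algebraMap (Polynomial k) (RatFunc k) a) / (algebraMap (Polynomial k) (RatFunc k) b)
      = RatFunc.C c := by
  rw [Polynomial.isUnit_iff] at ha hb
  obtain ⟨r, _, rfl⟩ := ha
  obtain ⟨s, _, rfl⟩ := hb
  refine ⟨r / s, ?_⟩
  rw [RatFunc.algebraMap_C, RatFunc.algebraMap_C, map_div₀]

theorem ratfunc_fermat {k : Type u} [Field k] [CharZero k] (α β : RatFunc k)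
    (h : α ^ 3 + β ^ 3 = 1) : ∃ c : k, α = RatFunc.C c := by
  classical
  have hinj : Function.Injective (algebraMap (Polynomial k) (RatFunc k)) :=
    RatFunc.algebraMap_injective k
  by_cases hα : α = 0
  · exact ⟨0, by rw [hα, map_zero]⟩
  have hp : α.num ≠ 0 := fun h0 => hα (RatFunc.num_eq_zero_iff.mp h0)
  have hq : α.denom ≠ 0 := RatFunc.denom_ne_zero α
  have hq' : algebraMap (Polynomial k) (RatFunc k) α.denom ≠ 0 := by
    intro h0
    exact hq (hinj (by rw [h0, map_zero]))
  have hα' := RatFunc.num_div_denom α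
  by_cases hβ : β = 0
  · have h1 : α.num ^ 3 = α.denom ^ 3 := by
      apply hinj
      rw [map_pow, map_pow]
      have h2 : α ^ 3 = 1 := by rw [← h, hβ]; ring
      rw [← hα', div_pow, div_eq_one_iff_eq (pow_ne_zero 3 hq')] at h2
      exact h2
    have h3 : IsCoprime (α.num ^ 3) (α.denom ^ 3) := (RatFunc.isCoprime_num_denom α).pow
    have h4 : IsUnit (α.num ^ 3) := by
      rw [← h1] at h3
      exact isCoprime_self.mp h3
    have h5 : IsUnit α.num := (isUnit_pow_iff (by norm_num)).mp h4
    have h6 : IsUnit α.denom := (isUnit_pow_iff (n := 3) (by norm_num)).mp (h1 ▸ h4)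
    obtain ⟨c, hc⟩ := ratfunc_fermat_aux _ _ h5 h6
    exact ⟨c, by rw [← hc, hα']⟩
  · have hu : β.num ≠ 0 := fun h0 => hβ (RatFunc.num_eq_zero_iff.mp h0)
    have hv : β.denom ≠ 0 := RatFunc.denom_ne_zero β
    have hv' : algebraMap (Polynomial k) (RatFunc k) β.denom ≠ 0 := by
      intro h0
      exact hv (hinj (by rw [h0, map_zero]))
    have hβ' := RatFunc.num_div_denom β
    have heq : (α.num * β.denom) ^ 3 + (β.num * α.denom) ^ 3 = (α.denom * β.denom) ^ 3 := by
      apply hinj
      simp only [map_add, map_pow, map_mul]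
      rw [← hα', ← hβ'] at h
      field_simp at h
      simp only [mul_pow]
      linear_combination h
    obtain ⟨d, a', b', c', ⟨h1, h2, h3⟩, ha, hb, hc⟩ :=
      fermatLastTheoremWith'_polynomial (k := k) (n := 3) le_rfl (by norm_num) _ _ _
        (mul_ne_zero hp hv) (mul_ne_zero hu hq) (mul_ne_zero hq hv) heq
    obtain ⟨c, hcc⟩ := ratfunc_fermat_aux _ _ ha hc
    refine ⟨c, ?_⟩
    have hd : d ≠ 0 := by
      rintro rfl
      exact mul_ne_zero hq hv (by rw [h3, mul_zero])
    have hd' : algebraMap (Polynomial k) (RatFunc k) d ≠ 0 := by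
      intro h0
      exact hd (hinj (by rw [h0, map_zero]))
    rw [← hcc]
    have h5 : α = algebraMap (Polynomial k) (RatFunc k) (α.num * β.denom) /
        algebraMap (Polynomial k) (RatFunc k) (α.denom * β.denom) := by
      rw [map_mul, map_mul, mul_div_mul_right _ _ hv', hα']
    rw [h5, h1, h3, map_mul, map_mul, mul_div_mul_right _ _ hd']

end ComplexityOne
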