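import Mathlib
import Pool.Agent.Helper271.CY.J_ratfermat

universe u

namespace ComplexityOne

theorem mv_fermat (n : ℕ) (α β : FractionRing (MvPolynomial (Fin n) ℂ))
    (h : α ^ 3 + β ^ 3 = 1) : ∃ c : ℂ, α = algebraMap ℂ _ c := by
  induction n with
  | zero =>
    obtain ⟨x, y, hy, rfl⟩ := IsFractionRing.div_surjective (A := MvPolynomial (Fin 0) ℂ) α
    obtain ⟨x', rfl⟩ := MvPolynomial.C_surjective (Fin 0) x
    obtain ⟨y', rfl⟩ := MvPolynomial.C_surjective (Fin 0) y
    refine ⟨x' / y', ?_⟩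
    rw [map_div₀, IsScalarTower.algebraMap_apply ℂ (MvPolynomial (Fin 0) ℂ) (FractionRing (MvPolynomial (Fin 0) ℂ)),
      IsScalarTower.algebraMap_apply ℂ (MvPolynomial (Fin 0) ℂ) (FractionRing (MvPolynomial (Fin 0) ℂ))]
    rfl
  | succ n ih =>
    let k := FractionRing (MvPolynomial (Fin n) ℂ)
    have : CharZero k := charZero_of_injective_algebraMap (IsFractionRing.injective (MvPolynomial (Fin n) ℂ) k)
    let g : MvPolynomial (Fin (n + 1)) ℂ →+* RatFunc k :=
      (algebraMap (Polynomial k) (RatFunc k)).comp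
        ((Polynomial.mapRingHom (algebraMap (MvPolynomial (Fin n) ℂ) k)).comp
          (MvPolynomial.finSuccEquiv ℂ n : MvPolynomial (Fin (n + 1)) ℂ →+* Polynomial (MvPolynomial (Fin n) ℂ)))
    have hg : Function.Injective g := by
      intro x y hxy
      have h1 := RatFunc.algebraMap_injective k hxy
      have h2 := Polynomial.map_injective _ (IsFractionRing.injective (MvPolynomial (Fin n) ℂ) k) h1
      exact (MvPolynomial.finSuccEquiv ℂ n).injective h2
    let Φ : FractionRing (MvPolynomial (Fin (n + 1)) ℂ) →+* RatFunc k := IsFractionRing.lift hg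
    have hΦ : ∀ c : ℂ, Φ (algebraMap ℂ _ c) = RatFunc.C (algebraMap ℂ k c) := by
      intro c
      rw [IsScalarTower.algebraMap_apply ℂ (MvPolynomial (Fin (n + 1)) ℂ) (FractionRing (MvPolynomial (Fin (n + 1)) ℂ))]
      show IsFractionRing.lift hg _ = _
      rw [IsFractionRing.lift_algebraMap]
      show algebraMap (Polynomial k) (RatFunc k) (Polynomial.map (algebraMap (MvPolynomial (Fin n) ℂ) k)
        (MvPolynomial.finSuccEquiv ℂ n (MvPolynomial.C c))) = _
      have e : MvPolynomial.finSuccEquiv ℂ n (MvPolynomial.C c) = Polynomial.C (MvPolynomial.C c) := by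
        simp [MvPolynomial.finSuccEquiv_apply]
      rw [e, Polynomial.map_C, RatFunc.algebraMap_C]
      rfl
    have hα : ∃ c : k, Φ α = RatFunc.C c := by
      apply ratfunc_fermat (Φ α) (Φ β)
      rw [← map_pow, ← map_pow, ← map_add, h, map_one]
    have hβ : ∃ c : k, Φ β = RatFunc.C c := by
      apply ratfunc_fermat (Φ β) (Φ α)
      have h' : β ^ 3 + α ^ 3 = 1 := by rw [← h]; ring
      rw [← map_pow, ← map_pow, ← map_add, h', map_one]
    obtain ⟨c, hc⟩ := hα
    obtain ⟨d, hd⟩ := hβ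
    have hcd : c ^ 3 + d ^ 3 = 1 := by
      have h1 : Φ α ^ 3 + Φ β ^ 3 = 1 := by
        rw [← map_pow, ← map_pow, ← map_add, h, map_one]
      rw [hc, hd, ← map_pow, ← map_pow, ← map_add] at h1
      exact RatFunc.C_injective (by rw [h1, map_one])
    obtain ⟨c0, hc0⟩ := ih c d hcd
    refine ⟨c0, ?_⟩
    apply Φ.injective
    rw [hΦ, hc, hc0]

end ComplexityOne
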