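import Mathlib
import Pool.Agent.Helper271.CY.Defs
import Pool.Agent.Helper271.CY.J_mvfermat

universe u

namespace ComplexityOne

variable {K : Type u} [Field K] [Algebra ℂ K]

theorem not_rational {a b u v : K} (h : Quad a b u v) : ¬ IsRational K 3 := by
  rintro ⟨φ⟩
  have h1 : (φ.symm a) ^ 3 + (φ.symm b) ^ 3 = 1 := by
    rw [← map_pow, ← map_pow, ← map_add, h.cubic, map_one]
  obtain ⟨c, hc⟩ := mv_fermat 3 _ _ h1
  have h2 : a = algebraMap ℂ K c := by
    have h3 : φ (φ.symm a) = φ (algebraMap ℂ _ c) := by rw [hc]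
    rw [AlgEquiv.apply_symm_apply, AlgEquiv.commutes] at h3
    exact h3
  have h4 : Transcendental ℂ a := by
    have := h.indep.transcendental (0 : Fin 3)
    simpa using this
  apply h4
  rw [h2]
  exact isAlgebraic_algebraMap c

end ComplexityOne
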