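import Mathlib
import Pool.Agent.Helper271.CY.Defs

universe u

namespace ComplexityOne

variable {K : Type u} [Field K] [Algebra ℂ K]

theorem formOf_three (x y z : K) :
    formOf ![x, y, z] =
      ExteriorAlgebra.ι K (KaehlerDifferential.D ℂ K x) *
        (ExteriorAlgebra.ι K (KaehlerDifferential.D ℂ K y) *
          ExteriorAlgebra.ι K (KaehlerDifferential.D ℂ K z)) := by
  unfold formOf
  rw [ExteriorAlgebra.ιMulti_apply]
  simp [List.ofFn_succ]

theorem omega_flip {a b u v : K} (h : Quad a b u v) :
    omega a⁻¹ (-b / a) (a * u) (a * v) = - omega a b u v := by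
  have ha : a ≠ 0 := by
    have := h.indep.ne_zero 0
    simpa using this
  have hc : ((-b / a) ^ 2 * (a * u) * (a * v)) = b ^ 2 * u * v := by
    field_simp
  unfold omega
  rw [hc, ← smul_neg]
  congr 1
  rw [formOf_three, formOf_three, Derivation.leibniz_inv, Derivation.leibniz,
    Derivation.leibniz]
  simp only [map_add, map_smul]
  set A := ExteriorAlgebra.ι K (KaehlerDifferential.D ℂ K a) with hA
  set U := ExteriorAlgebra.ι K (KaehlerDifferential.D ℂ K u) with hU
  set W := ExteriorAlgebra.ι K (KaehlerDifferential.D ℂ K v) with hW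
  have hAA : A * A = 0 := ExteriorAlgebra.ι_sq_zero _
  have hUA : U * A = -(A * U) := by
    have := ExteriorAlgebra.ι_add_mul_swap (R := K) (KaehlerDifferential.D ℂ K u)
      (KaehlerDifferential.D ℂ K a)
    exact eq_neg_of_add_eq_zero_left this
  have hAUA : A * (U * A) = 0 := by
    rw [hUA, mul_neg, ← mul_assoc, hAA, zero_mul, neg_zero]
  have hAAW : A * (A * W) = 0 := by
    rw [← mul_assoc, hAA, zero_mul]
  simp only [mul_add, add_mul, smul_mul_assoc, mul_smul_comm, hAA, hAUA, hAAW, smul_zero,
    add_zero, smul_smul]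
  have hs : a * (a * -a⁻¹ ^ 2) = (-1 : K) := by
    field_simp
  rw [hs, neg_one_smul]

end ComplexityOne
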