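import Mathlib
import Pool.Agent.Helper271.CY.Defs

universe u

namespace ComplexityOne

variable {K : Type u} [Field K] [Algebra ℂ K]

theorem units_zpow_coe {P : Subalgebra ℂ K} (u : Pˣ) (m : ℤ) :
    (((u ^ m : Pˣ) : P) : K) = ((u : P) : K) ^ m := by
  have h : Units.map (P.val : P →* K) (u ^ m) = (Units.map (P.val : P →* K) u) ^ m :=
    map_zpow _ _ _
  calc (((u ^ m : Pˣ) : P) : K)
      = ((Units.map (P.val : P →* K) (u ^ m) : Kˣ) : K) := rfl
    _ = (((Units.map (P.val : P →* K) u) ^ m : Kˣ) : K) := by rw [h]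
    _ = ((u : P) : K) ^ m := by rw [Units.val_zpow_eq_zpow_val]; rfl

theorem unit_coe_ne_zero {P : Subalgebra ℂ K} (u : Pˣ) : ((u : P) : K) ≠ 0 := by
  intro h
  have h1 : (u : P) = 0 := Subtype.ext h
  exact u.ne_zero h1

theorem irr_coe_ne_zero {P : Subalgebra ℂ K} {t : P} (ht : Irreducible t) : (t : K) ≠ 0 := by
  intro h
  exact ht.ne_zero (Subtype.ext h)

theorem HasOrder.normalize {P : Subalgebra ℂ K} (hD : IsDiscreteValuationRing P) {f : K} {m : ℤ}
    (hm : HasOrder P f m) {s : P} (hs : Irreducible s) :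
    ∃ e : Pˣ, f = ((e : P) : K) * (s : K) ^ m := by
  obtain ⟨t, e, ht, he, hf⟩ := hm
  obtain ⟨u, hu⟩ := IsDiscreteValuationRing.associated_of_irreducible P hs ht
  refine ⟨he.unit * u ^ m, ?_⟩
  have h1 : (t : K) = (s : K) * ((u : P) : K) := by
    rw [← hu]; rfl
  rw [hf, h1, mul_zpow, ← units_zpow_coe]
  push_cast
  rw [IsUnit.unit_spec]
  ring

theorem pow_unit_zero {P : Subalgebra ℂ K} {s : P} (hs : Irreducible s) {k : ℕ} {e e' : Pˣ}
    (h : ((e : P) : K) * (s : K) ^ k = ((e' : P) : K)) : k = 0 := by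
  by_contra hk
  have h1 : (e : P) * s ^ k = e' := Subtype.ext (by push_cast; exact h)
  have h2 : IsUnit (s ^ k) := by
    have : IsUnit ((e : P) * s ^ k) := h1 ▸ e'.isUnit
    exact isUnit_of_mul_isUnit_right this
  exact hs.not_isUnit ((isUnit_pow_iff hk).mp h2)

theorem HasOrder.unique {P : Subalgebra ℂ K} (hD : IsDiscreteValuationRing P) {f : K} {m n : ℤ}
    (hm : HasOrder P f m) (hn : HasOrder P f n) : m = n := by
  obtain ⟨s, hs⟩ := IsDiscreteValuationRing.exists_irreducible P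
  obtain ⟨e, he⟩ := hm.normalize hD hs
  obtain ⟨e', he'⟩ := hn.normalize hD hs
  have hs0 : (s : K) ≠ 0 := irr_coe_ne_zero hs
  have heq : ((e : P) : K) * (s : K) ^ m = ((e' : P) : K) * (s : K) ^ n := he.symm.trans he'
  rcases le_total n m with h | h
  · obtain ⟨k, hk⟩ := Int.eq_ofNat_of_zero_le (sub_nonneg.mpr h)
    have hmk : m = n + k := by omega
    have h2 : ((e : P) : K) * (s : K) ^ k = ((e' : P) : K) := by
      rw [hmk, zpow_add₀ hs0, zpow_natCast] at heq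
      have hz : (s : K) ^ n ≠ 0 := zpow_ne_zero _ hs0
      apply mul_right_cancel₀ hz
      rw [← heq]; ring
    have := pow_unit_zero hs h2
    omega
  · obtain ⟨k, hk⟩ := Int.eq_ofNat_of_zero_le (sub_nonneg.mpr h)
    have hmk : n = m + k := by omega
    have h2 : ((e' : P) : K) * (s : K) ^ k = ((e : P) : K) := by
      rw [hmk, zpow_add₀ hs0, zpow_natCast] at heq
      have hz : (s : K) ^ m ≠ 0 := zpow_ne_zero _ hs0
      apply mul_right_cancel₀ hz
      rw [heq]; ring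
    have := pow_unit_zero hs h2
    omega

theorem HasOrder.mul {P : Subalgebra ℂ K} (hD : IsDiscreteValuationRing P) {f g : K} {m n : ℤ}
    (hm : HasOrder P f m) (hn : HasOrder P g n) : HasOrder P (f * g) (m + n) := by
  obtain ⟨s, hs⟩ := IsDiscreteValuationRing.exists_irreducible P
  obtain ⟨e, he⟩ := hm.normalize hD hs
  obtain ⟨e', he'⟩ := hn.normalize hD hs
  have hs0 : (s : K) ≠ 0 := irr_coe_ne_zero hs
  refine ⟨s, (e : P) * (e' : P), hs, e.isUnit.mul e'.isUnit, ?_⟩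
  rw [he, he', zpow_add₀ hs0]
  push_cast
  ring

theorem HasOrder.inv {P : Subalgebra ℂ K} (hD : IsDiscreteValuationRing P) {f : K} {m : ℤ}
    (hm : HasOrder P f m) : HasOrder P f⁻¹ (-m) := by
  obtain ⟨s, hs⟩ := IsDiscreteValuationRing.exists_irreducible P
  obtain ⟨e, he⟩ := hm.normalize hD hs
  have hs0 : (s : K) ≠ 0 := irr_coe_ne_zero hs
  refine ⟨s, ((e⁻¹ : Pˣ) : P), hs, e⁻¹.isUnit, ?_⟩
  have h1 : (((e⁻¹ : Pˣ) : P) : K) = ((e : P) : K)⁻¹ := by
    apply eq_inv_of_mul_eq_one_left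
    have : ((e⁻¹ : Pˣ) : P) * (e : P) = 1 := by simp
    have h2 := congrArg (fun x : P => (x : K)) this
    exact h2
  rw [he, h1, mul_inv, zpow_neg]

theorem HasOrder.exists {P : Subalgebra ℂ K} (hD : IsDiscreteValuationRing P)
    (hF : ∀ x : K, ∃ r s : P, (s : K) ≠ 0 ∧ x = (r : K) / s) {f : K} (hf : f ≠ 0) :
    ∃ m : ℤ, HasOrder P f m := by
  obtain ⟨t, ht⟩ := IsDiscreteValuationRing.exists_irreducible P
  obtain ⟨r, s, hs, hx⟩ := hF f
  have key : ∀ x : P, x ≠ 0 → ∃ m : ℤ, HasOrder P (x : K) m := by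
    intro x hx0
    obtain ⟨k, u, hu⟩ := IsDiscreteValuationRing.eq_unit_mul_pow_irreducible hx0 ht
    refine ⟨k, t, u, ht, u.isUnit, ?_⟩
    rw [hu]
    push_cast
    rw [zpow_natCast]
  have hr0 : r ≠ 0 := by
    rintro rfl
    apply hf
    rw [hx]; simp
  have hs0 : s ≠ 0 := by
    rintro rfl
    exact hs (by simp)
  obtain ⟨m, hm⟩ := key r hr0
  obtain ⟨n, hn⟩ := key s hs0
  refine ⟨m + -n, ?_⟩
  rw [hx, div_eq_mul_inv]
  exact hm.mul hD (hn.inv hD)

end ComplexityOne
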