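import Mathlib
import Pool.Agent.Helper271.CY.Defs

universe u

namespace ComplexityOne

variable {K : Type u} [Field K] [Algebra ℂ K]

theorem point_loc_clear {V : Submodule ℂ K} {f f' : K} (hf : f ≠ 0) (hf' : f' ≠ 0)
    (hfV' : f' ∈ V) (x : K) (hx : x ∈ chart V f') :
    ∃ N : ℕ, ∀ M, N ≤ M → (f' / f) ^ M * x ∈ chart V f := by
  have hw : f' / f ∈ chart V f := Algebra.subset_adjoin ⟨f', hfV', rfl⟩
  unfold chart at hx
  induction hx using Algebra.adjoin_induction with
  | mem x hx =>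
    obtain ⟨g, hg, rfl⟩ := hx
    refine ⟨1, fun M hM => ?_⟩
    obtain ⟨M, rfl⟩ := Nat.exists_eq_add_of_le hM
    have : (f' / f) ^ (1 + M) * (g / f') = (f' / f) ^ M * (g / f) := by
      rw [pow_add, pow_one]
      field_simp
    rw [this]
    exact Subalgebra.mul_mem _ (Subalgebra.pow_mem _ hw _) (Algebra.subset_adjoin ⟨g, hg, rfl⟩)
  | algebraMap r =>
    exact ⟨0, fun M _ => Subalgebra.mul_mem _ (Subalgebra.pow_mem _ hw _)
      (Subalgebra.algebraMap_mem _ _)⟩
  | add x y _ _ hx hy =>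
    obtain ⟨N1, h1⟩ := hx
    obtain ⟨N2, h2⟩ := hy
    refine ⟨max N1 N2, fun M hM => ?_⟩
    rw [mul_add]
    exact Subalgebra.add_mem _ (h1 M (le_trans (le_max_left _ _) hM))
      (h2 M (le_trans (le_max_right _ _) hM))
  | mul x y _ _ hx hy =>
    obtain ⟨N1, h1⟩ := hx
    obtain ⟨N2, h2⟩ := hy
    refine ⟨N1 + N2, fun M hM => ?_⟩
    obtain ⟨M', rfl⟩ : ∃ M', M = N1 + M' := ⟨M - N1, by omega⟩
    have : (f' / f) ^ (N1 + M') * (x * y) = ((f' / f) ^ N1 * x) * ((f' / f) ^ M' * y) := by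
      rw [pow_add]
      ring
    rw [this]
    exact Subalgebra.mul_mem _ (h1 N1 le_rfl) (h2 M' (by omega))

/-- If all `g / f`, `g ∈ V`, lie in the local ring `O` of a point of `X_V`, then `O` is a local ring
of the chart of `f`. Proof: `O = chart(f')_q`; `f / f'` is a unit of `O` (its inverse `f' / f` lies in
`O` because `f' ∈ V`), and `g / f = (g / f') / (f / f')`. Take for the prime ideal of `chart V f` the
set of elements which are not invertible in `O`. -/
theorem point_loc {V : Submodule ℂ K} {O : Subalgebra ℂ K} (hO : IsPoint V O) {f : K}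
    (hf : f ∈ V) (hf0 : f ≠ 0) (h : ∀ g ∈ V, g / f ∈ O) : IsLocalRingOf (chart V f) O := by
  obtain ⟨f', hfV', hf'0, q', hq', hO'⟩ := hO
  -- `A' ⊆ O`
  have hA'O : ∀ x ∈ chart V f', x ∈ O := by
    intro x hx
    rw [hO']
    refine ⟨⟨x, hx⟩, 1, ?_, ?_⟩
    · intro h1
      exact hq'.ne_top ((Ideal.eq_top_iff_one _).2 h1)
    · show x = x / ((1 : chart V f') : K)
      rw [OneMemClass.coe_one, div_one]
  have hAO : chart V f ≤ O := by
    apply Algebra.adjoin_le
    rintro x ⟨g, hg, rfl⟩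
    exact h g hg
  have hs0 : ∀ s : chart V f', s ∉ q' → (s : K) ≠ 0 := by
    intro s hs h0
    apply hs
    have : s = 0 := Subtype.ext h0
    rw [this]
    exact q'.zero_mem
  -- units
  have hinv : ∀ s : chart V f', s ∉ q' → ((s : K))⁻¹ ∈ O := by
    intro s hs
    rw [hO']
    exact ⟨1, s, hs, by rw [OneMemClass.coe_one, one_div]⟩
  have hunit : ∀ x : O, ∀ r s : chart V f', r ∉ q' → s ∉ q' → (x : K) = (r : K) / (s : K) →
      IsUnit x := by
    intro x r s hr hs hx
    have hy : (s : K) / (r : K) ∈ O := by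
      rw [hO']
      exact ⟨s, r, hr, rfl⟩
    refine IsUnit.of_mul_eq_one ⟨_, hy⟩ ?_
    apply Subtype.ext
    show (x : K) * ((s : K) / (r : K)) = 1
    rw [hx]
    have h1 := hs0 r hr
    have h2 := hs0 s hs
    field_simp
  have hloc : IsLocalRing O := by
    apply IsLocalRing.of_isUnit_or_isUnit_one_sub_self
    intro x
    obtain ⟨r, s, hs, hx⟩ := (hO' _).1 x.2
    by_cases hr : r ∈ q'
    · right
      refine hunit (1 - x) (s - r) s ?_ hs ?_
      · intro h1
        apply hs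
        have := q'.add_mem h1 hr
        rwa [sub_add_cancel] at this
      · show 1 - (x : K) = ((s : K) - (r : K)) / (s : K)
        rw [hx, sub_div, div_self (hs0 s hs)]
    · left
      exact hunit x r s hr hs hx
  let q : Ideal (chart V f) :=
    (IsLocalRing.maximalIdeal O).comap (Subalgebra.inclusion hAO : chart V f →ₐ[ℂ] O)
  have hqp : q.IsPrime := Ideal.IsPrime.comap _
  have hmem : ∀ s : chart V f, s ∉ q ↔ IsUnit (Subalgebra.inclusion hAO s : O) := by
    intro s
    show ¬ ((Subalgebra.inclusion hAO s : O) ∈ IsLocalRing.maximalIdeal O) ↔ _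
    rw [IsLocalRing.mem_maximalIdeal, mem_nonunits_iff, not_not]
  refine ⟨q, hqp, fun x => ?_⟩
  constructor
  · intro hx
    obtain ⟨r', s', hs', hxe⟩ := (hO' x).1 hx
    obtain ⟨N1, h1⟩ := point_loc_clear hf0 hf'0 hfV' r' r'.2
    obtain ⟨N2, h2⟩ := point_loc_clear hf0 hf'0 hfV' s' s'.2
    have e1 := h1 (N1 + N2) (by omega)
    have e2 := h2 (N1 + N2) (by omega)
    refine ⟨⟨_, e1⟩, ⟨_, e2⟩, ?_, ?_⟩
    · rw [hmem]
      have hy : (f / f') ^ (N1 + N2) * ((s' : K))⁻¹ ∈ O := by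
        apply Subalgebra.mul_mem _ (Subalgebra.pow_mem _ _ _) (hinv s' hs')
        exact hA'O _ (Algebra.subset_adjoin ⟨f, hf, rfl⟩)
      refine IsUnit.of_mul_eq_one ⟨_, hy⟩ ?_
      apply Subtype.ext
      show ((f' / f) ^ (N1 + N2) * (s' : K)) * ((f / f') ^ (N1 + N2) * ((s' : K))⁻¹) = 1
      have h3 := hs0 s' hs'
      have h4 : (f' / f) * (f / f') = 1 := by
        field_simp
      calc ((f' / f) ^ (N1 + N2) * (s' : K)) * ((f / f') ^ (N1 + N2) * ((s' : K))⁻¹)
          = ((f' / f) * (f / f')) ^ (N1 + N2) * ((s' : K) * ((s' : K))⁻¹) := by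
            rw [mul_pow]
            ring
        _ = 1 := by rw [h4, one_pow, mul_inv_cancel₀ h3, one_mul]
    · show x = ((f' / f) ^ (N1 + N2) * (r' : K)) / ((f' / f) ^ (N1 + N2) * (s' : K))
      have h5 : (f' / f) ^ (N1 + N2) ≠ 0 := pow_ne_zero _ (div_ne_zero hf'0 hf0)
      rw [mul_div_mul_left _ _ h5]
      exact hxe
  · rintro ⟨r, s, hs, rfl⟩
    rw [hmem] at hs
    obtain ⟨y, hy⟩ := hs.exists_right_inv
    have hy' : (s : K) * (y : K) = 1 := congrArg Subtype.val hy
    have hs0' : (s : K) ≠ 0 := by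
      intro h0
      rw [h0, zero_mul] at hy'
      exact zero_ne_one hy'
    have : (r : K) / (s : K) = (r : K) * (y : K) := by
      rw [div_eq_iff hs0']
      rw [mul_assoc, mul_comm (y : K), hy', mul_one]
    rw [this]
    exact Subalgebra.mul_mem _ (hAO r.2) y.2

end ComplexityOne
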