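import Mathlib
import Pool.Agent.Helper271.CY.Defs
import Pool.Agent.Helper271.CY.J_Anormal
import Pool.Agent.Helper271.CY.J_flip
import Pool.Agent.Helper271.CY.J_coords
import Pool.Agent.Helper271.CY.J_Sinter
import Pool.Agent.Helper271.CY.J_constterm
import Pool.Agent.Helper271.CY.J_gauss
import Pool.Agent.Helper271.CY.J_gausstwo

universe u

namespace ComplexityOne

variable {K : Type u} [Field K] [Algebra ℂ K]

section principalAux

open MvPolynomial
open scoped IntermediateField.algebraAdjoinAdjoin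

/-- polynomials in `u, v` over `ℂ(a, b)` with constant term `c` -/
def PolC (a b u v x c : K) : Prop :=
  ∃ p : MvPolynomial (Fin 2) (IntermediateField.adjoin ℂ {a, b}),
    aeval ![u, v] p = x ∧ ((constantCoeff p : IntermediateField.adjoin ℂ {a, b}) : K) = c

theorem PolC.add {a b u v x c y d : K} (h : PolC a b u v x c) (h' : PolC a b u v y d) :
    PolC a b u v (x + y) (c + d) := by
  obtain ⟨p, hp, hp'⟩ := h
  obtain ⟨q, hq, hq'⟩ := h'
  exact ⟨p + q, by rw [map_add, hp, hq], by rw [map_add, ← hp', ← hq']; rfl⟩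

theorem PolC.mul {a b u v x c y d : K} (h : PolC a b u v x c) (h' : PolC a b u v y d) :
    PolC a b u v (x * y) (c * d) := by
  obtain ⟨p, hp, hp'⟩ := h
  obtain ⟨q, hq, hq'⟩ := h'
  exact ⟨p * q, by rw [map_mul, hp, hq], by rw [map_mul, ← hp', ← hq']; rfl⟩

theorem PolC.const {a b u v x : K} (h : x ∈ IntermediateField.adjoin ℂ {a, b}) :
    PolC a b u v x x :=
  ⟨C ⟨x, h⟩, by rw [aeval_C]; rfl, by rw [constantCoeff_C]⟩

theorem PolC.u {a b u v : K} : PolC a b u v u 0 :=
  ⟨X 0, by rw [aeval_X]; rfl, by rw [constantCoeff_X]; rfl⟩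

theorem PolC.v {a b u v : K} : PolC a b u v v 0 :=
  ⟨X 1, by rw [aeval_X]; rfl, by rw [constantCoeff_X]; rfl⟩

theorem pr_mem_a {a b : K} : a ∈ IntermediateField.adjoin ℂ {a, b} :=
  IntermediateField.subset_adjoin _ _ (Or.inl rfl)

theorem pr_mem_b {a b : K} : b ∈ IntermediateField.adjoin ℂ {a, b} :=
  IntermediateField.subset_adjoin _ _ (Or.inr rfl)

theorem pr_le {a b : K} (ha : a ≠ 0) :
    IntermediateField.adjoin ℂ {a, b} ≤ IntermediateField.adjoin ℂ {a⁻¹, -b / a} := by
  have ha' : a⁻¹ ∈ IntermediateField.adjoin ℂ {a⁻¹, -b / a} := pr_mem_a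
  rw [IntermediateField.adjoin_le_iff]
  rintro y (rfl | hy)
  · have := IntermediateField.inv_mem _ ha'
    rwa [inv_inv] at this
  · rw [Set.mem_singleton_iff.1 hy]
    have h1 : a ∈ IntermediateField.adjoin ℂ {a⁻¹, -b / a} := by
      have := IntermediateField.inv_mem _ ha'
      rwa [inv_inv] at this
    have h2 : -b / a ∈ IntermediateField.adjoin ℂ {a⁻¹, -b / a} := pr_mem_b
    have h3 := IntermediateField.neg_mem _ (IntermediateField.mul_mem _ h2 h1)
    have e : -(-b / a * a) = b := by rw [div_mul_cancel₀ _ ha, neg_neg]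
    rwa [e] at h3

omit [Algebra ℂ K] in
/-- general change of coordinates -/
theorem pr_change {F F' : Type u} [Field F] [Field F'] [Algebra F K] [Algebra F' K]
    (ι : F →+* F') (hι : ∀ r, algebraMap F' K (ι r) = algebraMap F K r) (a u v : K) (ha : a ≠ 0)
    (α : F') (hα : algebraMap F' K α = a⁻¹) (p : MvPolynomial (Fin 2) F) :
    ∃ q : MvPolynomial (Fin 2) F', aeval ![a * u, a * v] q = aeval ![u, v] p ∧
      constantCoeff q = ι (constantCoeff p) := by
  refine ⟨eval₂Hom (C.comp ι) (fun i => C α * X i) p, ?_, ?_⟩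
  · have h1 : ((aeval ![a * u, a * v] : MvPolynomial (Fin 2) F' →ₐ[F'] K) :
        MvPolynomial (Fin 2) F' →+* K).comp
        (eval₂Hom (C.comp ι) (fun i => C α * X i)) =
        ((aeval ![u, v] : MvPolynomial (Fin 2) F →ₐ[F] K) : MvPolynomial (Fin 2) F →+* K) := by
      apply MvPolynomial.ringHom_ext
      · intro r
        simp only [RingHom.comp_apply, eval₂Hom_C, RingHom.coe_coe, aeval_C]
        exact hι r
      · intro i
        simp only [RingHom.comp_apply, eval₂Hom_X', RingHom.coe_coe, map_mul, aeval_C, aeval_X]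
        rw [hα]
        revert i
        rw [Fin.forall_fin_two]
        simp only [Matrix.cons_val_zero, Matrix.cons_val_one]
        constructor
        · rw [← mul_assoc, inv_mul_cancel₀ ha, one_mul]
        · rw [← mul_assoc, inv_mul_cancel₀ ha, one_mul]
    have h2 := RingHom.congr_fun h1 p
    rw [RingHom.comp_apply, RingHom.coe_coe, RingHom.coe_coe] at h2
    exact h2
  · have h1 : (constantCoeff : MvPolynomial (Fin 2) F' →+* _).comp
        (eval₂Hom (C.comp ι) (fun i => C α * X i)) =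
        ι.comp constantCoeff := by
      apply MvPolynomial.ringHom_ext
      · intro r
        simp only [RingHom.comp_apply, eval₂Hom_C, constantCoeff_C]
      · intro i
        simp only [RingHom.comp_apply, eval₂Hom_X', map_mul, constantCoeff_X, mul_zero, map_zero]
    have h2 := RingHom.congr_fun h1 p
    rw [RingHom.comp_apply, RingHom.comp_apply] at h2
    exact h2

theorem PolC.flip {a b u v x c : K} (ha : a ≠ 0) (h : PolC a b u v x c) :
    PolC a⁻¹ (-b / a) (a * u) (a * v) x c := by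
  obtain ⟨p, hp, hp'⟩ := h
  have ha' : a⁻¹ ∈ IntermediateField.adjoin ℂ {a⁻¹, -b / a} := pr_mem_a
  obtain ⟨q, hq1, hq2⟩ := pr_change (K := K) (IntermediateField.inclusion (pr_le (b := b) ha)).toRingHom
    (fun r => rfl) a u v ha ⟨a⁻¹, ha'⟩ rfl p
  exact ⟨q, hq1.trans hp, by rw [hq2, ← hp']; rfl⟩

theorem pr_trans {a b u v : K} (h : Quad a b u v) : Transcendental ℂ a := by
  have := h.indep.transcendental 0
  simpa using this

theorem pr_ne {a b u v : K} (h : Quad a b u v) : a ≠ 0 := by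
  intro h0
  have := pr_trans h
  rw [h0] at this
  exact this isAlgebraic_zero

theorem pr_closed {a b u v : K} (h : Quad a b u v) :
    IsIntegrallyClosed (Algebra.adjoin ℂ {a, b} : Subalgebra ℂ K) := by
  rw [isIntegrallyClosed_iff (IntermediateField.adjoin ℂ {a, b})]
  intro x hx
  have h1 : IsIntegral (Algebra.adjoin ℂ {a, b} : Subalgebra ℂ K) (x : K) := by
    have := hx.map (IsScalarTower.toAlgHom (Algebra.adjoin ℂ {a, b} : Subalgebra ℂ K)
      (IntermediateField.adjoin ℂ {a, b}) K)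
    exact this
  exact ⟨⟨x, A_normal h.cubic (pr_trans h) x h1 x.2⟩, rfl⟩

theorem pr_noeth (a b : K) : IsNoetherianRing (Algebra.adjoin ℂ {a, b} : Subalgebra ℂ K) := by
  have : Algebra.FiniteType ℂ (Algebra.adjoin ℂ {a, b} : Subalgebra ℂ K) :=
    .adjoin_of_finite (Set.toFinite _)
  exact Algebra.FiniteType.isNoetherianRing ℂ _

theorem pr_inj {a b u v : K} (h : Quad a b u v) : Function.Injective (aeval ![u, v] :
    MvPolynomial (Fin 2) (IntermediateField.adjoin ℂ {a, b}) →ₐ[_] K) :=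
  (coordsF h).1

theorem pr_aeval_map {a b u v : K}
    (f : MvPolynomial (Fin 2) (Algebra.adjoin ℂ {a, b} : Subalgebra ℂ K)) :
    aeval ![u, v] (MvPolynomial.map (algebraMap (Algebra.adjoin ℂ {a, b} : Subalgebra ℂ K)
      (IntermediateField.adjoin ℂ {a, b})) f) = aeval ![u, v] f :=
  aeval_map_algebraMap _ _ _

theorem pr_G1 {a b u v x g z : K} (h : Quad a b u v) (hx : x ∈ Algebra.adjoin ℂ {a, b, u, v})
    (hg : PolC a b u v g 1) (hz : PolC a b u v z 1) (e : x = g * z) :
    g ∈ Algebra.adjoin ℂ {a, b, u, v} := by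
  have hcl := pr_closed h
  have hno := pr_noeth a b
  obtain ⟨G, hG, hG1⟩ := hg
  obtain ⟨Z, hZ, hZ1⟩ := hz
  obtain ⟨f, hf⟩ := ((coords h).2 x).1 hx
  have h1 : MvPolynomial.map (algebraMap (Algebra.adjoin ℂ {a, b} : Subalgebra ℂ K)
      (IntermediateField.adjoin ℂ {a, b})) f = G * Z := by
    apply pr_inj h
    rw [pr_aeval_map, map_mul, hG, hZ, hf, e]
  obtain ⟨g', hg'⟩ := gauss_one G Z f (Subtype.ext hG1) (Subtype.ext hZ1) h1
  refine ((coords h).2 g).2 ⟨g', ?_⟩
  rw [← pr_aeval_map, hg', hG]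

theorem pr_G2 {a b u v x g z c : K} (h : Quad a b u v) (hx : x ∈ Algebra.adjoin ℂ {a, b, u, v})
    (hg' : g ∈ Algebra.adjoin ℂ {a, b, u, v})
    (hg : PolC a b u v g 1) (hz : PolC a b u v z c) (e : x = g * z) :
    z ∈ Algebra.adjoin ℂ {a, b, u, v} := by
  obtain ⟨G, hG, hG1⟩ := hg
  obtain ⟨Z, hZ, hZ1⟩ := hz
  obtain ⟨f, hf⟩ := ((coords h).2 x).1 hx
  obtain ⟨g1, hg1⟩ := ((coords h).2 g).1 hg'
  have h2 : MvPolynomial.map (algebraMap (Algebra.adjoin ℂ {a, b} : Subalgebra ℂ K)
      (IntermediateField.adjoin ℂ {a, b})) g1 = G := by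
    apply pr_inj h
    rw [pr_aeval_map, hG, hg1]
  have h3 : constantCoeff g1 = 1 := by
    have h4 : algebraMap (Algebra.adjoin ℂ {a, b} : Subalgebra ℂ K)
      (IntermediateField.adjoin ℂ {a, b}) (constantCoeff g1) = constantCoeff G := by
      rw [← h2, constantCoeff_map]
    have h5 : ((constantCoeff g1 : (Algebra.adjoin ℂ {a, b} : Subalgebra ℂ K)) : K) = 1 := by
      rw [← hG1, ← h4]; rfl
    exact Subtype.ext h5
  have h1 : MvPolynomial.map (algebraMap (Algebra.adjoin ℂ {a, b} : Subalgebra ℂ K)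
      (IntermediateField.adjoin ℂ {a, b})) f = MvPolynomial.map (algebraMap
      (Algebra.adjoin ℂ {a, b} : Subalgebra ℂ K) (IntermediateField.adjoin ℂ {a, b})) g1 * Z := by
    apply pr_inj h
    rw [pr_aeval_map, map_mul, pr_aeval_map, hg1, hZ, hf, e]
  obtain ⟨z', hz'⟩ := gauss_two Z f g1 h3 h1
  refine ((coords h).2 z).2 ⟨z', ?_⟩
  rw [← pr_aeval_map, hz', hZ]

theorem pr_GS1 {a b u v x g z : K} (h : Quad a b u v) (hx : x ∈ S a b u v)
    (hg : PolC a b u v g 1) (hz : PolC a b u v z 1) (e : x = g * z) : g ∈ S a b u v := by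
  have ha := pr_ne h
  obtain ⟨h1, h2⟩ := (S_inter h x).1 hx
  exact (S_inter h g).2 ⟨pr_G1 h h1 hg hz e, pr_G1 h.flip h2 (hg.flip ha) (hz.flip ha) e⟩

theorem pr_GS2 {a b u v x g z c : K} (h : Quad a b u v) (hx : x ∈ S a b u v)
    (hg' : g ∈ S a b u v) (hg : PolC a b u v g 1) (hz : PolC a b u v z c) (e : x = g * z) :
    z ∈ S a b u v := by
  have ha := pr_ne h
  obtain ⟨h1, h2⟩ := (S_inter h x).1 hx
  obtain ⟨h3, h4⟩ := (S_inter h g).1 hg'
  exact (S_inter h z).2 ⟨pr_G2 h h1 h3 hg hz e, pr_G2 h.flip h2 h4 (hg.flip ha) (hz.flip ha) e⟩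

/-- elements of `S` are polynomials -/
theorem pr_S_pol {a b u v x : K} (hx : x ∈ S a b u v) : ∃ c, PolC a b u v x c := by
  unfold S at hx
  induction hx using Algebra.adjoin_induction with
  | mem y hy =>
    rcases hy with rfl | rfl | rfl | rfl | rfl | hy
    · exact ⟨_, PolC.u⟩
    · exact ⟨_, (PolC.const pr_mem_a).mul PolC.u⟩
    · exact ⟨_, (PolC.const pr_mem_b).mul PolC.u⟩
    · exact ⟨_, PolC.v⟩
    · exact ⟨_, (PolC.const pr_mem_a).mul PolC.v⟩
    · rw [Set.mem_singleton_iff.1 hy]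
      exact ⟨_, (PolC.const pr_mem_b).mul PolC.v⟩
  | algebraMap r =>
    exact ⟨_, PolC.const (IntermediateField.algebraMap_mem _ r)⟩
  | add y z _ _ h1 h2 =>
    obtain ⟨c, hc⟩ := h1
    obtain ⟨d, hd⟩ := h2
    exact ⟨_, hc.add hd⟩
  | mul y z _ _ h1 h2 =>
    obtain ⟨c, hc⟩ := h1
    obtain ⟨d, hd⟩ := h2
    exact ⟨_, hc.mul hd⟩

theorem pr_m_pol {a b u v : K} (y : S a b u v) (hy : y ∈ m₀ a b u v) : PolC a b u v y 0 := by
  unfold m₀ at hy
  refine Submodule.span_induction (p := fun (y : S a b u v) _ => PolC a b u v (y : K) 0)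
    ?_ ?_ ?_ ?_ hy
  · intro y hy
    have hz : ∀ d : K, d ∈ IntermediateField.adjoin ℂ {a, b} → ∀ w, PolC a b u v w 0 →
        PolC a b u v (d * w) 0 := by
      intro d hd w hw
      have := (PolC.const (u := u) (v := v) hd).mul hw
      rwa [mul_zero] at this
    rcases hy with h | h | h | h | h | h
    · rw [h]; exact PolC.u
    · rw [h]; exact hz _ pr_mem_a _ PolC.u
    · rw [h]; exact hz _ pr_mem_b _ PolC.u
    · rw [h]; exact PolC.v
    · rw [h]; exact hz _ pr_mem_a _ PolC.v
    · rw [h]; exact hz _ pr_mem_b _ PolC.v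
  · exact PolC.const (IntermediateField.zero_mem _)
  · intro y z _ _ h1 h2
    have := h1.add h2
    rwa [add_zero] at this
  · intro s y _ h1
    obtain ⟨c, hc⟩ := pr_S_pol s.2
    have := hc.mul h1
    rw [mul_zero] at this
    exact this

end principalAux

open MvPolynomial in
theorem principal {a b u v : K} (h : Quad a b u v) (p : Ideal (S a b u v)) (hp : p.IsPrime)
    (hp0 : ¬ p ≤ m₀ a b u v)
    (hh : ∀ q : Ideal (S a b u v), q.IsPrime → q ≤ p → q = ⊥ ∨ q = p) :
    ∃ g : S a b u v, p = Ideal.span {g} := by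
  classical
  obtain ⟨φ, hφ⟩ := exists_const h
  have hinj := pr_inj h
  -- a normalised element of `p`
  obtain ⟨f, hfp, hfm⟩ := SetLike.not_le_iff_exists.1 hp0
  have hφf : φ f ≠ 0 := fun h0 => hfm ((hφ f).1 h0)
  have hN : ∃ n, ∃ Q : MvPolynomial (Fin 2) (IntermediateField.adjoin ℂ {a, b}),
      constantCoeff Q = 1 ∧ (∃ s : S a b u v, (s : K) = aeval ![u, v] Q ∧ s ∈ p) ∧
        Q.totalDegree = n := by
    have h1 : (φ f)⁻¹ • f - 1 ∈ m₀ a b u v := by
      rw [← hφ, map_sub, map_smul, map_one, smul_eq_mul, inv_mul_cancel₀ hφf, sub_self]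
    obtain ⟨P, hP, hP0⟩ := pr_m_pol _ h1
    refine ⟨_, P + 1, ?_, ⟨(φ f)⁻¹ • f, ?_, ?_⟩, rfl⟩
    · rw [map_add, map_one]
      have : constantCoeff P = 0 := Subtype.ext hP0
      rw [this, zero_add]
    · rw [map_add, map_one, hP]
      push_cast
      ring
    · rw [Algebra.smul_def]
      exact Ideal.mul_mem_left _ _ hfp
  obtain ⟨Q, hQ1, ⟨g, hgQ, hgp⟩, hQn⟩ := Nat.find_spec hN
  have hmin : ∀ Q' : MvPolynomial (Fin 2) (IntermediateField.adjoin ℂ {a, b}),
      constantCoeff Q' = 1 → ∀ s : S a b u v, (s : K) = aeval ![u, v] Q' → s ∈ p →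
      Q.totalDegree ≤ Q'.totalDegree := by
    intro Q' h1 s h2 h3
    rw [hQn]
    exact Nat.find_min' hN ⟨Q', h1, ⟨s, h2, h3⟩, rfl⟩
  have hQ0 : Q ≠ 0 := by
    rintro rfl
    rw [map_zero] at hQ1
    exact zero_ne_one hQ1
  have hC : ∀ H : MvPolynomial (Fin 2) (IntermediateField.adjoin ℂ {a, b}),
      constantCoeff H = 1 → H.totalDegree = 0 → H = 1 := by
    intro H h1 h2
    have h3 := totalDegree_eq_zero_iff_eq_C.1 h2
    rw [h3, constantCoeff_C] at h1
    rw [h3, h1, C_1]
  have hPol1 : ∀ G : MvPolynomial (Fin 2) (IntermediateField.adjoin ℂ {a, b}),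
      constantCoeff G = 1 → PolC a b u v (aeval ![u, v] G) 1 := fun G hG => ⟨G, rfl, by rw [hG]; rfl⟩
  have hirr : Irreducible Q := by
    constructor
    · intro hu
      obtain ⟨r, _, hr⟩ := isUnit_iff_eq_C_of_isReduced.1 hu
      rw [hr, constantCoeff_C] at hQ1
      apply hp.ne_top
      rw [Ideal.eq_top_iff_one]
      have : g = 1 := by
        apply Subtype.ext
        rw [hgQ, hr, hQ1, C_1, map_one]
        rfl
      rw [← this]
      exact hgp
    · intro G H hGH
      have hcd : constantCoeff G * constantCoeff H = 1 := by rw [← map_mul, ← hGH, hQ1]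
      have hG1 : constantCoeff (C (constantCoeff H) * G) = 1 := by
        rw [map_mul, constantCoeff_C, mul_comm, hcd]
      have hH1 : constantCoeff (C (constantCoeff G) * H) = 1 := by
        rw [map_mul, constantCoeff_C, hcd]
      have hprod : (C (constantCoeff H) * G) * (C (constantCoeff G) * H) = Q := by
        have e1 : (C (constantCoeff H) * G) * (C (constantCoeff G) * H) =
            C (constantCoeff G * constantCoeff H) * (G * H) := by
          rw [C_mul]; ring
        rw [e1, hcd, C_1, one_mul, hGH]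
      have hg1 : (g : K) = aeval ![u, v] (C (constantCoeff H) * G) *
          aeval ![u, v] (C (constantCoeff G) * H) := by
        rw [← map_mul, hprod, hgQ]
      have hg2 : (g : K) = aeval ![u, v] (C (constantCoeff G) * H) *
          aeval ![u, v] (C (constantCoeff H) * G) := by
        rw [hg1, mul_comm]
      have hGS := pr_GS1 h g.2 (hPol1 _ hG1) (hPol1 _ hH1) hg1
      have hHS := pr_GS1 h g.2 (hPol1 _ hH1) (hPol1 _ hG1) hg2
      have hmem : (⟨_, hGS⟩ : S a b u v) * ⟨_, hHS⟩ ∈ p := by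
        have : (⟨_, hGS⟩ : S a b u v) * ⟨_, hHS⟩ = g := Subtype.ext hg1.symm
        rw [this]
        exact hgp
      have hG0 : (C (constantCoeff H) * G) ≠ 0 := by
        intro h0; rw [h0, map_zero] at hG1; exact zero_ne_one hG1
      have hH0 : (C (constantCoeff G) * H) ≠ 0 := by
        intro h0; rw [h0, map_zero] at hH1; exact zero_ne_one hH1
      have hdeg : Q.totalDegree = (C (constantCoeff H) * G).totalDegree +
          (C (constantCoeff G) * H).totalDegree := by
        rw [← hprod]; exact totalDegree_mul_of_isDomain hG0 hH0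
      rcases hp.mem_or_mem hmem with h1 | h1
      · right
        have h2 := hmin _ hG1 _ rfl h1
        have h3 : (C (constantCoeff G) * H).totalDegree = 0 := by omega
        have h4 := hC _ hH1 h3
        exact IsUnit.of_mul_eq_one (C (constantCoeff G)) (by rw [mul_comm]; exact h4)
      · left
        have h2 := hmin _ hH1 _ rfl h1
        have h3 : (C (constantCoeff H) * G).totalDegree = 0 := by omega
        have h4 := hC _ hG1 h3
        exact IsUnit.of_mul_eq_one (C (constantCoeff H)) (by rw [mul_comm]; exact h4)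
  have hQp : Prime Q := UniqueFactorizationMonoid.irreducible_iff_prime.1 hirr
  have hgPol : PolC a b u v g 1 := by rw [hgQ]; exact hPol1 Q hQ1
  have hle : Ideal.span {g} ≤ p := (Ideal.span_singleton_le_iff_mem _).2 hgp
  have hdvd : ∀ (x : S a b u v) (X1 : MvPolynomial (Fin 2) (IntermediateField.adjoin ℂ {a, b})),
      aeval ![u, v] X1 = (x : K) → Q ∣ X1 → x ∈ Ideal.span {g} := by
    rintro x X1 hX ⟨W, hW⟩
    have e : (x : K) = g * aeval ![u, v] W := by
      rw [← hX, hW, map_mul, hgQ]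
    have hWS := pr_GS2 h x.2 g.2 hgPol ⟨W, rfl, rfl⟩ e
    rw [Ideal.mem_span_singleton]
    exact ⟨⟨_, hWS⟩, Subtype.ext e⟩
  have hqp : (Ideal.span {g}).IsPrime := by
    constructor
    · intro htop
      rw [htop, top_le_iff] at hle
      exact hp.ne_top hle
    · intro x y hxy
      rw [Ideal.mem_span_singleton] at hxy
      obtain ⟨z, hz⟩ := hxy
      obtain ⟨_, X1, hX1, _⟩ := pr_S_pol x.2
      obtain ⟨_, Y1, hY1, _⟩ := pr_S_pol y.2
      obtain ⟨_, Z1, hZ1, _⟩ := pr_S_pol z.2
      have e : X1 * Y1 = Q * Z1 := by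
        apply hinj
        rw [map_mul, map_mul, hX1, hY1, hZ1, ← hgQ]
        exact congrArg Subtype.val hz
      rcases hQp.dvd_or_dvd ⟨Z1, e⟩ with h1 | h1
      · exact Or.inl (hdvd x X1 hX1 h1)
      · exact Or.inr (hdvd y Y1 hY1 h1)
  rcases hh _ hqp hle with h1 | h1
  · exfalso
    rw [Ideal.span_singleton_eq_bot] at h1
    apply hQ0
    apply hinj
    rw [← hgQ, h1, map_zero]
    rfl
  · exact ⟨g, h1.symm⟩

end ComplexityOne
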