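import Mathlib
import Pool.Agent.Helper271.CY.Defs

universe u

namespace ComplexityOne

variable {K : Type u} [Field K] [Algebra ℂ K]

noncomputable def dl753 (x : K) : Ω[K⁄ℂ] := x⁻¹ • KaehlerDifferential.D ℂ K x

theorem dl753_mul {x y : K} (hx : x ≠ 0) (hy : y ≠ 0) : dl753 (x * y) = dl753 x + dl753 y := by
  unfold dl753
  rw [Derivation.leibniz, smul_add, smul_smul, smul_smul,
    show (x * y)⁻¹ * x = y⁻¹ by field_simp, show (x * y)⁻¹ * y = x⁻¹ by field_simp, add_comm]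

theorem dl753_pow {x : K} (hx : x ≠ 0) (n : ℕ) : dl753 (x ^ n) = (n : K) • dl753 x := by
  induction n with
  | zero => simp [dl753]
  | succ n ih =>
    rw [pow_succ, dl753_mul (pow_ne_zero n hx) hx, ih, Nat.cast_succ, add_smul, one_smul]

theorem unit_inv_mem753 {O : Subalgebra ℂ K} {x : K} (hx : x ∈ O) (h : IsUnit (⟨x, hx⟩ : O)) :
    x⁻¹ ∈ O := by
  obtain ⟨w, hw⟩ := h
  have h1 : x * ((w⁻¹ : Oˣ) : O) = 1 := by
    have h2 : (w : O) * ((w⁻¹ : Oˣ) : O) = 1 := w.mul_inv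
    have h3 := congrArg (fun z : O => (z : K)) h2
    rw [hw] at h3
    exact h3
  rw [← eq_inv_of_mul_eq_one_right h1]
  exact (((w⁻¹ : Oˣ) : O)).2

theorem dl_decomp753 {O : Subalgebra ℂ K} [IsDiscreteValuationRing O] [IsFractionRing O K]
    (t : O) (ht : Irreducible t) (u : K) (hu : u ≠ 0) :
    ∃ k ∈ O, ∃ e ∈ O, e⁻¹ ∈ O ∧ dl753 u = k • dl753 (t : K) + dl753 e := by
  obtain ⟨x, y, hy, hxy⟩ := IsFractionRing.div_surjective (A := O) u
  have hy0 : y ≠ 0 := nonZeroDivisors.ne_zero hy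
  have hx0 : x ≠ 0 := by
    rintro rfl
    apply hu
    rw [← hxy, map_zero, zero_div]
  obtain ⟨n1, u1, h1⟩ := IsDiscreteValuationRing.eq_unit_mul_pow_irreducible hx0 ht
  obtain ⟨n2, u2, h2⟩ := IsDiscreteValuationRing.eq_unit_mul_pow_irreducible hy0 ht
  have ht0 : (t : K) ≠ 0 := fun h => ht.ne_zero (Subtype.ext h)
  have hw : ∀ w : Oˣ, ((w : O) : K) ≠ 0 := fun w h => w.ne_zero (Subtype.ext h)
  set e : K := (((u1 * u2⁻¹ : Oˣ) : O) : K) with he
  have heO : e ∈ O := (((u1 * u2⁻¹ : Oˣ) : O)).2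
  have heU : e⁻¹ ∈ O := unit_inv_mem753 heO (u1 * u2⁻¹).isUnit
  have he2 : e * ((u2 : O) : K) = ((u1 : O) : K) := by
    have : ((u1 * u2⁻¹ : Oˣ) : O) * (u2 : O) = (u1 : O) := by
      rw [← Units.val_mul, inv_mul_cancel_right]
    exact congrArg (fun z : O => (z : K)) this
  have he0 : e ≠ 0 := hw _
  have key : u * (t : K) ^ n2 = e * (t : K) ^ n1 := by
    have hx' : (algebraMap O K) x = ((u1 : O) : K) * (t : K) ^ n1 := by
      rw [h1]; rfl
    have hy' : (algebraMap O K) y = ((u2 : O) : K) * (t : K) ^ n2 := by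
      rw [h2]; rfl
    rw [← hxy, hx', hy', ← he2]
    have := hw u2
    field_simp
  have h3 := congrArg dl753 key
  rw [dl753_mul hu (pow_ne_zero _ ht0), dl753_mul he0 (pow_ne_zero _ ht0), dl753_pow ht0,
    dl753_pow ht0] at h3
  refine ⟨(n1 : K) - (n2 : K), O.sub_mem (natCast_mem O n1) (natCast_mem O n2), e, heO, heU, ?_⟩
  rw [sub_smul]
  have h4 : dl753 u = dl753 e + (n1 : K) • dl753 (t : K) - (n2 : K) • dl753 (t : K) :=
    eq_sub_of_add_eq h3
  rw [h4]
  abel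

theorem mem_or_inv753 (O : Subalgebra ℂ K) [IsDiscreteValuationRing O] [IsFractionRing O K]
    (x : K) : x ∈ O ∨ x⁻¹ ∈ O := by
  rcases ValuationRing.isInteger_or_isInteger O x with ⟨y, hy⟩ | ⟨y, hy⟩
  · left; rw [← hy]; exact y.2
  · right; rw [← hy]; exact y.2

theorem cube_mem753 (O : Subalgebra ℂ K) [IsDiscreteValuationRing O] [IsFractionRing O K]
    (x : K) (h : x ^ 3 ∈ O) : x ∈ O := by
  rcases mem_or_inv753 O x with h1 | h1
  · exact h1
  · by_cases hx : x = 0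
    · rw [hx]; exact O.zero_mem
    · have : x = x ^ 3 * (x⁻¹) ^ 2 := by field_simp
      rw [this]
      exact O.mul_mem h (O.pow_mem h1 2)

theorem one_sub_inv753 (O : Subalgebra ℂ K) [IsDiscreteValuationRing O]
    (y : K) (hy : y ∈ O) (h : y⁻¹ ∉ O) : (1 - y)⁻¹ ∈ O := by
  rcases IsLocalRing.isUnit_or_isUnit_one_sub_self (⟨y, hy⟩ : O) with h1 | h1
  · exact absurd (unit_inv_mem753 hy h1) h
  · exact unit_inv_mem753 (O.sub_mem O.one_mem hy) h1

theorem eta753 {a b : K} (hc : a ^ 3 + b ^ 3 = 1) (ha : a ≠ 0) (hb : b ≠ 0)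
    (O : Subalgebra ℂ K) [IsDiscreteValuationRing O] [IsFractionRing O K] :
    ∃ c ∈ O, ∃ z ∈ O, (b ^ 2)⁻¹ • KaehlerDifferential.D ℂ K a = c • KaehlerDifferential.D ℂ K z := by
  have hD : (a ^ 2) • KaehlerDifferential.D ℂ K a = -((b ^ 2) • KaehlerDifferential.D ℂ K b) := by
    have h1 := congrArg (KaehlerDifferential.D ℂ K) hc
    rw [map_add, Derivation.leibniz_pow, Derivation.leibniz_pow, Derivation.map_one_eq_zero] at h1
    have h2 : (3 : K) • ((a ^ 2) • KaehlerDifferential.D ℂ K a +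
        (b ^ 2) • KaehlerDifferential.D ℂ K b) = 0 := by
      rw [← h1, smul_add, ← Nat.cast_smul_eq_nsmul K, ← Nat.cast_smul_eq_nsmul K]
      norm_num
    haveI : CharZero K := charZero_of_injective_algebraMap (algebraMap ℂ K).injective
    have h3 := (smul_eq_zero.1 h2).resolve_left (by norm_num)
    exact eq_neg_of_add_eq_zero_left h3
  by_cases haO : a ∈ O
  · have hbO : b ∈ O := by
      apply cube_mem753
      have : b ^ 3 = 1 - a ^ 3 := by rw [← hc]; ring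
      rw [this]
      exact O.sub_mem O.one_mem (O.pow_mem haO 3)
    by_cases hbi : b⁻¹ ∈ O
    · exact ⟨(b ^ 2)⁻¹, by rw [← inv_pow]; exact O.pow_mem hbi 2, a, haO, rfl⟩
    · have h1 : (b ^ 3)⁻¹ ∉ O := by
        intro h
        apply hbi
        apply cube_mem753
        rwa [inv_pow]
      have h2 := one_sub_inv753 O _ (O.pow_mem hbO 3) h1
      have h3 : (1 - b ^ 3)⁻¹ = (a⁻¹) ^ 3 := by
        rw [inv_pow]; congr 1; rw [← hc]; ring
      rw [h3] at h2
      have h4 := cube_mem753 O _ h2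
      refine ⟨-(a⁻¹) ^ 2, O.neg_mem (O.pow_mem h4 2), b, hbO, ?_⟩
      have h5 : KaehlerDifferential.D ℂ K a = (a ^ 2)⁻¹ • -((b ^ 2) • KaehlerDifferential.D ℂ K b) := by
        rw [← hD, smul_smul, inv_mul_cancel₀ (pow_ne_zero 2 ha), one_smul]
      rw [h5, ← smul_neg, smul_smul, smul_smul, smul_neg, neg_smul]
      congr 2
      field_simp
  · have hai : a⁻¹ ∈ O := (mem_or_inv753 O a).resolve_left haO
    have hb1 : b * a⁻¹ ∈ O := by
      apply cube_mem753
      have : (b * a⁻¹) ^ 3 = (a⁻¹) ^ 3 - 1 := by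
        have h : b ^ 3 = 1 - a ^ 3 := by rw [← hc]; ring
        rw [mul_pow, h]
        field_simp
      rw [this]
      exact O.sub_mem (O.pow_mem hai 3) O.one_mem
    have h1 : ((a⁻¹) ^ 3)⁻¹ ∉ O := by
      intro h
      apply haO
      apply cube_mem753
      rwa [inv_pow, inv_inv] at h
    have h2 := one_sub_inv753 O _ (O.pow_mem hai 3) h1
    have h3 : -(1 - (a⁻¹) ^ 3)⁻¹ = ((b * a⁻¹)⁻¹) ^ 3 := by
      have h : b ^ 3 = 1 - a ^ 3 := by rw [← hc]; ring
      have h' : (b * a⁻¹) ^ 3 = -(1 - (a⁻¹) ^ 3) := by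
        rw [mul_pow, h]
        field_simp
        ring
      rw [inv_pow (b * a⁻¹), h', inv_neg]
    have h4 : (b * a⁻¹)⁻¹ ∈ O := by
      apply cube_mem753
      rw [← h3]
      exact O.neg_mem h2
    refine ⟨-((b * a⁻¹)⁻¹) ^ 2, O.neg_mem (O.pow_mem h4 2), a⁻¹, hai, ?_⟩
    rw [Derivation.leibniz_inv, smul_smul]
    congr 1
    field_simp

theorem simple_poles {a b u v : K} (h : Quad a b u v) :
    HasAtMostSimplePoles 3 (omega a b u v) := by
  intro O hO hF
  have ha : a ≠ 0 := h.indep.ne_zero 0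
  have hu : u ≠ 0 := h.indep.ne_zero 1
  have hv : v ≠ 0 := h.indep.ne_zero 2
  have hb : b ≠ 0 := by
    rintro rfl
    have h1 : a ^ 3 = 1 := by have := h.cubic; rwa [zero_pow three_ne_zero, add_zero] at this
    have h2 : Transcendental ℂ a := h.indep.transcendental 0
    apply h2
    refine ⟨Polynomial.X ^ 3 - 1, ?_, ?_⟩
    · exact Polynomial.X_pow_sub_C_ne_zero (R := ℂ) (n := 3) (by norm_num) 1
    · simp [h1]
  obtain ⟨t, ht⟩ := IsDiscreteValuationRing.exists_irreducible O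
  have ht0 : (t : K) ≠ 0 := fun h => ht.ne_zero (Subtype.ext h)
  obtain ⟨c, hcO, z, hzO, hcz⟩ := eta753 h.cubic ha hb O
  obtain ⟨k1, hk1, e1, he1, he1i, hd1⟩ := dl_decomp753 t ht u hu
  obtain ⟨k2, hk2, e2, he2, he2i, hd2⟩ := dl_decomp753 t ht v hv
  refine ⟨t, ht, ?_⟩
  have hform : ∀ x y w : K, formOf ![x, y, w] =
      ExteriorAlgebra.ι K (KaehlerDifferential.D ℂ K x) *
        (ExteriorAlgebra.ι K (KaehlerDifferential.D ℂ K y) *
          ExteriorAlgebra.ι K (KaehlerDifferential.D ℂ K w)) := by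
    intro x y w
    unfold formOf
    rw [ExteriorAlgebra.ιMulti_apply]
    simp [List.ofFn_succ]
  have hom : omega a b u v = ExteriorAlgebra.ι K ((b ^ 2)⁻¹ • KaehlerDifferential.D ℂ K a) *
      (ExteriorAlgebra.ι K (dl753 u) * ExteriorAlgebra.ι K (dl753 v)) := by
    unfold omega dl753
    rw [hform]
    simp only [map_smul, smul_mul_assoc, mul_smul_comm, smul_smul]
    congr 1
    field_simp
  have hT : ExteriorAlgebra.ι K (KaehlerDifferential.D ℂ K (t : K)) *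
      ExteriorAlgebra.ι K (KaehlerDifferential.D ℂ K (t : K)) = 0 := ExteriorAlgebra.ι_sq_zero _
  have hmain : (t : K) • omega a b u v =
      (c * k1 * e2⁻¹) • formOf ![z, (t : K), e2] + (c * k2 * e1⁻¹) • formOf ![z, e1, (t : K)] +
        ((t : K) * c * e1⁻¹ * e2⁻¹) • formOf ![z, e1, e2] := by
    rw [hom, hcz, hd1, hd2, hform, hform, hform]
    unfold dl753
    simp only [map_add, map_smul, smul_mul_assoc, mul_smul_comm, smul_smul, mul_add, add_mul,
      smul_add, hT, smul_zero, mul_zero, zero_add]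
    have h1 : (t : K) * (e2⁻¹ * (k1 * (t : K)⁻¹) * c) = c * k1 * e2⁻¹ := by field_simp
    have h2 : (t : K) * (k2 * (t : K)⁻¹ * e1⁻¹ * c) = c * k2 * e1⁻¹ := by field_simp
    have h3 : (t : K) * (e2⁻¹ * e1⁻¹ * c) = (t : K) * c * e1⁻¹ * e2⁻¹ := by ring
    rw [h1, h2, h3]
    abel
  rw [hmain]
  have hmem : ∀ (s : K), s ∈ O → ∀ x y w : K, x ∈ O → y ∈ O → w ∈ O →
      s • formOf ![x, y, w] ∈ Submodule.span O
        {η | ∃ z : Fin 3 → K, (∀ i, z i ∈ O) ∧ η = formOf z} := by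
    intro s hs x y w hx hy hw
    have h1 : formOf ![x, y, w] ∈ Submodule.span O
        {η | ∃ z : Fin 3 → K, (∀ i, z i ∈ O) ∧ η = formOf z} := by
      apply Submodule.subset_span
      refine ⟨![x, y, w], ?_, rfl⟩
      intro i
      fin_cases i
      · exact hx
      · exact hy
      · exact hw
    exact Submodule.smul_mem _ (⟨s, hs⟩ : O) h1
  refine Submodule.add_mem _ (Submodule.add_mem _ (hmem _ ?_ _ _ _ hzO t.2 he2)
    (hmem _ ?_ _ _ _ hzO he1 t.2)) (hmem _ ?_ _ _ _ hzO he1 he2)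
  · exact O.mul_mem (O.mul_mem hcO hk1) he2i
  · exact O.mul_mem (O.mul_mem hcO hk2) he1i
  · exact O.mul_mem (O.mul_mem (O.mul_mem t.2 hcO) he1i) he2i

end ComplexityOne
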