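import Mathlib
import Pool.Agent.Helper271.CY.Defs

universe u

namespace ComplexityOne

variable {K : Type u} [Field K] [Algebra ℂ K]

theorem trdeg_eq {a b u v : K} (h : Quad a b u v) : Algebra.trdeg ℂ K = (3 : ℕ) := by
  classical
  have hr : ∀ x ∈ ({a, u, v} : Set K), x ∈ Set.range ![a, u, v] := by
    intro x hx
    rcases hx with rfl | rfl | rfl
    · exact ⟨0, rfl⟩
    · exact ⟨1, rfl⟩
    · exact ⟨2, rfl⟩
  have hL : ∀ x ∈ ({a, u, v} : Set K), x ∈ IntermediateField.adjoin ℂ (Set.range ![a, u, v]) :=
    fun x hx => IntermediateField.subset_adjoin _ _ (hr x hx)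
  have hM : ∀ x ∈ IntermediateField.adjoin ℂ (Set.range ![a, u, v]),
      x ∈ algebraicClosure (IntermediateField.adjoin ℂ (Set.range ![a, u, v])) K := fun x hx =>
    (algebraicClosure (IntermediateField.adjoin ℂ (Set.range ![a, u, v])) K).algebraMap_mem ⟨x, hx⟩
  have hb : b ∈ algebraicClosure (IntermediateField.adjoin ℂ (Set.range ![a, u, v])) K := by
    rw [mem_algebraicClosure_iff']
    apply IsIntegral.of_pow (n := 3) (by norm_num)
    have h1 : b ^ 3 = 1 - a ^ 3 := by
      rw [← h.cubic]
      ring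
    have h2 : b ^ 3 ∈ IntermediateField.adjoin ℂ (Set.range ![a, u, v]) := by
      rw [h1]
      exact sub_mem (one_mem _) (pow_mem (hL a (by simp)) 3)
    exact isIntegral_algebraMap (R := IntermediateField.adjoin ℂ (Set.range ![a, u, v]))
      (x := ⟨b ^ 3, h2⟩)
  have htop : (⊤ : IntermediateField ℂ K) ≤
      (algebraicClosure (IntermediateField.adjoin ℂ (Set.range ![a, u, v])) K).restrictScalars ℂ := by
    rw [← h.top, IntermediateField.adjoin_le_iff]
    intro x hx
    rw [SetLike.mem_coe, IntermediateField.mem_restrictScalars]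
    rcases hx with rfl | rfl | rfl | rfl
    · exact hM _ (hL _ (by simp))
    · exact hb
    · exact hM _ (hL _ (by simp))
    · exact hM _ (hL _ (by simp))
  have hA : Algebra.IsAlgebraic (IntermediateField.adjoin ℂ (Set.range ![a, u, v])) K :=
    ⟨fun x => mem_algebraicClosure_iff.1 (htop (IntermediateField.mem_top : x ∈ _))⟩
  have hA2 : Algebra.IsAlgebraic (Algebra.adjoin ℂ (Set.range ![a, u, v])) K := by
    open scoped IntermediateField.algebraAdjoinAdjoin in
    exact Algebra.IsAlgebraic.trans (Algebra.adjoin ℂ (Set.range ![a, u, v]))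
      (IntermediateField.adjoin ℂ (Set.range ![a, u, v])) K
  have hB := h.indep.isTranscendenceBasis_iff_isAlgebraic.2 hA2
  have hC := hB.lift_cardinalMk_eq_trdeg
  simpa using hC.symm

end ComplexityOne
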