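import Mathlib
import Pool.Agent.Helper271.CY.Defs
import Pool.Agent.Helper271.CY.J_coords

universe u

namespace ComplexityOne

variable {K : Type u} [Field K] [Algebra ℂ K]

theorem units_const_loc (F : IntermediateField ℂ K) (ev : MvPolynomial (Fin 2) F →ₐ[F] K)
    (hev : Function.Injective ev) (r : MvPolynomial (Fin 2) F) (hr : Prime r) :
    ∃ P : Subalgebra ℂ K,
      (∀ x, x ∈ P ↔ ∃ p q : MvPolynomial (Fin 2) F, ¬ r ∣ q ∧ x = ev p / ev q) ∧
      IsDiscreteValuationRing P := by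
  have hne : ∀ q : MvPolynomial (Fin 2) F, ¬ r ∣ q → ev q ≠ 0 := by
    intro q hq h
    apply hq
    have : q = 0 := hev (by rw [h, map_zero])
    rw [this]
    exact dvd_zero _
  have hone : ¬ r ∣ 1 := fun h => hr.not_isUnit (isUnit_of_dvd_one h)
  let P : Subalgebra ℂ K :=
    { carrier := {x | ∃ p q : MvPolynomial (Fin 2) F, ¬ r ∣ q ∧ x = ev p / ev q}
      mul_mem' := by
        rintro _ _ ⟨p, q, hq, rfl⟩ ⟨p', q', hq', rfl⟩
        exact ⟨p * p', q * q', fun h => (hr.dvd_or_dvd h).elim hq hq', by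
          rw [map_mul, map_mul, div_mul_div_comm]⟩
      add_mem' := by
        rintro _ _ ⟨p, q, hq, rfl⟩ ⟨p', q', hq', rfl⟩
        exact ⟨p * q' + q * p', q * q', fun h => (hr.dvd_or_dvd h).elim hq hq', by
          rw [map_add, map_mul, map_mul, map_mul, div_add_div _ _ (hne q hq) (hne q' hq')]⟩
      algebraMap_mem' := by
        intro c
        refine ⟨MvPolynomial.C (algebraMap ℂ F c), 1, hone, ?_⟩
        rw [map_one, div_one, ← MvPolynomial.algebraMap_eq, AlgHom.commutes,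
          ← IsScalarTower.algebraMap_apply] }
  have hP : ∀ x, x ∈ P ↔ ∃ p q : MvPolynomial (Fin 2) F, ¬ r ∣ q ∧ x = ev p / ev q :=
    fun x => Iff.rfl
  refine ⟨P, hP, ?_⟩
  apply IsDiscreteValuationRing.ofHasUnitMulPowIrreducibleFactorization
  have hunit : ∀ (x : P) (p q : MvPolynomial (Fin 2) F), ¬ r ∣ p → ¬ r ∣ q →
      (x : K) = ev p / ev q → IsUnit x := by
    intro x p q hp hq hx
    rw [isUnit_iff_exists_inv]
    refine ⟨⟨ev q / ev p, q, p, hp, rfl⟩, ?_⟩
    apply Subtype.ext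
    show (x : K) * (ev q / ev p) = 1
    rw [hx]
    have h1 := hne p hp
    have h2 := hne q hq
    field_simp
  let ϖ : P := ⟨ev r, r, 1, hone, by rw [map_one, div_one]⟩
  have hϖ : (ϖ : K) = ev r := rfl
  refine ⟨ϖ, ⟨?_, ?_⟩, ?_⟩
  · intro h
    obtain ⟨y, hy⟩ := isUnit_iff_exists_inv.1 h
    obtain ⟨p, q, hq, hpq⟩ := y.2
    apply hq
    have h1 : ev r * (ev p / ev q) = 1 := by
      rw [← hpq]
      exact congrArg Subtype.val hy
    have h2 := hne q hq
    refine ⟨p, hev ?_⟩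
    rw [map_mul]
    field_simp at h1
    exact h1.symm
  · intro x y hxy
    obtain ⟨p1, q1, hq1, h1⟩ := x.2
    obtain ⟨p2, q2, hq2, h2⟩ := y.2
    have n1 := hne q1 hq1
    have n2 := hne q2 hq2
    have h3 : ev r = (ev p1 / ev q1) * (ev p2 / ev q2) := by
      rw [← h1, ← h2]
      exact congrArg Subtype.val hxy
    have h4 : r * (q1 * q2) = p1 * p2 := by
      apply hev
      rw [map_mul, map_mul, map_mul, h3]
      field_simp
    have hr0 := hr.ne_zero
    rcases hr.dvd_or_dvd (Dvd.intro _ h4) with hd | hd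
    · right
      obtain ⟨c, hc⟩ := hd
      apply hunit y p2 q2 _ hq2 h2
      intro hd2
      have h5 : q1 * q2 = c * p2 := mul_left_cancel₀ hr0 (by rw [h4, hc]; ring)
      have h6 : r ∣ q1 * q2 := by
        rw [h5]
        exact Dvd.dvd.mul_left hd2 c
      exact (hr.dvd_or_dvd h6).elim hq1 hq2
    · left
      obtain ⟨c, hc⟩ := hd
      apply hunit x p1 q1 _ hq1 h1
      intro hd2
      have h5 : q1 * q2 = p1 * c := mul_left_cancel₀ hr0 (by rw [h4, hc]; ring)
      have h6 : r ∣ q1 * q2 := by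
        rw [h5]
        exact Dvd.dvd.mul_right hd2 c
      exact (hr.dvd_or_dvd h6).elim hq1 hq2
  · intro x hx
    obtain ⟨p, q, hq, hpq⟩ := x.2
    have hp0 : p ≠ 0 := by
      rintro rfl
      apply hx
      apply Subtype.ext
      rw [hpq, map_zero, zero_div]
      rfl
    obtain ⟨n, c, hc, hpc⟩ := WfDvdMonoid.max_power_factor hp0 hr.irreducible
    refine ⟨n, ?_⟩
    have hcu : IsUnit (⟨ev c / ev q, c, q, hq, rfl⟩ : P) := hunit _ c q hc hq rfl
    obtain ⟨w, hw⟩ := hcu
    refine ⟨w, ?_⟩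
    rw [hw]
    apply Subtype.ext
    show (ev r) ^ n * (ev c / ev q) = (x : K)
    rw [hpq, hpc, map_mul, map_pow, mul_div_assoc]

theorem units_const_isloc {a b u v : K} (F : IntermediateField ℂ K) (haF : a ∈ F) (hbF : b ∈ F)
    (hFle : ∀ x ∈ Algebra.adjoin ℂ ({a, b} : Set K), x ∈ F)
    (hFdiv : ∀ c ∈ F, ∃ n ∈ Algebra.adjoin ℂ ({a, b} : Set K),
      ∃ d ∈ Algebra.adjoin ℂ ({a, b} : Set K), c = n / d)
    (ev : MvPolynomial (Fin 2) F →ₐ[F] K) (hev : Function.Injective ev)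
    (hev0 : ev (MvPolynomial.X 0) = u) (hev1 : ev (MvPolynomial.X 1) = v)
    (r : MvPolynomial (Fin 2) F) (hr : Prime r) (P : Subalgebra ℂ K)
    (hP : ∀ x, x ∈ P ↔ ∃ p q : MvPolynomial (Fin 2) F, ¬ r ∣ q ∧ x = ev p / ev q) :
    IsLocalRingOf (S a b u v) P := by
  classical
  have hevC : ∀ c : F, ev (MvPolynomial.C c) = (c : K) := by
    intro c
    rw [← MvPolynomial.algebraMap_eq, AlgHom.commutes]
    rfl
  have hevc : ∀ c : ℂ, ev (MvPolynomial.C (algebraMap ℂ F c)) = algebraMap ℂ K c := by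
    intro c
    rw [hevC]
    rfl
  have hS : ∀ s ∈ S a b u v, ∃ σ : MvPolynomial (Fin 2) F, ev σ = s := by
    intro s hs
    induction hs using Algebra.adjoin_induction with
    | mem x hx =>
      simp only [Set.mem_insert_iff, Set.mem_singleton_iff] at hx
      rcases hx with rfl | rfl | rfl | rfl | rfl | rfl
      · exact ⟨_, hev0⟩
      · exact ⟨MvPolynomial.C ⟨a, haF⟩ * MvPolynomial.X 0, by rw [map_mul, hevC, hev0]⟩
      · exact ⟨MvPolynomial.C ⟨b, hbF⟩ * MvPolynomial.X 0, by rw [map_mul, hevC, hev0]⟩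
      · exact ⟨_, hev1⟩
      · exact ⟨MvPolynomial.C ⟨a, haF⟩ * MvPolynomial.X 1, by rw [map_mul, hevC, hev1]⟩
      · exact ⟨MvPolynomial.C ⟨b, hbF⟩ * MvPolynomial.X 1, by rw [map_mul, hevC, hev1]⟩
    | algebraMap c => exact ⟨_, hevc c⟩
    | add x y _ _ hx hy =>
      obtain ⟨σ, rfl⟩ := hx
      obtain ⟨τ, rfl⟩ := hy
      exact ⟨σ + τ, map_add _ _ _⟩
    | mul x y _ _ hx hy =>
      obtain ⟨σ, rfl⟩ := hx
      obtain ⟨τ, rfl⟩ := hy
      exact ⟨σ * τ, map_mul _ _ _⟩
  -- the prime ideal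
  let 𝔮 : Ideal (S a b u v) :=
    { carrier := {s | ∃ c : MvPolynomial (Fin 2) F, ev (r * c) = (s : K)}
      add_mem' := by
        rintro x y ⟨c, hc⟩ ⟨d, hd⟩
        exact ⟨c + d, by rw [mul_add, map_add, hc, hd]; rfl⟩
      zero_mem' := ⟨0, by rw [mul_zero, map_zero]; rfl⟩
      smul_mem' := by
        rintro s x ⟨c, hc⟩
        obtain ⟨σ, hσ⟩ := hS s s.2
        refine ⟨σ * c, ?_⟩
        show _ = ((s * x : S a b u v) : K)
        rw [mul_left_comm, map_mul, hσ, hc]
        rfl }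
  have h𝔮 : ∀ s : S a b u v, s ∈ 𝔮 ↔ ∃ c : MvPolynomial (Fin 2) F, ev (r * c) = (s : K) :=
    fun s => Iff.rfl
  have hprime : 𝔮.IsPrime := by
    refine ⟨?_, ?_⟩
    · intro htop
      have h1 : (1 : S a b u v) ∈ 𝔮 := by rw [htop]; trivial
      obtain ⟨c, hc⟩ := (h𝔮 1).1 h1
      apply hr.not_isUnit
      apply isUnit_of_dvd_one
      refine ⟨c, hev ?_⟩
      rw [hc, map_one]
      rfl
    · intro x y hxy
      obtain ⟨c, hc⟩ := (h𝔮 _).1 hxy
      obtain ⟨σ, hσ⟩ := hS x x.2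
      obtain ⟨τ, hτ⟩ := hS y y.2
      have h1 : r * c = σ * τ := by
        apply hev
        rw [hc, map_mul ev σ τ, hσ, hτ]
        rfl
      rcases hr.dvd_or_dvd (Dvd.intro _ h1) with ⟨d, hd⟩ | ⟨d, hd⟩
      · left
        exact ⟨d, by rw [← hd, hσ]⟩
      · right
        exact ⟨d, by rw [← hd, hτ]⟩
  refine ⟨𝔮, hprime, ?_⟩
  -- clearing denominators
  set T : Subalgebra ℂ K := Algebra.adjoin ℂ {a, b, u, v} with hT
  have hle : Algebra.adjoin ℂ {a, b} ≤ T := by
    apply Algebra.adjoin_mono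
    intro x hx
    simp only [Set.mem_insert_iff, Set.mem_singleton_iff] at hx ⊢
    tauto
  have huT : u ∈ T := Algebra.subset_adjoin (by simp)
  have hvT : v ∈ T := Algebra.subset_adjoin (by simp)
  have hclear : ∀ p : MvPolynomial (Fin 2) F, ∃ d ∈ Algebra.adjoin ℂ ({a, b} : Set K), d ≠ 0 ∧
      d * ev p ∈ T := by
    intro p
    induction p using MvPolynomial.induction_on with
    | C c =>
      obtain ⟨n, hn, d, hd, hcd⟩ := hFdiv c c.2
      rw [hevC]
      by_cases hd0 : d = 0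
      · refine ⟨1, one_mem _, one_ne_zero, ?_⟩
        rw [hcd, hd0, div_zero, mul_zero]
        exact zero_mem _
      · refine ⟨d, hd, hd0, ?_⟩
        rw [hcd, mul_div_cancel₀ _ hd0]
        exact hle hn
    | add p q hp hq =>
      obtain ⟨d, hd, hd0, h1⟩ := hp
      obtain ⟨e, he, he0, h2⟩ := hq
      refine ⟨d * e, mul_mem hd he, mul_ne_zero hd0 he0, ?_⟩
      have : d * e * ev (p + q) = e * (d * ev p) + d * (e * ev q) := by
        rw [map_add]; ring
      rw [this]
      exact add_mem (mul_mem (hle he) h1) (mul_mem (hle hd) h2)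
    | mul_X p i hp =>
      obtain ⟨d, hd, hd0, h1⟩ := hp
      refine ⟨d, hd, hd0, ?_⟩
      rw [map_mul, ← mul_assoc]
      apply mul_mem h1
      fin_cases i
      · show ev (MvPolynomial.X 0) ∈ T
        rw [hev0]; exact huT
      · show ev (MvPolynomial.X 1) ∈ T
        rw [hev1]; exact hvT
  have huS : u ∈ S a b u v := Algebra.subset_adjoin (by simp)
  have hvS : v ∈ S a b u v := Algebra.subset_adjoin (by simp)
  have hauS : a * u ∈ S a b u v := Algebra.subset_adjoin (by simp)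
  have hbuS : b * u ∈ S a b u v := Algebra.subset_adjoin (by simp)
  have havS : a * v ∈ S a b u v := Algebra.subset_adjoin (by simp)
  have hbvS : b * v ∈ S a b u v := Algebra.subset_adjoin (by simp)
  have hw : ∀ w ∈ S a b u v, a * w ∈ S a b u v → b * w ∈ S a b u v → ∀ t ∈ T, ∃ N : ℕ,
      t * w ^ N ∈ S a b u v := by
    intro w hwS haw hbw t ht
    induction ht using Algebra.adjoin_induction with
    | mem x hx =>
      simp only [Set.mem_insert_iff, Set.mem_singleton_iff] at hx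
      rcases hx with rfl | rfl | rfl | rfl
      · exact ⟨1, by rw [pow_one]; exact haw⟩
      · exact ⟨1, by rw [pow_one]; exact hbw⟩
      · exact ⟨0, by rw [pow_zero, mul_one]; exact huS⟩
      · exact ⟨0, by rw [pow_zero, mul_one]; exact hvS⟩
    | algebraMap c => exact ⟨0, by rw [pow_zero, mul_one]; exact Subalgebra.algebraMap_mem _ c⟩
    | add x y _ _ hx hy =>
      obtain ⟨N, hN⟩ := hx
      obtain ⟨M, hM⟩ := hy
      refine ⟨N + M, ?_⟩
      have : (x + y) * w ^ (N + M) = (x * w ^ N) * w ^ M + (y * w ^ M) * w ^ N := by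
        rw [pow_add]; ring
      rw [this]
      exact add_mem (mul_mem hN (pow_mem hwS _)) (mul_mem hM (pow_mem hwS _))
    | mul x y _ _ hx hy =>
      obtain ⟨N, hN⟩ := hx
      obtain ⟨M, hM⟩ := hy
      refine ⟨N + M, ?_⟩
      have : (x * y) * w ^ (N + M) = (x * w ^ N) * (y * w ^ M) := by
        rw [pow_add]; ring
      rw [this]
      exact mul_mem hN hM
  -- a variable that is not divisible by r
  obtain ⟨i, hi⟩ : ∃ i : Fin 2, ¬ r ∣ MvPolynomial.X i := by
    by_contra hcon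
    push Not at hcon
    have h0 := hcon 0
    have h1 := hcon 1
    have hX0 : Prime (MvPolynomial.X 0 : MvPolynomial (Fin 2) F) := MvPolynomial.X_prime
    have h2 : Associated r (MvPolynomial.X 0) :=
      hr.irreducible.associated_of_dvd hX0.irreducible h0
    have h3 : (MvPolynomial.X 0 : MvPolynomial (Fin 2) F) ∣ MvPolynomial.X 1 :=
      h2.symm.dvd.trans h1
    rw [MvPolynomial.X_dvd_X] at h3
    exact absurd h3 (by decide)
  obtain ⟨w, hwi, hw0, hwN⟩ : ∃ w : K, ev (MvPolynomial.X i) = w ∧ w ∈ S a b u v ∧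
      ∀ t ∈ T, ∃ N : ℕ, t * w ^ N ∈ S a b u v := by
    fin_cases i
    · exact ⟨u, hev0, huS, hw u huS hauS hbuS⟩
    · exact ⟨v, hev1, hvS, hw v hvS havS hbvS⟩
  have hwne : w ≠ 0 := by
    intro h0
    rw [h0] at hwi
    apply hi
    have : (MvPolynomial.X i : MvPolynomial (Fin 2) F) = 0 := hev (by rw [hwi, map_zero])
    rw [this]
    exact dvd_zero _
  intro x
  rw [hP x]
  constructor
  · rintro ⟨p, q, hq, rfl⟩
    obtain ⟨d1, hd1, hd10, hp1⟩ := hclear p
    obtain ⟨d2, hd2, hd20, hq1⟩ := hclear q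
    have hpT : d1 * d2 * ev p ∈ T := by
      have : d1 * d2 * ev p = d2 * (d1 * ev p) := by ring
      rw [this]
      exact mul_mem (hle hd2) hp1
    have hqT : d1 * d2 * ev q ∈ T := by
      have : d1 * d2 * ev q = d1 * (d2 * ev q) := by ring
      rw [this]
      exact mul_mem (hle hd1) hq1
    obtain ⟨N, hN⟩ := hwN _ hpT
    obtain ⟨M, hM⟩ := hwN _ hqT
    have hpS : d1 * d2 * ev p * w ^ (N + M) ∈ S a b u v := by
      rw [pow_add, ← mul_assoc]
      exact mul_mem hN (pow_mem hw0 _)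
    have hqS : d1 * d2 * ev q * w ^ (N + M) ∈ S a b u v := by
      rw [add_comm, pow_add, ← mul_assoc]
      exact mul_mem hM (pow_mem hw0 _)
    refine ⟨⟨_, hpS⟩, ⟨_, hqS⟩, ?_, ?_⟩
    · rintro ⟨c, hc⟩
      have hdF : d1 * d2 ∈ F := hFle _ (mul_mem hd1 hd2)
      have hd0 : (⟨d1 * d2, hdF⟩ : F) ≠ 0 := by
        intro h0
        exact mul_ne_zero hd10 hd20 (congrArg Subtype.val h0)
      have h1 : r * c = MvPolynomial.C (⟨d1 * d2, hdF⟩ : F) * q * MvPolynomial.X i ^ (N + M) := by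
        apply hev
        rw [hc, map_mul, map_mul, map_pow, hevC, hwi]
      rcases hr.dvd_or_dvd (Dvd.intro _ h1) with h2 | h2
      · rcases hr.dvd_or_dvd h2 with h3 | h3
        · apply hr.not_isUnit
          apply isUnit_of_dvd_unit h3
          exact (isUnit_iff_ne_zero.2 hd0).map MvPolynomial.C
        · exact hq h3
      · exact hi (hr.dvd_of_dvd_pow h2)
    · show ev p / ev q = (d1 * d2 * ev p * w ^ (N + M)) / (d1 * d2 * ev q * w ^ (N + M))
      have hq0 : ev q ≠ 0 := by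
        intro h0
        apply hq
        have : q = 0 := hev (by rw [h0, map_zero])
        rw [this]
        exact dvd_zero _
      field_simp
  · rintro ⟨p, q, hq, rfl⟩
    obtain ⟨σ, hσ⟩ := hS p p.2
    obtain ⟨τ, hτ⟩ := hS q q.2
    refine ⟨σ, τ, ?_, by rw [hσ, hτ]⟩
    rintro ⟨c, hc⟩
    apply hq
    exact ⟨c, by rw [← hc, hτ]⟩

theorem units_const_gen {a b u v : K} (F : IntermediateField ℂ K) (haF : a ∈ F) (hbF : b ∈ F)
    (hFle : ∀ x ∈ Algebra.adjoin ℂ ({a, b} : Set K), x ∈ F)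
    (hFdiv : ∀ c ∈ F, ∃ n ∈ Algebra.adjoin ℂ ({a, b} : Set K),
      ∃ d ∈ Algebra.adjoin ℂ ({a, b} : Set K), c = n / d)
    (ev : MvPolynomial (Fin 2) F →ₐ[F] K) (hev : Function.Injective ev)
    (hev0 : ev (MvPolynomial.X 0) = u) (hev1 : ev (MvPolynomial.X 1) = v)
    {g : K} (hg : g ≠ 0) (p q : MvPolynomial (Fin 2) F) (hq0 : q ≠ 0) (hgpq : g = ev p / ev q)
    (hP : ∀ P : Subalgebra ℂ K, IsLocalRingOf (S a b u v) P → IsDiscreteValuationRing P →
      HasOrder P g 0) : g ∈ F := by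
  classical
  by_contra hgF
  have hevC : ∀ c : F, ev (MvPolynomial.C c) = (c : K) := by
    intro c
    rw [← MvPolynomial.algebraMap_eq, AlgHom.commutes]
    rfl
  have hne : ∀ x : MvPolynomial (Fin 2) F, x ≠ 0 → ev x ≠ 0 := by
    intro x hx h0
    exact hx (hev (by rw [h0, map_zero]))
  obtain ⟨p', q', c', hrel, hp', hq'⟩ := UniqueFactorizationMonoid.exists_reduced_factors' p q hq0
  have hc0 : c' ≠ 0 := by
    rintro rfl
    apply hq0
    rw [← hq', zero_mul]
  have hq0' : q' ≠ 0 := by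
    rintro rfl
    apply hq0
    rw [← hq', mul_zero]
  have hg2 : g = ev p' / ev q' := by
    rw [hgpq, ← hp', ← hq', map_mul, map_mul]
    have := hne c' hc0
    field_simp
  have hp0' : p' ≠ 0 := by
    rintro rfl
    apply hg
    rw [hg2, map_zero, zero_div]
  -- a prime factor
  have hkey : ∀ r : MvPolynomial (Fin 2) F, Prime r → (r ∣ p' ∨ r ∣ q') → False := by
    intro r hr hdiv
    obtain ⟨P, hPmem, hPdvr⟩ := units_const_loc F ev hev r hr
    have hloc := units_const_isloc F haF hbF hFle hFdiv ev hev hev0 hev1 r hr P hPmem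
    obtain ⟨t, e, ht, he, hge⟩ := hP P hloc hPdvr
    rw [zpow_zero, mul_one] at hge
    have hunit : IsUnit e := he
    obtain ⟨e', he'⟩ := isUnit_iff_exists_inv.1 hunit
    obtain ⟨x1, y1, hy1, hx1⟩ := (hPmem _).1 e.2
    obtain ⟨x2, y2, hy2, hx2⟩ := (hPmem _).1 e'.2
    have hy1' : ev y1 ≠ 0 := hne y1 (fun h0 => hy1 (by rw [h0]; exact dvd_zero _))
    have hy2' : ev y2 ≠ 0 := hne y2 (fun h0 => hy2 (by rw [h0]; exact dvd_zero _))
    have hqe := hne q' hq0'
    have hpe := hne p' hp0'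
    have h1 : p' * y1 = x1 * q' := by
      apply hev
      rw [map_mul, map_mul]
      have : ev p' / ev q' = ev x1 / ev y1 := by rw [← hg2, hge, hx1]
      rw [div_eq_div_iff hqe hy1'] at this
      exact this
    have h2 : q' * y2 = x2 * p' := by
      apply hev
      rw [map_mul, map_mul]
      have h3 : (e : K) * (e' : K) = 1 := congrArg Subtype.val he'
      have : ev q' / ev p' = ev x2 / ev y2 := by
        rw [← hx2]
        have h4 : ev p' / ev q' * (e' : K) = 1 := by rw [← hg2, hge, h3]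
        field_simp at h4 ⊢
        rw [h4]
      rw [div_eq_div_iff hpe hy2'] at this
      exact this
    have hrn : ∀ d, d ∣ p' → d ∣ q' → IsUnit d := fun d hd1 hd2 => hrel hd1 hd2
    rcases hdiv with hd | hd
    · have hnq : ¬ r ∣ q' := fun hh => hr.not_isUnit (hrn r hd hh)
      have h5 : r ∣ q' * y2 := by
        rw [h2]; exact Dvd.dvd.mul_left hd x2
      exact (hr.dvd_or_dvd h5).elim hnq hy2
    · have hnp : ¬ r ∣ p' := fun hh => hr.not_isUnit (hrn r hh hd)
      have h5 : r ∣ p' * y1 := by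
        rw [h1]; exact Dvd.dvd.mul_left hd x1
      exact (hr.dvd_or_dvd h5).elim hnp hy1
  have hpu : IsUnit p' := by
    by_contra hnu
    obtain ⟨r, hr, hrd⟩ := WfDvdMonoid.exists_irreducible_factor hnu hp0'
    exact hkey r hr.prime (Or.inl hrd)
  have hqu : IsUnit q' := by
    by_contra hnu
    obtain ⟨r, hr, hrd⟩ := WfDvdMonoid.exists_irreducible_factor hnu hq0'
    exact hkey r hr.prime (Or.inr hrd)
  obtain ⟨c1, -, hc1⟩ := MvPolynomial.isUnit_iff_eq_C_of_isReduced.1 hpu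
  obtain ⟨c2, -, hc2⟩ := MvPolynomial.isUnit_iff_eq_C_of_isReduced.1 hqu
  apply hgF
  rw [hg2, hc1, hc2, hevC, hevC]
  exact div_mem c1.2 c2.2

theorem units_const {a b u v : K} (h : Quad a b u v) {g : K} (hg : g ≠ 0)
    (hP : ∀ P : Subalgebra ℂ K, IsLocalRingOf (S a b u v) P → IsDiscreteValuationRing P →
      HasOrder P g 0) : g ∈ IntermediateField.adjoin ℂ {a, b} := by
  obtain ⟨p, q, hq0, hgpq⟩ := (coordsF h).2 g
  exact units_const_gen (IntermediateField.adjoin ℂ {a, b})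
    (IntermediateField.subset_adjoin ℂ _ (by simp)) (IntermediateField.subset_adjoin ℂ _ (by simp))
    (fun x hx => IntermediateField.algebra_adjoin_le_adjoin ℂ _ hx)
    (fun c hc => IntermediateField.mem_adjoin_iff_div.1 hc)
    (MvPolynomial.aeval ![u, v]) (coordsF h).1
    (by rw [MvPolynomial.aeval_X]; rfl) (by rw [MvPolynomial.aeval_X]; rfl) hg p q hq0 hgpq hP

end ComplexityOne
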