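import Mathlib
import Pool.Agent.Helper271.CY.Defs
import Pool.Agent.Helper271.CY.J_chartS
import Pool.Agent.Helper271.CY.J_constterm

universe u

namespace ComplexityOne

variable {K : Type u} [Field K] [Algebra ℂ K]

theorem exists_vertex {a b u v : K} (h : Quad a b u v) :
    ∃ O : Subalgebra ℂ K, IsPoint (V a b u v) O ∧ IsVertex a b u v O := by
  obtain ⟨φ, hφ⟩ := exists_const h
  have hker : m₀ a b u v = RingHom.ker φ := by
    ext x
    rw [RingHom.mem_ker]
    exact (hφ x).symm
  have hprime : (m₀ a b u v).IsPrime := by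
    rw [hker]
    exact RingHom.ker_isPrime _
  have hone : (1 : S a b u v) ∉ m₀ a b u v := (Ideal.ne_top_iff_one _).1 hprime.ne_top
  have hmul : ∀ s t : S a b u v, s ∉ m₀ a b u v → t ∉ m₀ a b u v → s * t ∉ m₀ a b u v := by
    intro s t hs ht hst
    rcases hprime.mem_or_mem hst with h1 | h1
    · exact hs h1
    · exact ht h1
  have hne : ∀ s : S a b u v, s ∉ m₀ a b u v → (s : K) ≠ 0 := by
    intro s hs h0
    have h1 : s = 0 := Subtype.ext h0
    exact hs (h1 ▸ Ideal.zero_mem _)
  let O : Subalgebra ℂ K :=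
    { carrier := {x | ∃ r s : S a b u v, s ∉ m₀ a b u v ∧ x = (r : K) / (s : K)}
      mul_mem' := by
        rintro _ _ ⟨r, s, hs, rfl⟩ ⟨r', s', hs', rfl⟩
        refine ⟨r * r', s * s', hmul s s' hs hs', ?_⟩
        push_cast
        rw [div_mul_div_comm]
      add_mem' := by
        rintro _ _ ⟨r, s, hs, rfl⟩ ⟨r', s', hs', rfl⟩
        refine ⟨r * s' + s * r', s * s', hmul s s' hs hs', ?_⟩
        push_cast
        rw [div_add_div _ _ (hne s hs) (hne s' hs')]
      algebraMap_mem' := by
        intro c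
        refine ⟨algebraMap ℂ _ c, 1, hone, ?_⟩
        simp }
  refine ⟨O, ⟨1, ?_, one_ne_zero, ?_⟩, ?_⟩
  · exact Submodule.subset_span (by simp)
  · rw [chart_one]
    exact ⟨m₀ a b u v, hprime, fun x => Iff.rfl⟩
  · intro x
    exact Iff.rfl

end ComplexityOne
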