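import Mathlib
import Pool.Agent.Helper271.CY.Defs
import Pool.Agent.Helper271.CY.J_coords
import Pool.Agent.Helper271.CY.J_constterm

universe u

namespace ComplexityOne

variable {K : Type u} [Field K] [Algebra ℂ K]

/-- elements of `m₀` are polynomials without constant term -/
theorem vertex_m0 {a b u v : K} (h : Quad a b u v) (x : S a b u v) (hx : x ∈ m₀ a b u v) :
    ∃ p : MvPolynomial (Fin 2) (IntermediateField.adjoin ℂ {a, b}),
      MvPolynomial.constantCoeff p = 0 ∧ MvPolynomial.aeval ![u, v] p = (x : K) := by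
  have ha : a ∈ IntermediateField.adjoin ℂ {a, b} := IntermediateField.subset_adjoin _ _ (by simp)
  have hb : b ∈ IntermediateField.adjoin ℂ {a, b} := IntermediateField.subset_adjoin _ _ (by simp)
  have hS : ∀ y : S a b u v, ∃ p : MvPolynomial (Fin 2) (IntermediateField.adjoin ℂ {a, b}),
      MvPolynomial.aeval ![u, v] p = (y : K) := by
    intro y
    have hle : S a b u v ≤ ((MvPolynomial.aeval ![u, v] :
        MvPolynomial (Fin 2) (IntermediateField.adjoin ℂ {a, b}) →ₐ[IntermediateField.adjoin ℂ {a, b}] K).restrictScalars ℂ).range := by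
      apply Algebra.adjoin_le
      intro w hw
      simp only [Set.mem_insert_iff, Set.mem_singleton_iff] at hw
      rcases hw with rfl | rfl | rfl | rfl | rfl | rfl
      · exact ⟨MvPolynomial.X 0, by simp⟩
      · exact ⟨MvPolynomial.C ⟨a, ha⟩ * MvPolynomial.X 0, by
          simp [IntermediateField.algebraMap_apply]⟩
      · exact ⟨MvPolynomial.C ⟨b, hb⟩ * MvPolynomial.X 0, by
          simp [IntermediateField.algebraMap_apply]⟩
      · exact ⟨MvPolynomial.X 1, by simp⟩
      · exact ⟨MvPolynomial.C ⟨a, ha⟩ * MvPolynomial.X 1, by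
          simp [IntermediateField.algebraMap_apply]⟩
      · exact ⟨MvPolynomial.C ⟨b, hb⟩ * MvPolynomial.X 1, by
          simp [IntermediateField.algebraMap_apply]⟩
    obtain ⟨p, hp⟩ := hle y.2
    exact ⟨p, hp⟩
  have hx' : x ∈ Submodule.span (S a b u v) {x : S a b u v | (x : K) = u ∨ (x : K) = a * u ∨
    (x : K) = b * u ∨ (x : K) = v ∨ (x : K) = a * v ∨ (x : K) = b * v} := hx
  refine Submodule.span_induction (p := fun (x : S a b u v) _ =>
    ∃ p : MvPolynomial (Fin 2) (IntermediateField.adjoin ℂ {a, b}),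
      MvPolynomial.constantCoeff p = 0 ∧ MvPolynomial.aeval ![u, v] p = (x : K)) ?_ ?_ ?_ ?_ hx'
  · intro w hw
    rcases hw with hw | hw | hw | hw | hw | hw
    · exact ⟨MvPolynomial.X 0, by simp, by rw [hw]; simp⟩
    · exact ⟨MvPolynomial.C ⟨a, ha⟩ * MvPolynomial.X 0, by simp, by
        rw [hw]; simp [IntermediateField.algebraMap_apply]⟩
    · exact ⟨MvPolynomial.C ⟨b, hb⟩ * MvPolynomial.X 0, by simp, by
        rw [hw]; simp [IntermediateField.algebraMap_apply]⟩
    · exact ⟨MvPolynomial.X 1, by simp, by rw [hw]; simp⟩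
    · exact ⟨MvPolynomial.C ⟨a, ha⟩ * MvPolynomial.X 1, by simp, by
        rw [hw]; simp [IntermediateField.algebraMap_apply]⟩
    · exact ⟨MvPolynomial.C ⟨b, hb⟩ * MvPolynomial.X 1, by simp, by
        rw [hw]; simp [IntermediateField.algebraMap_apply]⟩
  · exact ⟨0, by simp, by simp⟩
  · rintro y z _ _ ⟨p, hp1, hp2⟩ ⟨q, hq1, hq2⟩
    exact ⟨p + q, by rw [map_add, hp1, hq1, add_zero], by rw [map_add, hp2, hq2]; rfl⟩
  · rintro r y _ ⟨p, hp1, hp2⟩
    obtain ⟨q, hq⟩ := hS r
    exact ⟨q * p, by rw [map_mul, hp1, mul_zero], by rw [map_mul, hp2, hq]; rfl⟩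

/-- elements of `S` are polynomials with constant term given by `φ` -/
theorem vertex_S {a b u v : K} (h : Quad a b u v) (φ : S a b u v →ₐ[ℂ] ℂ)
    (hφ : ∀ x, φ x = 0 ↔ x ∈ m₀ a b u v) (x : S a b u v) :
    ∃ p : MvPolynomial (Fin 2) (IntermediateField.adjoin ℂ {a, b}),
      MvPolynomial.constantCoeff p = algebraMap ℂ _ (φ x) ∧
        MvPolynomial.aeval ![u, v] p = (x : K) := by
  have h1 : x - algebraMap ℂ (S a b u v) (φ x) ∈ m₀ a b u v := by
    rw [← hφ, map_sub, AlgHom.commutes]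
    exact sub_self _
  obtain ⟨p, hp1, hp2⟩ := vertex_m0 h _ h1
  refine ⟨p + MvPolynomial.C (algebraMap ℂ _ (φ x)), ?_, ?_⟩
  · rw [map_add, hp1, zero_add, MvPolynomial.constantCoeff_C]
  · rw [map_add, hp2, MvPolynomial.aeval_C, ← IsScalarTower.algebraMap_apply]
    show ((x : K) - algebraMap ℂ K (φ x)) + algebraMap ℂ K (φ x) = x
    ring

theorem vertex_not_dvr {a b u v : K} (h : Quad a b u v) {O : Subalgebra ℂ K}
    (hO : IsVertex a b u v O) : ¬ IsDiscreteValuationRing O := by
  intro hdvr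
  obtain ⟨φ, hφ⟩ := exists_const h
  have h1 : (1 : S a b u v) ∉ m₀ a b u v := by
    rw [← hφ, map_one]; exact one_ne_zero
  have huS : u ∈ S a b u v := Algebra.subset_adjoin (by simp)
  have hvS : v ∈ S a b u v := Algebra.subset_adjoin (by simp)
  have huO : u ∈ O := (hO u).2 ⟨⟨u, huS⟩, 1, h1, by simp⟩
  have hvO : v ∈ O := (hO v).2 ⟨⟨v, hvS⟩, 1, h1, by simp⟩
  have hinj : Function.Injective (MvPolynomial.aeval ![u, v] :
      MvPolynomial (Fin 2) (IntermediateField.adjoin ℂ {a, b}) →ₐ[IntermediateField.adjoin ℂ {a, b}] K) :=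
    (coordsF h).1
  -- the key step
  have key : ∀ (i j : Fin 2) (hij : i ≠ j) (r s : S a b u v), s ∉ m₀ a b u v →
      (![u, v] i) * (s : K) = (![u, v] j) * (r : K) → False := by
    intro i j hij r s hs he
    obtain ⟨p, hp1, hp2⟩ := vertex_S h φ hφ s
    obtain ⟨q, hq1, hq2⟩ := vertex_S h φ hφ r
    have h2 : MvPolynomial.X i * p = MvPolynomial.X j * q := by
      apply hinj
      rw [map_mul, map_mul, MvPolynomial.aeval_X, MvPolynomial.aeval_X, hp2, hq2, he]
    have h3 := congrArg (MvPolynomial.coeff (Finsupp.single i 1)) h2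
    rw [MvPolynomial.coeff_X_mul', MvPolynomial.coeff_X_mul'] at h3
    rw [if_pos (by simp), if_neg (by simpa using hij.symm)] at h3
    rw [tsub_self] at h3
    have h4 : MvPolynomial.constantCoeff p = 0 := h3
    rw [hp1, map_eq_zero, hφ] at h4
    exact hs h4
  have hzero : ∀ s : S a b u v, s ∉ m₀ a b u v → (s : K) ≠ 0 := by
    intro s hs h0
    apply hs
    have : s = 0 := Subtype.ext h0
    rw [this]
    exact Submodule.zero_mem _
  rcases ValuationRing.dvd_total (⟨u, huO⟩ : O) ⟨v, hvO⟩ with ⟨c, hc⟩ | ⟨c, hc⟩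
  · obtain ⟨r, s, hs, hrs⟩ := (hO c).1 c.2
    have h5 : v = u * (c : K) := congrArg Subtype.val hc
    refine key 1 0 (by decide) r s hs ?_
    show v * (s : K) = u * (r : K)
    have h6 : (c : K) * (s : K) = r := (eq_div_iff (hzero s hs)).1 hrs
    calc v * (s : K) = u * (c : K) * s := by rw [← h5]
      _ = u * (r : K) := by rw [mul_assoc, h6]
  · obtain ⟨r, s, hs, hrs⟩ := (hO c).1 c.2
    have h5 : u = v * (c : K) := congrArg Subtype.val hc
    refine key 0 1 (by decide) r s hs ?_
    show u * (s : K) = v * (r : K)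
    have h6 : (c : K) * (s : K) = r := (eq_div_iff (hzero s hs)).1 hrs
    calc u * (s : K) = v * (c : K) * s := by rw [← h5]
      _ = v * (r : K) := by rw [mul_assoc, h6]

end ComplexityOne
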