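import Mathlib
import Pool.Agent.Helper271.CY.Defs

universe u

namespace ComplexityOne

variable {K : Type u} [Field K] [Algebra ℂ K]

/-- auxiliary form of `IsVertex` -/
def VP (T : Subalgebra ℂ K) (P : K → Prop) (O : Subalgebra ℂ K) : Prop :=
  ∀ x : K, x ∈ O ↔ ∃ r s : T, s ∉ Ideal.span {y : T | P (y : K)} ∧ x = (r : K) / (s : K)

theorem VP_congr {T₁ T₂ : Subalgebra ℂ K} (hT : T₁ = T₂) {P₁ P₂ : K → Prop}
    {O : Subalgebra ℂ K}
    (h12 : ∀ y : T₂, P₁ (y : K) → y ∈ Ideal.span {y : T₂ | P₂ (y : K)})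
    (h21 : ∀ y : T₂, P₂ (y : K) → y ∈ Ideal.span {y : T₂ | P₁ (y : K)}) :
    VP T₁ P₁ O ↔ VP T₂ P₂ O := by
  subst hT
  have h : Ideal.span {y : T₁ | P₁ (y : K)} = Ideal.span {y : T₁ | P₂ (y : K)} := by
    apply le_antisymm
    · rw [Ideal.span_le]
      intro y hy
      exact h12 y hy
    · rw [Ideal.span_le]
      intro y hy
      exact h21 y hy
  unfold VP
  rw [h]

theorem S_swap_le (a b u v : K) : S a b v u ≤ S a b u v := by
  unfold S
  apply Algebra.adjoin_le
  intro x hx
  apply Algebra.subset_adjoin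
  simp only [Set.mem_insert_iff, Set.mem_singleton_iff] at hx ⊢
  tauto

theorem S_swap_vertexsym (a b u v : K) : S a b v u = S a b u v :=
  le_antisymm (S_swap_le a b u v) (S_swap_le a b v u)

theorem S_flip_vertexsym {a b u v : K} (ha : a ≠ 0) :
    S a⁻¹ (-b / a) (a * u) (a * v) = S a b u v := by
  have e1 : ∀ w : K, a⁻¹ * (a * w) = w := fun w => by field_simp
  have e2 : ∀ w : K, -b / a * (a * w) = -(b * w) := fun w => by field_simp
  unfold S
  rw [e1, e1, e2, e2]
  apply le_antisymm
  · apply Algebra.adjoin_le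
    intro x hx
    simp only [Set.mem_insert_iff, Set.mem_singleton_iff] at hx
    have hg : ∀ y : K, (y = u ∨ y = a * u ∨ y = b * u ∨ y = v ∨ y = a * v ∨ y = b * v) →
        y ∈ Algebra.adjoin ℂ ({u, a * u, b * u, v, a * v, b * v} : Set K) := by
      intro y hy
      apply Algebra.subset_adjoin
      simpa only [Set.mem_insert_iff, Set.mem_singleton_iff] using hy
    rcases hx with rfl | rfl | rfl | rfl | rfl | rfl
    · exact hg _ (by tauto)
    · exact hg _ (by tauto)
    · exact neg_mem (hg _ (by tauto))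
    · exact hg _ (by tauto)
    · exact hg _ (by tauto)
    · exact neg_mem (hg _ (by tauto))
  · apply Algebra.adjoin_le
    intro x hx
    simp only [Set.mem_insert_iff, Set.mem_singleton_iff] at hx
    have hg : ∀ y : K, (y = a * u ∨ y = u ∨ y = -(b * u) ∨ y = a * v ∨ y = v ∨ y = -(b * v)) →
        y ∈ Algebra.adjoin ℂ ({a * u, u, -(b * u), a * v, v, -(b * v)} : Set K) := by
      intro y hy
      apply Algebra.subset_adjoin
      simpa only [Set.mem_insert_iff, Set.mem_singleton_iff] using hy
    rcases hx with rfl | rfl | rfl | rfl | rfl | rfl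
    · exact hg _ (by tauto)
    · exact hg _ (by tauto)
    · have := neg_mem (hg (-(b * u)) (by tauto))
      rwa [neg_neg] at this
    · exact hg _ (by tauto)
    · exact hg _ (by tauto)
    · have := neg_mem (hg (-(b * v)) (by tauto))
      rwa [neg_neg] at this

theorem isVertex_iff (a b u v : K) (O : Subalgebra ℂ K) : IsVertex a b u v O ↔
    VP (S a b u v) (fun x => x = u ∨ x = a * u ∨ x = b * u ∨ x = v ∨ x = a * v ∨ x = b * v) O :=
  Iff.rfl

theorem vertex_swap {a b u v : K} {O : Subalgebra ℂ K} :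
    IsVertex a b v u O ↔ IsVertex a b u v O := by
  rw [isVertex_iff, isVertex_iff]
  apply VP_congr (S_swap_vertexsym a b u v)
  · intro y hy
    apply Ideal.subset_span
    show (y : K) = u ∨ (y : K) = a * u ∨ (y : K) = b * u ∨ (y : K) = v ∨ (y : K) = a * v ∨
      (y : K) = b * v
    tauto
  · intro y hy
    apply Ideal.subset_span
    show (y : K) = v ∨ (y : K) = a * v ∨ (y : K) = b * v ∨ (y : K) = u ∨ (y : K) = a * u ∨
      (y : K) = b * u
    tauto

theorem vertex_flip {a b u v : K} (ha : a ≠ 0) {O : Subalgebra ℂ K} :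
    IsVertex a⁻¹ (-b / a) (a * u) (a * v) O ↔ IsVertex a b u v O := by
  have e1 : ∀ w : K, a⁻¹ * (a * w) = w := fun w => by field_simp
  have e2 : ∀ w : K, -b / a * (a * w) = -(b * w) := fun w => by field_simp
  rw [isVertex_iff, isVertex_iff]
  simp only [e1, e2]
  apply VP_congr (S_flip_vertexsym ha)
  · intro y hy
    have hg : ∀ z : S a b u v, ((z : K) = u ∨ (z : K) = a * u ∨ (z : K) = b * u ∨ (z : K) = v ∨
        (z : K) = a * v ∨ (z : K) = b * v) → z ∈ Ideal.span {z : S a b u v | (z : K) = u ∨
        (z : K) = a * u ∨ (z : K) = b * u ∨ (z : K) = v ∨ (z : K) = a * v ∨ (z : K) = b * v} :=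
      fun z hz => Ideal.subset_span hz
    rcases hy with hy | hy | hy | hy | hy | hy
    · exact hg _ (by tauto)
    · exact hg _ (by tauto)
    · have h1 : ((-y : S a b u v) : K) = b * u := by
        rw [show ((-y : S a b u v) : K) = -(y : K) from rfl, hy, neg_neg]
      have := neg_mem (hg (-y) (by tauto))
      rwa [neg_neg] at this
    · exact hg _ (by tauto)
    · exact hg _ (by tauto)
    · have h1 : ((-y : S a b u v) : K) = b * v := by
        rw [show ((-y : S a b u v) : K) = -(y : K) from rfl, hy, neg_neg]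
      have := neg_mem (hg (-y) (by tauto))
      rwa [neg_neg] at this
  · intro y hy
    have hg : ∀ z : S a b u v, ((z : K) = a * u ∨ (z : K) = u ∨ (z : K) = -(b * u) ∨
        (z : K) = a * v ∨ (z : K) = v ∨ (z : K) = -(b * v)) → z ∈ Ideal.span {z : S a b u v |
        (z : K) = a * u ∨ (z : K) = u ∨ (z : K) = -(b * u) ∨ (z : K) = a * v ∨ (z : K) = v ∨
        (z : K) = -(b * v)} :=
      fun z hz => Ideal.subset_span hz
    rcases hy with hy | hy | hy | hy | hy | hy
    · exact hg _ (by tauto)
    · exact hg _ (by tauto)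
    · have h1 : ((-y : S a b u v) : K) = -(b * u) := by
        rw [show ((-y : S a b u v) : K) = -(y : K) from rfl, hy]
      have := neg_mem (hg (-y) (by tauto))
      rwa [neg_neg] at this
    · exact hg _ (by tauto)
    · exact hg _ (by tauto)
    · have h1 : ((-y : S a b u v) : K) = -(b * v) := by
        rw [show ((-y : S a b u v) : K) = -(y : K) from rfl, hy]
      have := neg_mem (hg (-y) (by tauto))
      rwa [neg_neg] at this

end ComplexityOne
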