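import Mathlib
import Pool.Agent.Helper271.CY.Defs
import Pool.Agent.Helper271.CY.J_polynormal
import Pool.Agent.Helper271.CY.J_Anormal
import Pool.Agent.Helper271.CY.J_ratfermat
import Pool.Agent.Helper271.CY.J_mvfermat
import Pool.Agent.Helper271.CY.J_coords
import Pool.Agent.Helper271.CY.J_pointloc
import Pool.Agent.Helper271.CY.J_chartR
import Pool.Agent.Helper271.CY.J_chartS
import Pool.Agent.Helper271.CY.J_swap
import Pool.Agent.Helper271.CY.J_flip
import Pool.Agent.Helper271.CY.J_omegaflip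
import Pool.Agent.Helper271.CY.J_vertexsym
import Pool.Agent.Helper271.CY.J_classify
import Pool.Agent.Helper271.CY.J_nonrational
import Pool.Agent.Helper271.CY.J_trdeg
import Pool.Agent.Helper271.CY.J_exists
import Pool.Agent.Helper271.CY.J_simplepoles
import Pool.Agent.Helper271.CY.J_Rquad
import Pool.Agent.Helper271.CY.J_intercoeff
import Pool.Agent.Helper271.CY.J_Tprime
import Pool.Agent.Helper271.CY.J_constterm
import Pool.Agent.Helper271.CY.J_Tnormal
import Pool.Agent.Helper271.CY.J_Sinter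
import Pool.Agent.Helper271.CY.J_locnormal
import Pool.Agent.Helper271.CY.J_generic
import Pool.Agent.Helper271.CY.J_vertex
import Pool.Agent.Helper271.CY.J_vertexdvr
import Pool.Agent.Helper271.CY.J_formorder
import Pool.Agent.Helper271.CY.J_dvrprime
import Pool.Agent.Helper271.CY.J_ordgen
import Pool.Agent.Helper271.CY.J_trichotomy
import Pool.Agent.Helper271.CY.J_divisors
import Pool.Agent.Helper271.CY.J_Dwswap
import Pool.Agent.Helper271.CY.J_Dflip
import Pool.Agent.Helper271.CY.J_orders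
import Pool.Agent.Helper271.CY.J_fracR
import Pool.Agent.Helper271.CY.J_gauss
import Pool.Agent.Helper271.CY.J_gausstwo
import Pool.Agent.Helper271.CY.J_units
import Pool.Agent.Helper271.CY.J_Dwconst
import Pool.Agent.Helper271.CY.J_SleP
import Pool.Agent.Helper271.CY.J_finitesupp
import Pool.Agent.Helper271.CY.J_principal

universe u

namespace ComplexityOne

variable {K : Type u} [Field K] [Algebra ℂ K]

/-! ### Generalities -/

theorem HasOrder.neg {P : Subalgebra ℂ K} {f : K} {m : ℤ} (h : HasOrder P f m) :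
    HasOrder P (-f) m := by
  obtain ⟨t, e, ht, he, hf⟩ := h
  exact ⟨t, -e, ht, he.neg, by rw [hf]; push_cast; ring⟩

theorem HasFormOrder.neg {n : ℕ} {P : Subalgebra ℂ K} {ω : ExteriorAlgebra K (Ω[K⁄ℂ])} {m : ℤ}
    (h : HasFormOrder n P ω m) : HasFormOrder n P (-ω) m := by
  obtain ⟨z, hz, hz', f, hf, hω⟩ := h
  exact ⟨z, hz, hz', -f, hf.neg, by rw [hω, neg_smul]⟩

theorem HasOrder.one {P : Subalgebra ℂ K} (hD : IsDiscreteValuationRing P) :
    HasOrder P 1 0 := by
  obtain ⟨t, ht⟩ := IsDiscreteValuationRing.exists_irreducible P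
  exact ⟨t, 1, ht, isUnit_one, by simp⟩

theorem HasOrder.pow {P : Subalgebra ℂ K} (_hD : IsDiscreteValuationRing P) {f : K} {m : ℤ}
    (h : HasOrder P f m) (k : ℤ) : HasOrder P (f ^ k) (k * m) := by
  obtain ⟨t, e, ht, he, hf⟩ := h
  obtain ⟨e', rfl⟩ := he
  refine ⟨t, ((e' ^ k : Pˣ) : P), ht, Units.isUnit _, ?_⟩
  rw [hf, mul_zpow, ← zpow_mul, mul_comm m k]
  congr 1
  have : ∀ x : Pˣ, (((x : P)) : K) = ((Units.map P.val.toRingHom.toMonoidHom x : Kˣ) : K) := by
    intro x; rfl
  rw [this, this, map_zpow, Units.val_zpow_eq_zpow_val]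

theorem HasOrder.inv_mem {P : Subalgebra ℂ K} (hD : IsDiscreteValuationRing P) {f : K}
    (h : HasOrder P f 0) : f⁻¹ ∈ P := by
  obtain ⟨t, e, ht, he, hf⟩ := h.inv hD
  rw [hf]
  simp

theorem IsLocAt.ext {R : Subalgebra ℂ K} {t : K} {P P' : Subalgebra ℂ K} (h : IsLocAt R t P)
    (h' : IsLocAt R t P') : P = P' := by
  ext x
  exact (h x).trans (h' x).symm

section Quads

variable {a b u v : K}

theorem Quad.a_ne (h : Quad a b u v) : a ≠ 0 := by
  intro h0
  have := h.indep.ne_zero 0
  simp at this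
  exact this h0

theorem Quad.u_ne (h : Quad a b u v) : u ≠ 0 := by
  intro h0
  have := h.indep.ne_zero 1
  simp at this
  exact this h0

theorem Quad.v_ne (h : Quad a b u v) : v ≠ 0 := h.swap.u_ne

theorem mem_V_u : u ∈ V a b u v := Submodule.subset_span (by simp)

theorem mem_V_one : (1 : K) ∈ V a b u v := Submodule.subset_span (by simp)

/-- The boundary of the cone. -/
def IsBdry (a b u v : K) (P : Subalgebra ℂ K) : Prop :=
  IsLocAt (R a b u v) (v / u) P ∨ IsLocAt (R a b u v) u⁻¹ P ∨ IsLocAt (R a b v u) (u / v) P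

theorem bdry_swap (h : Quad a b u v) (P : Subalgebra ℂ K) :
    IsBdry a b v u P ↔ IsBdry a b u v P := by
  unfold IsBdry
  rw [Dw_swap h]
  tauto

theorem bdry_flip (h : Quad a b u v) (P : Subalgebra ℂ K) :
    IsBdry a⁻¹ (-b / a) (a * u) (a * v) P ↔ IsBdry a b u v P := by
  unfold IsBdry
  rw [Dw_flip h, Dv_flip h, Dv_flip h.swap]

/-- a local ring of the chart `R` is a point -/
theorem isPoint_of_R (h : Quad a b u v) {P : Subalgebra ℂ K} (hP : IsLocalRingOf (R a b u v) P) :
    IsPoint (V a b u v) P :=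
  ⟨u, mem_V_u, h.u_ne, by rw [chart_u h]; exact hP⟩

theorem isPoint_of_S (a b u v : K) {P : Subalgebra ℂ K} (hP : IsLocalRingOf (S a b u v) P) :
    IsPoint (V a b u v) P :=
  ⟨1, mem_V_one, one_ne_zero, by rw [chart_one]; exact hP⟩

theorem le_of_isLocalRingOf {R P : Subalgebra ℂ K} (hP : IsLocalRingOf R P) : R ≤ P := by
  obtain ⟨q, hq, hP⟩ := hP
  intro x hx
  rw [hP]
  exact ⟨⟨x, hx⟩, 1, fun h1 => hq.ne_top ((Ideal.eq_top_iff_one q).2 h1), by simp⟩

/-- points `P` containing the chart ring `R` are local rings of `R` -/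
theorem R_of_le (h : Quad a b u v) {P : Subalgebra ℂ K} (hP : IsPoint (V a b u v) P)
    (hle : R a b u v ≤ P) : IsLocalRingOf (R a b u v) P := by
  rw [← chart_u h] at hle ⊢
  exact point_loc hP mem_V_u h.u_ne fun g hg => hle (Algebra.subset_adjoin ⟨g, hg, rfl⟩)

theorem S_of_le {P : Subalgebra ℂ K} (hP : IsPoint (V a b u v) P)
    (hle : S a b u v ≤ P) : IsLocalRingOf (S a b u v) P := by
  rw [← chart_one] at hle ⊢
  exact point_loc hP mem_V_one one_ne_zero fun g hg => hle (Algebra.subset_adjoin ⟨g, hg, rfl⟩)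

/-- The five kinds of points. -/
theorem cases_point (h : Quad a b u v) {O : Subalgebra ℂ K} (hO : IsPoint (V a b u v) O) :
    IsLocalRingOf (R a b u v) O ∨ IsLocalRingOf (R a⁻¹ (-b / a) (a * u) (a * v)) O ∨
    IsLocalRingOf (R a b v u) O ∨ IsLocalRingOf (R a⁻¹ (-b / a) (a * v) (a * u)) O ∨
    IsVertex a b u v O := by
  rcases classify h hO with h1 | h1 | h1 | h1 | h1
  · left
    rw [← chart_u h]
    exact point_loc hO mem_V_u h.u_ne h1
  · right; left
    rw [← chart_u h.flip]
    refine point_loc ?_ mem_V_u h.flip.u_ne ?_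
    · rw [V_flip h.a_ne]; exact hO
    · rw [V_flip h.a_ne]; exact h1
  · right; right; left
    rw [← chart_u h.swap]
    refine point_loc ?_ mem_V_u h.swap.u_ne ?_
    · rw [V_swap]; exact hO
    · rw [V_swap]; exact h1
  · right; right; right; left
    rw [← chart_u h.swap.flip]
    refine point_loc ?_ mem_V_u h.swap.flip.u_ne ?_
    · rw [V_flip h.a_ne, V_swap]; exact hO
    · rw [V_flip h.a_ne, V_swap]; exact h1
  · right; right; right; right
    exact h1

/-- An induction principle: a property of quads and points which is invariant under the symmetries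
holds for all non vertex points as soon as it holds for the local rings of `R`. -/
theorem induct_point (Q : K → K → K → K → Subalgebra ℂ K → Prop)
    (hR : ∀ {a b u v : K}, Quad a b u v → ∀ O, IsLocalRingOf (R a b u v) O → Q a b u v O)
    (hswap : ∀ {a b u v : K}, Quad a b u v → ∀ O, Q a b v u O → Q a b u v O)
    (hflip : ∀ {a b u v : K}, Quad a b u v → ∀ O,
      Q a⁻¹ (-b / a) (a * u) (a * v) O → Q a b u v O)
    (h : Quad a b u v) {O : Subalgebra ℂ K} (hO : IsPoint (V a b u v) O)
    (hv : ¬ IsVertex a b u v O) : Q a b u v O := by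
  rcases cases_point h hO with h1 | h1 | h1 | h1 | h1
  · exact hR h O h1
  · exact hflip h O (hR h.flip O h1)
  · exact hswap h O (hR h.swap O h1)
  · exact hswap h O (hflip h.swap O (hR h.swap.flip O h1))
  · exact absurd h1 hv

/-! ### Normality -/

theorem R_normal (h : Quad a b u v) (x : K) (hx : IsIntegral (R a b u v) x) : x ∈ R a b u v :=
  T_normal h.chart x hx

theorem isIntegral_mono {A B : Subalgebra ℂ K} (hAB : A ≤ B) {x : K} (hx : IsIntegral A x) :
    IsIntegral B x := by
  obtain ⟨p, hp, hpx⟩ := hx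
  refine ⟨p.map (Subalgebra.inclusion hAB).toRingHom, hp.map _, ?_⟩
  rw [Polynomial.eval₂_map]
  exact hpx

theorem S_normal (h : Quad a b u v) (x : K) (hx : IsIntegral (S a b u v) x) : x ∈ S a b u v := by
  rw [S_inter h]
  constructor
  · refine T_normal h x (isIntegral_mono ?_ hx)
    intro y hy
    exact ((S_inter h y).1 hy).1
  · refine T_normal h.flip x (isIntegral_mono ?_ hx)
    intro y hy
    exact ((S_inter h y).1 hy).2

theorem m₀_isPrime (h : Quad a b u v) : (m₀ a b u v).IsPrime := by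
  obtain ⟨φ, hφ⟩ := exists_const h
  have : m₀ a b u v = RingHom.ker φ.toRingHom := by
    ext x
    rw [RingHom.mem_ker]
    exact (hφ x).symm
  rw [this]
  exact RingHom.ker_isPrime _

theorem vertex_local (h : Quad a b u v) {O : Subalgebra ℂ K} (hO : IsVertex a b u v O) :
    IsLocalRingOf (S a b u v) O :=
  ⟨m₀ a b u v, m₀_isPrime h, hO⟩

theorem isNormal (h : Quad a b u v) : IsNormal (V a b u v) := by
  intro O hO
  by_cases hv : IsVertex a b u v O
  · exact loc_normal (S_normal h) (vertex_local h hv)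
  · refine induct_point (fun a b u v O => ∀ x : K, IsIntegral O x → x ∈ O) ?_ ?_ ?_ h hO hv
    · intro a b u v h O hO
      exact loc_normal (R_normal h) hO
    · intro a b u v h O hO; exact hO
    · intro a b u v h O hO; exact hO

/-! ### The divisor of the form -/

theorem order_Du (h : Quad a b u v) {P : Subalgebra ℂ K} (hP : IsLocAt (R a b u v) (v / u) P) :
    IsLocalRingOf (R a b u v) P ∧ IsDiscreteValuationRing P ∧ HasOrder P (v / u) 1 ∧
      HasOrder P u⁻¹ 0 := by
  obtain ⟨P', h1, h2, h3⟩ := exists_Dv h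
  obtain rfl := h1.ext hP
  have hD' := h3
  refine ⟨h2, h3, ?_⟩
  rcases trichotomy h h2 h3 with h4 | h4 | h4
  · exact h4.2
  · exfalso
    obtain ⟨h5, h6, h7⟩ := h4
    have hinv : (v / u)⁻¹ ∈ P' := h6.inv_mem hD'
    rw [h1] at hinv
    obtain ⟨r, s, hs, hrs⟩ := hinv
    have hv0 : v / u ≠ 0 := div_ne_zero h.v_ne h.u_ne
    have hs0 : (s : K) ≠ 0 := by
      intro h0
      exact hs ⟨0, by rw [h0]; simp⟩
    apply hs
    refine ⟨r, ?_⟩
    have := hrs
    rw [eq_div_iff hs0] at this
    rw [← this, ← mul_assoc, mul_inv_cancel₀ hv0, one_mul]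
  · exact absurd h1 h4.1

theorem order_Dw (h : Quad a b u v) {P : Subalgebra ℂ K} (hP : IsLocAt (R a b u v) u⁻¹ P) :
    IsLocalRingOf (R a b u v) P ∧ IsDiscreteValuationRing P ∧ HasOrder P (v / u) 0 ∧
      HasOrder P u⁻¹ 1 := by
  obtain ⟨P', h1, h2, h3⟩ := exists_Dw h
  obtain rfl := h1.ext hP
  have hD' := h3
  refine ⟨h2, h3, ?_⟩
  rcases trichotomy h h2 h3 with h4 | h4 | h4
  · exfalso
    obtain ⟨h5, h6, h7⟩ := h4
    have hinv : (u⁻¹)⁻¹ ∈ P' := h7.inv_mem hD'
    rw [h1] at hinv
    obtain ⟨r, s, hs, hrs⟩ := hinv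
    have hu0 := h.u_ne
    have hs0 : (s : K) ≠ 0 := by
      intro h0
      exact hs ⟨0, by rw [h0]; simp⟩
    apply hs
    refine ⟨r, ?_⟩
    have := hrs
    rw [eq_div_iff hs0] at this
    rw [← this, ← mul_assoc, mul_inv_cancel₀ (inv_ne_zero hu0), one_mul]
  · exact h4.2
  · exact absurd h1 h4.2.1

theorem form_main (h : Quad a b u v) {P : Subalgebra ℂ K} (hP : IsPoint (V a b u v) P)
    (hD : IsDiscreteValuationRing P) :
    (IsBdry a b u v P → HasFormOrder 3 P (omega a b u v) (-1)) ∧
    (¬ IsBdry a b u v P → HasFormOrder 3 P (omega a b u v) 0) := by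
  have hv : ¬ IsVertex a b u v P := fun hv => vertex_not_dvr h hv hD
  refine induct_point (fun a b u v P => IsDiscreteValuationRing P →
    (IsBdry a b u v P → HasFormOrder 3 P (omega a b u v) (-1)) ∧
    (¬ IsBdry a b u v P → HasFormOrder 3 P (omega a b u v) 0)) ?_ ?_ ?_ h hP hv hD
  · intro a b u v h P hP hD
    rcases trichotomy h hP hD with ⟨h1, h2, h3⟩ | ⟨h1, h2, h3⟩ | ⟨h1, h1', h2, h3⟩
    · have := form_order h hP hD (h2.mul hD h3)
      exact ⟨fun _ => by simpa using this, fun hn => absurd (Or.inl h1) hn⟩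
    · have := form_order h hP hD (h2.mul hD h3)
      exact ⟨fun _ => by simpa using this, fun hn => absurd (Or.inr (Or.inl h1)) hn⟩
    · have := form_order h hP hD (h2.mul hD h3)
      refine ⟨fun hb => ?_, fun hn => by simpa using this⟩
      exfalso
      rcases hb with hb | hb | hb
      · exact h1 hb
      · exact h1' hb
      · have h5 := (order_Du h.swap hb).2.2.1
        have h6 := h5.inv hD
        rw [inv_div] at h6
        have := h6.unique hD h2
        norm_num at this
  · intro a b u v h P hP hD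
    rw [← bdry_swap h]
    have h1 := hP hD
    rw [omega_swap] at h1
    refine ⟨fun hb => ?_, fun hb => ?_⟩
    · simpa using (h1.1 hb).neg
    · simpa using (h1.2 hb).neg
  · intro a b u v h P hP hD
    rw [← bdry_flip h]
    have h1 := hP hD
    rw [omega_flip h] at h1
    refine ⟨fun hb => ?_, fun hb => ?_⟩
    · simpa using (h1.1 hb).neg
    · simpa using (h1.2 hb).neg

/-! ### The Picard group -/

theorem exists_order (h : Quad a b u v) {P : Subalgebra ℂ K} (hP : IsPoint (V a b u v) P)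
    (hD : IsDiscreteValuationRing P) {g : K} (hg : g ≠ 0) : ∃ m : ℤ, HasOrder P g m := by
  have hv : ¬ IsVertex a b u v P := fun hv => vertex_not_dvr h hv hD
  refine HasOrder.exists hD ?_ hg
  refine induct_point (fun a b u v P => ∀ x : K, ∃ r s : P, (s : K) ≠ 0 ∧ x = (r : K) / (s : K))
    ?_ ?_ ?_ h hP hv
  · intro a b u v h P hP
    exact frac_R h (le_of_isLocalRingOf hP)
  · intro a b u v h P hP; exact hP
  · intro a b u v h P hP; exact hP

theorem S_le_point (h : Quad a b u v) {P : Subalgebra ℂ K} (hP : IsPoint (V a b u v) P)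
    (hD : IsDiscreteValuationRing P) (hw : ¬ IsLocAt (R a b u v) u⁻¹ P) : S a b u v ≤ P := by
  have hv : ¬ IsVertex a b u v P := fun hv => vertex_not_dvr h hv hD
  refine induct_point (fun a b u v P => IsDiscreteValuationRing P →
    ¬ IsLocAt (R a b u v) u⁻¹ P → S a b u v ≤ P) ?_ ?_ ?_ h hP hv hD hw
  · intro a b u v h P hP hD hw
    exact S_le h hP hD hw
  · intro a b u v h P hP hD hw
    rw [← S_swap]
    exact hP hD (by rwa [Dw_swap h])
  · intro a b u v h P hP hD hw
    rw [← S_flip h.a_ne]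
    exact hP hD (by rwa [Dw_flip h])

/-- The prime divisors which do not pass through the vertex, other than `D_w`. -/
theorem exists_equation (h : Quad a b u v) {O P : Subalgebra ℂ K} (hO : IsVertex a b u v O)
    (hP : IsPoint (V a b u v) P) (hD : IsDiscreteValuationRing P)
    (hw : ¬ IsLocAt (R a b u v) u⁻¹ P) (hOP : ¬ O ≤ P) :
    ∃ g : K, g ≠ 0 ∧ HasOrder P g 1 ∧ ∀ P' : Subalgebra ℂ K, IsPoint (V a b u v) P' →
      IsDiscreteValuationRing P' → ¬ IsLocAt (R a b u v) u⁻¹ P' → P' ≠ P → HasOrder P' g 0 := by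
  obtain ⟨q, hq, hqP⟩ := S_of_le hP (S_le_point h hP hD hw)
  have hqm : ¬ q ≤ m₀ a b u v := by
    intro hle
    apply hOP
    intro x hx
    rw [hO] at hx
    obtain ⟨r, s, hs, hx⟩ := hx
    rw [hqP]
    exact ⟨r, s, fun hs' => hs (hle hs'), hx⟩
  obtain ⟨g, hg⟩ := principal h q hq hqm (fun q' hq' hle => dvr_height q hq hqP hD q' hq' hle)
  have hqbot : q ≠ ⊥ := by
    rintro rfl
    exact hqm bot_le
  have hg0 : g ≠ 0 := by
    rintro rfl
    apply hqbot
    rw [hg]
    simp
  refine ⟨(g : K), by simpa using hg0, order_of_generator q hq hqP hD g hg, ?_⟩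
  intro P' hP' hD' hw' hne
  obtain ⟨q', hq', hqP'⟩ := S_of_le hP' (S_le_point h hP' hD' hw')
  apply order_of_notMem q' hq' hqP' hD'
  intro hgq
  have hle : q ≤ q' := by
    rw [hg, Ideal.span_singleton_le_iff_mem]
    exact hgq
  rcases dvr_height q' hq' hqP' hD' q hq hle with h1 | h1
  · exact hqbot h1
  · apply hne
    subst h1
    ext x
    exact (hqP' x).trans (hqP x).symm

theorem HasOrder.prod {ι : Type*} {P : Subalgebra ℂ K} (hD : IsDiscreteValuationRing P)
    (E : Finset ι) (f : ι → K) (m : ι → ℤ) (hf : ∀ i ∈ E, HasOrder P (f i) (m i)) :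
    HasOrder P (∏ i ∈ E, f i) (∑ i ∈ E, m i) := by
  classical
  induction E using Finset.induction_on with
  | empty => simpa using HasOrder.one hD
  | insert i E hi ih =>
    rw [Finset.prod_insert hi, Finset.sum_insert hi]
    exact (hf i (Finset.mem_insert_self i E)).mul hD
      (ih fun j hj => hf j (Finset.mem_insert_of_mem hj))

theorem HasOrder.inv_notMem {P : Subalgebra ℂ K} {f : K} (h : HasOrder P f 1) : f⁻¹ ∉ P := by
  intro hm
  obtain ⟨t, e, ht, he, hf⟩ := h
  apply ht.not_isUnit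
  have he0 : (e : K) ≠ 0 := by
    intro h0
    have : e = 0 := by exact_mod_cast h0
    exact he.ne_zero this
  have ht0 : (t : K) ≠ 0 := by
    intro h0
    have : t = 0 := by exact_mod_cast h0
    exact ht.ne_zero this
  apply IsUnit.of_mul_eq_one (⟨f⁻¹, hm⟩ * e)
  apply Subtype.ext
  push_cast
  rw [hf]
  simp only [zpow_one]
  field_simp

theorem not_Dw_of_S_le (h : Quad a b u v) {P : Subalgebra ℂ K} (hle : S a b u v ≤ P) :
    ¬ IsLocAt (R a b u v) u⁻¹ P := by
  intro hw
  have h1 := (order_Dw h hw).2.2.2.inv_notMem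
  rw [inv_inv] at h1
  exact h1 (hle (Algebra.subset_adjoin (by simp)))

theorem cartier_Dw (h : Quad a b u v) {O : Subalgebra ℂ K} (hO : IsPoint (V a b u v) O) :
    ∃ g : K, g ≠ 0 ∧ ∀ P : Subalgebra ℂ K, IsPoint (V a b u v) P → IsDiscreteValuationRing P →
      O ≤ P → ((IsLocAt (R a b u v) u⁻¹ P → HasOrder P g 1) ∧
        (¬ IsLocAt (R a b u v) u⁻¹ P → HasOrder P g 0)) := by
  by_cases hv : IsVertex a b u v O
  · refine ⟨1, one_ne_zero, fun P hP hD hle => ⟨fun hw => ?_, fun _ => HasOrder.one hD⟩⟩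
    exact absurd hw (not_Dw_of_S_le h ((le_of_isLocalRingOf (vertex_local h hv)).trans hle))
  · refine induct_point (fun a b u v O => ∃ g : K, g ≠ 0 ∧ ∀ P : Subalgebra ℂ K,
      IsPoint (V a b u v) P → IsDiscreteValuationRing P →
      O ≤ P → ((IsLocAt (R a b u v) u⁻¹ P → HasOrder P g 1) ∧
        (¬ IsLocAt (R a b u v) u⁻¹ P → HasOrder P g 0))) ?_ ?_ ?_ h hO hv
    · intro a b u v h O hO
      refine ⟨u⁻¹, inv_ne_zero h.u_ne, fun P hP hD hle => ?_⟩
      have hPR := R_of_le h hP ((le_of_isLocalRingOf hO).trans hle)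
      refine ⟨fun hw => (order_Dw h hw).2.2.2, fun hw => ?_⟩
      rcases trichotomy h hPR hD with h1 | h1 | h1
      · exact h1.2.2
      · exact absurd h1.1 hw
      · exact h1.2.2.2
    · intro a b u v h O hO
      rw [V_swap] at hO
      simpa only [Dw_swap h] using hO
    · intro a b u v h O hO
      rw [V_flip h.a_ne] at hO
      simpa only [Dw_flip h] using hO

theorem picard (h : Quad a b u v) : PicardGroupInfiniteCyclic (V a b u v) := by
  classical
  obtain ⟨W, hW, hWR, hWD⟩ := exists_Dw h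
  let Dw : PrimeDivisor (V a b u v) := ⟨W, isPoint_of_R h hWR, hWD⟩
  have hDw : ∀ P : PrimeDivisor (V a b u v), IsLocAt (R a b u v) u⁻¹ P.1 ↔ P = Dw := by
    intro P
    constructor
    · intro hP
      exact Subtype.ext (hP.ext hW)
    · rintro rfl
      exact hW
  refine ⟨Finsupp.single Dw 1, ?_, ?_⟩
  · intro O hO
    obtain ⟨g, hg, hgP⟩ := cartier_Dw h hO
    refine ⟨g, hg, fun P hle => ?_⟩
    have h1 := hgP P.1 P.2.1 P.2.2 hle
    by_cases hP : P = Dw
    · rw [hP, Finsupp.single_eq_same, ← hP]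
      exact h1.1 ((hDw P).2 hP)
    · rw [Finsupp.single_eq_of_ne hP]
      exact h1.2 (fun h2 => hP ((hDw P).1 h2))
  · intro D hD
    obtain ⟨O, hO, hOv⟩ := exists_vertex h
    obtain ⟨g₀, hg₀, hg₀P⟩ := hD O hO
    choose ord hord using fun P : PrimeDivisor (V a b u v) => exists_order h P.2.1 P.2.2 hg₀
    have heq : ∀ P : PrimeDivisor (V a b u v), ∃ g : K, P ≠ Dw → ¬ O ≤ P.1 →
        (g ≠ 0 ∧ HasOrder P.1 g 1 ∧ ∀ P' : PrimeDivisor (V a b u v), P' ≠ Dw → P' ≠ P →
          HasOrder P'.1 g 0) := by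
      intro P
      by_cases hP : P ≠ Dw ∧ ¬ O ≤ P.1
      · obtain ⟨g, hg, hg1, hg2⟩ := exists_equation h hOv P.2.1 P.2.2
          (fun h2 => hP.1 ((hDw P).1 h2)) hP.2
        refine ⟨g, fun _ _ => ⟨hg, hg1, fun P' hP' hne => ?_⟩⟩
        exact hg2 P'.1 P'.2.1 P'.2.2 (fun h2 => hP' ((hDw P').1 h2))
          (fun h2 => hne (Subtype.ext h2))
      · exact ⟨1, fun h1 h2 => absurd ⟨h1, h2⟩ hP⟩
    choose eqn heqn using heq
    -- finiteness
    have hfin : {P : PrimeDivisor (V a b u v) | P ≠ Dw ∧ ¬ HasOrder P.1 g₀ 0}.Finite := by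
      refine Set.Finite.of_injOn (f := fun P => P.1) ?_ ?_ (finite_support h hg₀)
      · intro P hP
        have hw : ¬ IsLocAt (R a b u v) u⁻¹ P.1 := fun h2 => hP.1 ((hDw P).1 h2)
        exact ⟨S_of_le P.2.1 (S_le_point h P.2.1 P.2.2 hw), P.2.2, hP.2⟩
      · intro P _ P' _ hPP
        exact Subtype.ext hPP
    let E : Finset (PrimeDivisor (V a b u v)) :=
      (D.support ∪ hfin.toFinset).filter fun P => P ≠ Dw ∧ ¬ O ≤ P.1
    let g : K := g₀ * ∏ P ∈ E, eqn P ^ (D P - ord P)
    have hgne : g ≠ 0 := by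
      refine mul_ne_zero hg₀ (Finset.prod_ne_zero_iff.2 fun P hP => zpow_ne_zero _ ?_)
      have := (Finset.mem_filter.1 hP).2
      exact (heqn P this.1 this.2).1
    have hgord : ∀ P' : PrimeDivisor (V a b u v), P' ≠ Dw → HasOrder P'.1 g (D P') := by
      intro P' hP'
      by_cases hOP : O ≤ P'.1
      · have h1 : HasOrder P'.1 g (D P' + ∑ P ∈ E, 0) := by
          refine (hg₀P P' hOP).mul P'.2.2 (HasOrder.prod P'.2.2 _ _ _ fun P hP => ?_)
          have h2 := (Finset.mem_filter.1 hP).2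
          have hne : P' ≠ P := by
            rintro rfl
            exact h2.2 hOP
          simpa using ((heqn P h2.1 h2.2).2.2 P' hP' hne).pow P'.2.2 (D P - ord P)
        simpa using h1
      · have h1 : HasOrder P'.1 g (ord P' + ∑ P ∈ E, if P = P' then D P' - ord P' else 0) := by
          refine (hord P').mul P'.2.2 (HasOrder.prod P'.2.2 _ _ _ fun P hP => ?_)
          have h2 := (Finset.mem_filter.1 hP).2
          by_cases hPP : P = P'
          · subst hPP
            simpa using ((heqn P h2.1 h2.2).2.1).pow P.2.2 (D P - ord P)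
          · rw [if_neg hPP]
            simpa using ((heqn P h2.1 h2.2).2.2 P' hP' (Ne.symm hPP)).pow P'.2.2 (D P - ord P)
        rw [Finset.sum_ite_eq' E P'] at h1
        by_cases hPE : P' ∈ E
        · rw [if_pos hPE] at h1
          simpa using h1
        · rw [if_neg hPE, add_zero] at h1
          have h3 : P' ∉ D.support ∧ P' ∉ hfin.toFinset := by
            by_contra hcon
            apply hPE
            refine Finset.mem_filter.2 ⟨?_, hP', hOP⟩
            rw [Finset.mem_union]
            tauto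
          have h4 : D P' = 0 := by
            simpa using h3.1
          have h5 : HasOrder P'.1 g₀ 0 := by
            by_contra hcon
            exact h3.2 (by simpa using ⟨hP', hcon⟩)
          have h6 : ord P' = 0 := (hord P').unique P'.2.2 h5
          rw [h4]
          rwa [h6] at h1
    obtain ⟨k, hk⟩ := exists_order h Dw.2.1 Dw.2.2 hgne
    have hval : ∀ (m : ℤ) (P : PrimeDivisor (V a b u v)),
        (D - m • (Finsupp.single Dw 1 : PrimeDivisor (V a b u v) →₀ ℤ)) P =
          D P - if P = Dw then m else 0 := by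
      intro m P
      by_cases hP : P = Dw
      · simp [hP]
      · simp [hP, Finsupp.single_eq_of_ne hP]
    refine ⟨D Dw - k, ⟨g, hgne, fun P => ?_⟩, ?_⟩
    · rw [hval]
      by_cases hP : P = Dw
      · rw [if_pos hP, hP]
        simpa using hk
      · rw [if_neg hP]
        simpa using hgord P hP
    · rintro m ⟨g', hg', hg'P⟩
      have h1 : ∀ P : PrimeDivisor (V a b u v), HasOrder P.1 (g * g'⁻¹)
          ((if P = Dw then k else D P) - (D P - if P = Dw then m else 0)) := by
        intro P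
        rw [sub_eq_add_neg]
        refine HasOrder.mul P.2.2 ?_ ?_
        · by_cases hP : P = Dw
          · rw [if_pos hP, hP]; exact hk
          · rw [if_neg hP]; exact hgord P hP
        · have := hg'P P
          rw [hval] at this
          exact this.inv P.2.2
      have h2 : g * g'⁻¹ ∈ IntermediateField.adjoin ℂ {a, b} := by
        refine units_const h (mul_ne_zero hgne (inv_ne_zero hg')) fun P hP hPD => ?_
        obtain ⟨Q, rfl⟩ : ∃ Q : PrimeDivisor (V a b u v), Q.1 = P :=
          ⟨⟨P, isPoint_of_S a b u v hP, hPD⟩, rfl⟩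
        have h3 := h1 Q
        have hne : Q ≠ Dw := by
          intro heq
          exact not_Dw_of_S_le h (le_of_isLocalRingOf hP) ((hDw _).2 heq)
        rw [if_neg hne, if_neg hne] at h3
        simpa using h3
      have h3 := Dw_const h hW hWD (mul_ne_zero hgne (inv_ne_zero hg')) h2
      have h4 := (h1 Dw).unique hWD h3
      simp only [if_true] at h4
      linarith

/-! ### The main theorem -/

theorem main (h : Quad a b u v) : ∃ B : Finset (PrimeDivisor (V a b u v)),
    IsLogCalabiYauOfIndexOne 3 (V a b u v) B ∧ PicardGroupInfiniteCyclic (V a b u v) ∧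
      B.card = 3 + 1 - 1 ∧ ¬ IsRational K 3 := by
  classical
  obtain ⟨P₁, h₁, h₁R, h₁D⟩ := exists_Dv h
  obtain ⟨P₂, h₂, h₂R, h₂D⟩ := exists_Dw h
  obtain ⟨P₃, h₃, h₃R, h₃D⟩ := exists_Dv h.swap
  have h₃P : IsPoint (V a b u v) P₃ := by
    rw [← V_swap]
    exact isPoint_of_R h.swap h₃R
  let Dv : PrimeDivisor (V a b u v) := ⟨P₁, isPoint_of_R h h₁R, h₁D⟩
  let Dw : PrimeDivisor (V a b u v) := ⟨P₂, isPoint_of_R h h₂R, h₂D⟩
  let Du : PrimeDivisor (V a b u v) := ⟨P₃, h₃P, h₃D⟩
  have o₁ := (order_Du h h₁).2.2.1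
  have o₂ := (order_Dw h h₂).2.2.1
  have o₃ := ((order_Du h.swap h₃).2.2.1).inv h₃D
  rw [inv_div] at o₃
  have h12 : P₁ ≠ P₂ := by
    rintro rfl
    have := o₁.unique h₁D o₂
    norm_num at this
  have h13 : P₁ ≠ P₃ := by
    rintro rfl
    have := o₁.unique h₁D o₃
    norm_num at this
  have h23 : P₂ ≠ P₃ := by
    rintro rfl
    have := o₂.unique h₂D o₃
    norm_num at this
  have hB : ∀ P : PrimeDivisor (V a b u v),
      P ∈ ({Dv, Dw, Du} : Finset (PrimeDivisor (V a b u v))) ↔ IsBdry a b u v P.1 := by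
    intro P
    simp only [Finset.mem_insert, Finset.mem_singleton]
    constructor
    · rintro (rfl | rfl | rfl)
      · exact Or.inl h₁
      · exact Or.inr (Or.inl h₂)
      · exact Or.inr (Or.inr h₃)
    · rintro (hP | hP | hP)
      · exact Or.inl (Subtype.ext (hP.ext h₁))
      · exact Or.inr (Or.inl (Subtype.ext (hP.ext h₂)))
      · exact Or.inr (Or.inr (Subtype.ext (hP.ext h₃)))
  refine ⟨{Dv, Dw, Du}, ⟨?_, generic_point h, isNormal h, by exact_mod_cast trdeg_eq h,
    omega a b u v, ?_, ?_, simple_poles h⟩, picard h, ?_, not_rational h⟩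
  · unfold V
    refine FiniteDimensional.span_of_finite ℂ ?_
    exact Set.toFinite _
  · intro P hP
    exact (form_main h P.2.1 P.2.2).1 ((hB P).1 hP)
  · intro P hP
    exact (form_main h P.2.1 P.2.2).2 (fun h1 => hP ((hB P).2 h1))
  · rw [Finset.card_insert_of_notMem, Finset.card_insert_of_notMem, Finset.card_singleton]
    · simp only [Finset.mem_singleton]
      exact fun h0 => h23 (congrArg Subtype.val h0)
    · simp only [Finset.mem_insert, Finset.mem_singleton, not_or]
      exact ⟨fun h0 => h12 (congrArg Subtype.val h0), fun h0 => h13 (congrArg Subtype.val h0)⟩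

end Quads

theorem main_exists : ∃ (K : Type) (_ : Field K) (_ : Algebra ℂ K) (V : Submodule ℂ K)
    (B : Finset (PrimeDivisor V)),
    IsLogCalabiYauOfIndexOne 3 V B ∧ PicardGroupInfiniteCyclic V ∧ B.card = 3 + 1 - 1 ∧
      ¬ IsRational K 3 := by
  obtain ⟨K, _, _, a, b, u, v, h⟩ := exists_quad
  obtain ⟨B, hB⟩ := main h
  exact ⟨K, _, _, V a b u v, B, hB⟩

end ComplexityOne
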